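import Pool.Agent.Y226.ZR.Local

/-!
# The two charts of the line
-/

set_option autoImplicit false
set_option linter.unusedSectionVars false

open UpperHalfPlane H294ZP Polynomial

namespace Pool.Agent.Y226.ZR

open Pool.Agent.Y226

variable {C : Type} [NormedField C] [IsUltrametricDist C]
variable {p : ℕ} [hpf : Fact p.Prime]
variable {k : Type} [Field k] [CharP k p]

/-- two forms without common zero modulo the maximal ideal -/
structure Cop (red : OO C →+* k) (f g : (OO C)[X]) (m n : ℕ) : Prop where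
  fin : ∀ x : OO C, red (f.eval x) ≠ 0 ∨ red (g.eval x) ≠ 0
  inf : red (f.coeff m) ≠ 0 ∨ red (g.coeff n) ≠ 0

theorem red_unit {red : OO C →+* k} (hker : ∀ x : OO C, red x = 0 ↔ ‖(x : C)‖ < 1) {x : OO C} :
    red x ≠ 0 ↔ ‖(x : C)‖ = 1 := by
  rw [Ne, hker]
  constructor
  · intro h
    exact le_antisymm x.2 (not_lt.1 h)
  · intro h
    rw [h]
    exact lt_irrefl 1

theorem cop_of_res {red : OO C →+* k} {f g : (OO C)[X]} {m n : ℕ} (hf : f.natDegree ≤ m)
    (hg : g.natDegree ≤ n) (hm : 0 < m) (hn : 0 < n) (h : red (resultant f g m n) ≠ 0) :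
    Cop red f g m n := by
  constructor
  · intro x
    obtain ⟨P, Q, -, -, e⟩ := exists_mul_add_mul_eq_C_resultant f g hf hg (Or.inl hm.ne')
    by_contra hcon
    push Not at hcon
    apply h
    have h1 := congrArg (Polynomial.eval x) e
    rw [eval_C, eval_add, eval_mul, eval_mul] at h1
    rw [← h1, map_add, map_mul, map_mul, hcon.1, hcon.2, zero_mul, zero_mul, add_zero]
  · by_contra hcon
    push Not at hcon
    apply h
    rw [← resultant_map_map]
    refine resultant_eq_zero_of_lt_lt _ _ _ _ ?_ ?_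
    · have h1 : (f.map red).natDegree ≤ m := natDegree_map_le.trans hf
      refine lt_of_le_of_ne h1 fun h2 => ?_
      have h3 : (f.map red).leadingCoeff = 0 := by
        rw [leadingCoeff, h2, coeff_map, hcon.1]
      rw [leadingCoeff_eq_zero] at h3
      rw [h3, natDegree_zero] at h2
      omega
    · have h1 : (g.map red).natDegree ≤ n := natDegree_map_le.trans hg
      refine lt_of_le_of_ne h1 fun h2 => ?_
      have h3 : (g.map red).leadingCoeff = 0 := by
        rw [leadingCoeff, h2, coeff_map, hcon.2]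
      rw [leadingCoeff_eq_zero] at h3
      rw [h3, natDegree_zero] at h2
      omega

theorem eval_reflect {K : Type} [Field K] {f : K[X]} {m : ℕ} (hf : f.natDegree ≤ m) {x : K}
    (hx : x ≠ 0) : (reflect m f).eval x⁻¹ * x ^ m = f.eval x := by
  letI : Invertible x := invertibleOfNonzero hx
  have h := eval₂_reflect_mul_pow (RingHom.id K) x m f hf
  rw [invOf_eq_inv] at h
  simpa only [eval₂_id] using h

theorem eval_reflect_OO {f : (OO C)[X]} {m : ℕ} (hf : f.natDegree ≤ m) {x y : OO C}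
    (hxy : x * y = 1) : (reflect m f).eval y * x ^ m = f.eval x := by
  letI : Invertible x := ⟨y, by rw [mul_comm]; exact hxy, hxy⟩
  have h := eval₂_reflect_mul_pow (RingHom.id (OO C)) x m f hf
  have h2 : ⅟x = y := rfl
  rw [h2] at h
  simpa only [eval₂_id] using h

theorem cop_reflect {red : OO C →+* k} (hker : ∀ x : OO C, red x = 0 ↔ ‖(x : C)‖ < 1)
    {f g : (OO C)[X]} {m n : ℕ} (hf : f.natDegree ≤ m)
    (hg : g.natDegree ≤ n) (h : Cop red f g m n) :
    Cop red (reflect m f) (reflect n g) m n := by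
  constructor
  · intro x
    by_cases hx : red x = 0
    · have key : ∀ (F : (OO C)[X]) (N : ℕ), red ((reflect N F).eval x) = red (F.coeff N) := by
        intro F N
        have e : red ((reflect N F).eval x) = ((reflect N F).map red).eval (red x) := by
          rw [eval_map_apply]
        rw [e, hx, ← coeff_zero_eq_eval_zero, coeff_map, coeff_reflect, revAt_le (Nat.zero_le _),
          Nat.sub_zero]
      rw [key, key]
      exact h.inf
    · have hx1 : ‖(x : C)‖ = 1 := (red_unit hker).1 hx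
      have hx0 : (x : C) ≠ 0 := norm_pos_iff.1 (by rw [hx1]; exact one_pos)
      set y : OO C := ⟨(x : C)⁻¹, by rw [mem_OO, norm_inv, hx1, inv_one]⟩ with hy
      have hxy : y * x = 1 := Subtype.ext (inv_mul_cancel₀ hx0)
      rcases h.fin y with h1 | h1
      · left
        intro h2
        apply h1
        rw [← eval_reflect_OO hf hxy, map_mul, h2, zero_mul]
      · right
        intro h2
        apply h1
        rw [← eval_reflect_OO hg hxy, map_mul, h2, zero_mul]
  · rw [coeff_reflect, coeff_reflect, revAt_le le_rfl, revAt_le le_rfl, Nat.sub_self, Nat.sub_self,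
      coeff_zero_eq_eval_zero, coeff_zero_eq_eval_zero]
    exact h.fin 0

/-- a polynomial with unit leading coefficient has an integral root -/
theorem exists_int_root [IsAlgClosed C] {red : OO C →+* k}
    (hker : ∀ x : OO C, red x = 0 ↔ ‖(x : C)‖ < 1) {f : (OO C)[X]} {m : ℕ}
    (hf : f.natDegree ≤ m) (hm : 0 < m) (h : red (f.coeff m) ≠ 0) :
    ∃ x : OO C, f.eval x = 0 := by
  have hc1 : ‖((f.coeff m : OO C) : C)‖ = 1 := (red_unit hker).1 h
  set F := f.map (OO C).subtype with hF
  have hFc : ∀ i, F.coeff i = ((f.coeff i : OO C) : C) := fun i => by rw [hF, coeff_map]; rfl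
  have hFm : F.coeff m ≠ 0 := norm_pos_iff.1 (by rw [hFc, hc1]; exact one_pos)
  have hFd : F.natDegree = m :=
    le_antisymm (natDegree_map_le.trans hf) (le_natDegree_of_ne_zero hFm)
  obtain ⟨x, hx⟩ := IsAlgClosed.exists_root F (by
    rw [degree_eq_natDegree (by rintro h0; rw [h0] at hFm; simp at hFm), hFd]
    exact_mod_cast hm.ne')
  have hx' : F.eval x = 0 := hx
  have hx1 : ‖x‖ ≤ 1 := by
    by_contra hcon
    push Not at hcon
    rw [eval_eq_sum_range, hFd, Finset.sum_range_succ] at hx'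
    have h1 : F.coeff m * x ^ m = -∑ i ∈ Finset.range m, F.coeff i * x ^ i :=
      eq_neg_of_add_eq_zero_right hx'
    have h2 := congrArg norm h1
    rw [norm_neg, norm_mul, hFc, hc1, one_mul, norm_pow] at h2
    obtain ⟨q, rfl⟩ : ∃ q, m = q + 1 := ⟨m - 1, by omega⟩
    have h3 : ‖∑ i ∈ Finset.range (q + 1), F.coeff i * x ^ i‖ ≤ ‖x‖ ^ q := by
      refine nsum_le _ _ (by positivity) fun i hi => ?_
      rw [norm_mul, norm_pow, hFc]
      have h4 : ‖((f.coeff i : OO C) : C)‖ ≤ 1 := (f.coeff i).2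
      have h5 : ‖x‖ ^ i ≤ ‖x‖ ^ q := pow_le_pow_right₀ hcon.le (by
        have := Finset.mem_range.1 hi; omega)
      calc ‖((f.coeff i : OO C) : C)‖ * ‖x‖ ^ i ≤ 1 * ‖x‖ ^ q := by gcongr
        _ = ‖x‖ ^ q := one_mul _
    rw [← h2] at h3
    have h6 : ‖x‖ ^ q < ‖x‖ ^ (q + 1) := pow_lt_pow_right₀ hcon (Nat.lt_succ_self q)
    linarith
  refine ⟨⟨x, hx1⟩, Subtype.ext ?_⟩
  have e := (eval_map_apply (f := (OO C).subtype) (p := f) (⟨x, hx1⟩ : OO C)).symm
  show (OO C).subtype (f.eval ⟨x, hx1⟩) = 0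
  rw [e]
  exact hx'

/-- the local data of the forms -/
theorem exists_PData [IsAlgClosed C] (hp0 : 0 < ‖(p : C)‖) {red : OO C →+* k}
    (hker : ∀ x : OO C, red x = 0 ↔ ‖(x : C)‖ < 1) {F : Subfield C} {ff : ℕ} (hff : 0 < ff)
    (hF : Un p F ff) {n d : ℕ} {A B : Fin n → (OO C)[X]} {D : Fin n → ℕ}
    (hD : ∀ i, 0 < D i ∧ D i ≤ d) (hA : ∀ i, A i ∈ PR (FO F)) (hB : ∀ i, B i ∈ PR (FO F))
    (dA : ∀ i, (A i).natDegree ≤ D i) (dB : ∀ i, (B i).natDegree ≤ D i)
    (h1 : ∀ i, Cop red (A i) (B i) (D i) (D i))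
    (h2 : ∀ i j, i ≠ j → Cop red (A i * B i) (A j * B j) (D i + D i) (D j + D j)) :
    ∃ 𝒟 : PData C p n d, (∀ i, 𝒟.A i = (A i).map (OO C).subtype) ∧
      ∀ i, 𝒟.B i = (B i).map (OO C).subtype := by
  have hev : ∀ (G : (OO C)[X]) (x : OO C), (G.map (OO C).subtype).eval (x : C) =
      ((G.eval x : OO C) : C) := fun G x => eval_map_apply (f := (OO C).subtype) x
  have hNr : ∀ {G : (OO C)[X]}, G ∈ PR (FO F) → G.map (OO C).subtype ∈ PS (Nr C p) := by
    intro G hG
    rw [mem_PS]
    intro m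
    rw [coeff_map]
    have h3 := mem_FO.1 (mem_PR.1 hG m)
    exact ⟨(G.coeff m).2, ff, hff, hF _ h3 (G.coeff m).2⟩
  refine ⟨{ A := fun i => (A i).map (OO C).subtype
            B := fun i => (B i).map (OO C).subtype
            hA := fun i => hNr (hA i)
            hB := fun i => hNr (hB i)
            dA := fun i => natDegree_map_le.trans ((dA i).trans (hD i).2)
            dB := fun i => natDegree_map_le.trans ((dB i).trans (hD i).2)
            g1 := ?_
            g2 := ?_
            g3 := ?_ }, fun i => rfl, fun i => rfl⟩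
  · intro x hx i j hij
    have h3 := (h2 i j hij).fin ⟨x, hx⟩
    rw [red_unit hker, red_unit hker, eval_mul, eval_mul] at h3
    show ‖((A i).map (OO C).subtype).eval ((⟨x, hx⟩ : OO C) : C) * _‖ = 1 ∨
      ‖((A j).map (OO C).subtype).eval ((⟨x, hx⟩ : OO C) : C) * _‖ = 1
    rw [hev, hev]
    show ‖_ * ((B i).map (OO C).subtype).eval ((⟨x, hx⟩ : OO C) : C)‖ = 1 ∨
      ‖_ * ((B j).map (OO C).subtype).eval ((⟨x, hx⟩ : OO C) : C)‖ = 1
    rw [hev, hev]
    exact h3
  · intro x hx i
    have h3 := (h1 i).fin ⟨x, hx⟩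
    rw [red_unit hker, red_unit hker] at h3
    show ‖((A i).map (OO C).subtype).eval ((⟨x, hx⟩ : OO C) : C)‖ = 1 ∨
      ‖((B i).map (OO C).subtype).eval ((⟨x, hx⟩ : OO C) : C)‖ = 1
    rw [hev, hev]
    exact h3
  · intro i
    obtain ⟨x, hx⟩ : ∃ x : OO C, (A i).eval x * (B i).eval x = 0 := by
      rcases (h1 i).inf with h | h
      · obtain ⟨x, hx⟩ := exists_int_root hker (dA i) (hD i).1 h
        exact ⟨x, by rw [hx, zero_mul]⟩
      · obtain ⟨x, hx⟩ := exists_int_root hker (dB i) (hD i).1 h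
        exact ⟨x, by rw [hx, mul_zero]⟩
    refine ⟨x, x.2, ?_⟩
    rw [hev, hev]
    have h3 : (((A i).eval x : OO C) : C) * (((B i).eval x : OO C) : C) = 0 := by
      have := congrArg Subtype.val hx
      exact this
    rw [h3, norm_zero]
    exact one_pos

theorem reflect_mem {F : Subfield C} {G : (OO C)[X]} (hG : G ∈ PR (FO F)) (m : ℕ) :
    reflect m G ∈ PR (FO F) := by
  rw [mem_PR] at hG ⊢
  intro i
  rw [coeff_reflect]
  exact hG _

theorem natDegree_reflect {R : Type} [Semiring R] {G : R[X]} {m : ℕ} (h : G.natDegree ≤ m) :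
    (reflect m G).natDegree ≤ m := natDegree_reflect_le.trans (max_le le_rfl h)

end Pool.Agent.Y226.ZR
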