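import Mathlib

/-!
# Integers with a suitable prime factor
-/

set_option autoImplicit false

namespace Pool.Agent.Y226.ZR

open Finset MvPolynomial

open scoped Classical in
/-- almost all integers have a prime factor in an interval -/
theorem exists_primes (T : ℕ) (ε : ℝ) (hε : 0 < ε) : ∃ T' : ℕ, ∃ H₀ : ℕ, ∀ H : ℕ, H₀ ≤ H →
    (((Finset.Icc (-(H : ℤ)) H).filter (fun m => m = 0 ∨
      ∀ p : ℕ, p.Prime → T < p → p ≤ T' → ¬ (p : ℤ) ∣ m)).card : ℝ) ≤ ε * (2 * H + 1) := by
  set f : ℕ → ℝ := Set.indicator {p | p.Prime} (fun n : ℕ => (1 : ℝ) / n) with hf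
  have hf0 : ∀ n, 0 ≤ f n := fun n => Set.indicator_nonneg (fun _ _ => by positivity) n
  have hlim : Filter.Tendsto (fun n => ∑ i ∈ Finset.range n, f i) Filter.atTop Filter.atTop :=
    (not_summable_iff_tendsto_nat_atTop_of_nonneg hf0).1 not_summable_one_div_on_primes
  obtain ⟨M, hM⟩ := (Filter.tendsto_atTop.1 hlim
    ((∑ i ∈ Finset.range (T + 1), f i) + -Real.log (ε / 8))).exists_forall_of_atTop
  set T' := M + T with hT'
  refine ⟨T', ?_⟩
  set S : Finset ℕ := (Finset.Ioc T T').filter Nat.Prime with hS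
  have hSp : ∀ p ∈ S, p.Prime := fun p hp => (Finset.mem_filter.1 hp).2
  set P : ℕ := ∏ p ∈ S, p with hP
  have hP0 : P ≠ 0 := Finset.prod_ne_zero_iff.2 fun p hp => (hSp p hp).ne_zero
  have hsum : -Real.log (ε / 8) ≤ ∑ p ∈ S, (1 : ℝ) / p := by
    have h1 := hM (T' + 1) (by omega)
    have h2 : ∑ i ∈ Finset.range (T' + 1), f i =
        (∑ i ∈ Finset.range (T + 1), f i) + ∑ i ∈ Finset.Ico (T + 1) (T' + 1), f i :=
      (Finset.sum_range_add_sum_Ico f (by omega)).symm
    have h3 : ∑ i ∈ Finset.Ico (T + 1) (T' + 1), f i = ∑ p ∈ S, (1 : ℝ) / p := by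
      rw [hS, Finset.sum_filter]
      have e : Finset.Ico (T + 1) (T' + 1) = Finset.Ioc T T' := by
        ext x; simp only [Finset.mem_Ico, Finset.mem_Ioc]; omega
      rw [e]
      refine Finset.sum_congr rfl fun i _ => ?_
      rw [hf, Set.indicator_apply]
      rfl
    rw [h2, h3] at h1
    linarith
  have hφ : (Nat.totient P : ℝ) ≤ P * (ε / 8) := by
    have h1 := Nat.totient_eq_mul_prod_factors P
    have h2 : P.primeFactors = S := Nat.primeFactors_prod hSp
    rw [h2] at h1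
    have h3 : (Nat.totient P : ℝ) = P * ∏ p ∈ S, (1 - (p : ℝ)⁻¹) := by
      have := congrArg (fun x : ℚ => (x : ℝ)) h1
      push_cast at this
      exact this
    rw [h3]
    refine mul_le_mul_of_nonneg_left ?_ (Nat.cast_nonneg _)
    calc ∏ p ∈ S, (1 - (p : ℝ)⁻¹) ≤ ∏ p ∈ S, Real.exp (-((1 : ℝ) / p)) := by
          refine Finset.prod_le_prod (fun p hp => ?_) fun p hp => ?_
          · have h4 : (1 : ℝ) ≤ p := by exact_mod_cast (hSp p hp).one_lt.le
            have h5 : (p : ℝ)⁻¹ ≤ 1 := inv_le_one_of_one_le₀ h4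
            linarith
          · rw [one_div]
            exact Real.one_sub_le_exp_neg _
      _ = Real.exp (-∑ p ∈ S, (1 : ℝ) / p) := by
          rw [← Real.exp_sum, Finset.sum_neg_distrib]
      _ ≤ Real.exp (Real.log (ε / 8)) := Real.exp_le_exp.2 (by linarith)
      _ = ε / 8 := Real.exp_log (by positivity)
  obtain ⟨q, hq⟩ := exists_nat_ge (1 / ε)
  refine ⟨P + q, fun H hH => ?_⟩
  set A : Finset ℕ := (Finset.Ico 0 (0 + (H + 1))).filter (fun x => P.Coprime x) with hA
  have hsub : (Finset.Icc (-(H : ℤ)) H).filter (fun m => m = 0 ∨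
      ∀ p : ℕ, p.Prime → T < p → p ≤ T' → ¬ (p : ℤ) ∣ m) ⊆
      {0} ∪ (A.image (fun x : ℕ => (x : ℤ)) ∪ A.image (fun x : ℕ => -(x : ℤ))) := by
    intro m hm
    rw [Finset.mem_filter, Finset.mem_Icc] at hm
    obtain ⟨⟨h1, h2⟩, h3⟩ := hm
    rcases h3 with h3 | h3
    · rw [h3]; simp
    · have hmem : m.natAbs ∈ A := by
        rw [hA, Finset.mem_filter, Finset.mem_Ico]
        refine ⟨⟨Nat.zero_le _, by omega⟩, ?_⟩
        refine Nat.Coprime.prod_left fun p hp => ?_
        rw [(hSp p hp).coprime_iff_not_dvd]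
        intro h4
        have h5 := Finset.mem_Ioc.1 (Finset.mem_filter.1 hp).1
        exact h3 p (hSp p hp) h5.1 h5.2 (Int.natCast_dvd.2 h4)
      rw [Finset.mem_union, Finset.mem_union, Finset.mem_image, Finset.mem_image]
      right
      rcases Int.natAbs_eq m with h4 | h4
      · exact Or.inl ⟨_, hmem, h4.symm⟩
      · exact Or.inr ⟨_, hmem, h4.symm⟩
  have hcard : ((Finset.Icc (-(H : ℤ)) H).filter (fun m => m = 0 ∨
      ∀ p : ℕ, p.Prime → T < p → p ≤ T' → ¬ (p : ℤ) ∣ m)).card ≤ 1 + (A.card + A.card) := by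
    refine (Finset.card_le_card hsub).trans ((Finset.card_union_le _ _).trans ?_)
    refine Nat.add_le_add (by simp) ((Finset.card_union_le _ _).trans ?_)
    exact Nat.add_le_add Finset.card_image_le Finset.card_image_le
  have hAc : A.card ≤ Nat.totient P * ((H + 1) / P + 1) := Nat.Ico_filter_coprime_le 0 (H + 1) hP0
  have hPpos : (0 : ℝ) < P := by exact_mod_cast Nat.pos_of_ne_zero hP0
  have hAr : (A.card : ℝ) ≤ (ε / 8) * (H + 1 + P) := by
    calc (A.card : ℝ) ≤ (Nat.totient P : ℝ) * (((H + 1) / P : ℕ) + 1) := by exact_mod_cast hAc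
      _ ≤ (P * (ε / 8)) * ((H + 1) / P + 1) := by
          refine mul_le_mul hφ ?_ (by positivity) (by positivity)
          have : (((H + 1) / P : ℕ) : ℝ) ≤ ((H + 1 : ℕ) : ℝ) / P := Nat.cast_div_le
          push_cast at this
          linarith
      _ = (ε / 8) * (H + 1 + P) := by field_simp
  have hc : ((((Finset.Icc (-(H : ℤ)) H).filter (fun m => m = 0 ∨
      ∀ p : ℕ, p.Prime → T < p → p ≤ T' → ¬ (p : ℤ) ∣ m)).card : ℕ) : ℝ) ≤
      1 + (A.card + A.card) := by exact_mod_cast hcard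
  have hH' : (P : ℝ) + 1 / ε ≤ H := by
    have h1 : ((P + q : ℕ) : ℝ) ≤ H := by exact_mod_cast hH
    push_cast at h1
    linarith
  have h1 : 1 ≤ ε * (H - P) := by
    have h2 : 1 / ε ≤ H - P := by linarith
    rw [div_le_iff₀ hε] at h2
    linarith
  have h3 : 0 ≤ ε * H := by positivity
  have h4 : 0 ≤ ε * P := by positivity
  have h5 : (1 : ℝ) + (A.card + A.card) ≤ ε * (2 * H + 1) := by nlinarith
  exact hc.trans h5

/-- the degree of a polynomial does not grow under a map of the coefficients -/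
theorem totalDegree_map_le' {I : Type} {R S : Type*} [CommSemiring R] [CommSemiring S]
    (f : R →+* S) (P : MvPolynomial I R) : (P.map f).totalDegree ≤ P.totalDegree := by
  unfold totalDegree
  exact Finset.sup_mono (support_map_subset _ _)

/-- the number of zeros in a finite field -/
theorem sz_fin {p : ℕ} [hp : Fact p.Prime] {N : ℕ} (R' : MvPolynomial (Fin N) (ZMod p))
    (hR' : R' ≠ 0) :
    ((Finset.univ : Finset (Fin N → ZMod p)).filter (fun f => eval f R' = 0)).card * p ≤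
      R'.totalDegree * p ^ N := by
  have hsz := schwartz_zippel_totalDegree hR' (Finset.univ : Finset (ZMod p))
  have hcardS : (Finset.univ : Finset (ZMod p)).card = p := by
    rw [Finset.card_univ, ZMod.card]
  rw [hcardS, Fintype.piFinset_univ] at hsz
  have hppos : 0 < p := hp.out.pos
  have hpq : (0 : ℚ≥0) < p := by exact_mod_cast hppos
  rw [div_le_div_iff₀ (pow_pos hpq _) hpq] at hsz
  exact_mod_cast hsz

/-- the number of zeros in a finite field, integral coefficients -/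
theorem sz_mod {I : Type} [Fintype I] [DecidableEq I] (R : MvPolynomial I ℤ) (p : ℕ)
    [hp : Fact p.Prime] (hR : R.map (Int.castRingHom (ZMod p)) ≠ 0) :
    ((Finset.univ : Finset (Fin (Fintype.card I) → ZMod p)).filter (fun f =>
      eval f (rename (Fintype.equivFin I) (R.map (Int.castRingHom (ZMod p)))) = 0)).card * p ≤
      R.totalDegree * p ^ Fintype.card I := by
  have hR'0 : rename (Fintype.equivFin I) (R.map (Int.castRingHom (ZMod p))) ≠ 0 := by
    intro h
    apply hR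
    apply rename_injective (Fintype.equivFin I) (Fintype.equivFin I).injective
    rw [h, map_zero]
  exact (sz_fin _ hR'0).trans (Nat.mul_le_mul_right _
    ((totalDegree_rename_le _ _).trans (totalDegree_map_le' _ _)))

/-- integers in a residue class -/
theorem res_count (p : ℕ) [hp : Fact p.Prime] (H : ℕ) (a : ZMod p) :
    ((Finset.Icc (-(H : ℤ)) H).filter (fun x : ℤ => ((x : ℤ) : ZMod p) = a)).card ≤
      2 * H / p + 1 := by
  have hppos : 0 < p := hp.out.pos
  have h1 : ((Finset.Icc (-(H : ℤ)) H).filter (fun x : ℤ => ((x : ℤ) : ZMod p) = a)).card ≤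
      (Finset.range (2 * H / p + 1)).card := by
    refine Finset.card_le_card_of_injOn (fun x => ((x + H) / p).toNat) ?_ ?_
    · intro x hx
      rw [Finset.mem_coe, Finset.mem_filter, Finset.mem_Icc] at hx
      rw [Finset.mem_coe, Finset.mem_range, Nat.lt_succ_iff]
      have h2 : (x + H) / (p : ℤ) ≤ (2 * H) / p :=
        Int.ediv_le_ediv (by exact_mod_cast hppos) (by linarith [hx.1.2])
      have h3 : ((2 * H / p : ℕ) : ℤ) = (2 * H) / p := by push_cast; rfl
      have h4 : 0 ≤ (x + H) / (p : ℤ) := Int.ediv_nonneg (by linarith [hx.1.1]) (by positivity)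
      show ((x + H) / (p : ℤ)).toNat ≤ 2 * H / p
      generalize (x + H) / (p : ℤ) = y at *
      generalize 2 * H / p = z at *
      rw [← h3] at h2
      exact Int.toNat_le.2 h2
    · intro x hx y hy hxy
      rw [Finset.mem_coe, Finset.mem_filter, Finset.mem_Icc] at hx hy
      have h4 : 0 ≤ (x + H) / (p : ℤ) := Int.ediv_nonneg (by linarith [hx.1.1]) (by positivity)
      have h5 : 0 ≤ (y + H) / (p : ℤ) := Int.ediv_nonneg (by linarith [hy.1.1]) (by positivity)
      have h6 : (x + H) / (p : ℤ) = (y + H) / (p : ℤ) := by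
        have h7 : ((x + H) / (p : ℤ)).toNat = ((y + H) / (p : ℤ)).toNat := hxy
        rw [← Int.toNat_of_nonneg h4, ← Int.toNat_of_nonneg h5, h7]
      have h7 : ((x : ℤ) : ZMod p) = ((y : ℤ) : ZMod p) := hx.2.trans hy.2.symm
      have h8 : (x + H) % (p : ℤ) = (y + H) % (p : ℤ) := by
        have h9 : x ≡ y [ZMOD p] := (ZMod.intCast_eq_intCast_iff _ _ _).1 h7
        exact h9.add_right _
      have h9 := Int.emod_add_mul_ediv (x + H) p
      have h10 := Int.emod_add_mul_ediv (y + H) p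
      rw [h6, h8] at h9
      linarith
  rwa [Finset.card_range] at h1

/-- the number of zeros modulo a prime number in a box -/
theorem sz_box {I : Type} [Fintype I] [DecidableEq I] (R : MvPolynomial I ℤ) (p : ℕ)
    [hp : Fact p.Prime] (hR : R.map (Int.castRingHom (ZMod p)) ≠ 0) (H : ℕ) :
    ((Fintype.piFinset fun _ : I => Finset.Icc (-(H : ℤ)) H).filter
      (fun c => (p : ℤ) ∣ eval c R)).card * p ≤
      R.totalDegree * (2 * H + 1 + p) ^ Fintype.card I := by
  have hZ := sz_mod R p hR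
  have hmaps : ∀ c ∈ (Fintype.piFinset fun _ : I => Finset.Icc (-(H : ℤ)) H).filter
      (fun c => (p : ℤ) ∣ eval c R),
      (fun (c : I → ℤ) (j : Fin (Fintype.card I)) =>
        ((c ((Fintype.equivFin I).symm j) : ℤ) : ZMod p)) c ∈
      (Finset.univ : Finset (Fin (Fintype.card I) → ZMod p)).filter (fun f =>
      eval f (rename (Fintype.equivFin I) (R.map (Int.castRingHom (ZMod p)))) = 0) := by
    intro c hc
    rw [Finset.mem_filter]
    refine ⟨Finset.mem_univ _, ?_⟩
    rw [eval_rename]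
    have h1 : ((fun (c : I → ℤ) (j : Fin (Fintype.card I)) =>
        ((c ((Fintype.equivFin I).symm j) : ℤ) : ZMod p)) c ∘ (Fintype.equivFin I)) =
        fun i => ((c i : ℤ) : ZMod p) := by
      funext i
      show ((c ((Fintype.equivFin I).symm ((Fintype.equivFin I) i)) : ℤ) : ZMod p) = _
      rw [Equiv.symm_apply_apply]
    rw [h1, eval_map]
    have h2 : eval₂ (Int.castRingHom (ZMod p)) (fun i => ((c i : ℤ) : ZMod p)) R =
        Int.castRingHom (ZMod p) (eval c R) := by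
      rw [eval₂_comp]
      rfl
    rw [h2]
    exact (ZMod.intCast_zmod_eq_zero_iff_dvd _ _).2 (Finset.mem_filter.1 hc).2
  generalize (Finset.univ : Finset (Fin (Fintype.card I) → ZMod p)).filter (fun f =>
      eval f (rename (Fintype.equivFin I) (R.map (Int.castRingHom (ZMod p)))) = 0) = Zs at hZ hmaps
  have hfib : ∀ z ∈ Zs, (((Fintype.piFinset fun _ : I => Finset.Icc (-(H : ℤ)) H).filter
      (fun c => (p : ℤ) ∣ eval c R)).filter (fun c =>
        (fun (c : I → ℤ) (j : Fin (Fintype.card I)) =>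
        ((c ((Fintype.equivFin I).symm j) : ℤ) : ZMod p)) c = z)).card ≤
        (2 * H / p + 1) ^ Fintype.card I := by
    intro z _
    have hsub : ((Fintype.piFinset fun _ : I => Finset.Icc (-(H : ℤ)) H).filter
      (fun c => (p : ℤ) ∣ eval c R)).filter (fun c => (fun (c : I → ℤ) (j : Fin (Fintype.card I)) =>
        ((c ((Fintype.equivFin I).symm j) : ℤ) : ZMod p)) c = z) ⊆
      Fintype.piFinset (fun i : I => (Finset.Icc (-(H : ℤ)) H).filter
        (fun x : ℤ => ((x : ℤ) : ZMod p) = z (Fintype.equivFin I i))) := by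
      intro c hc
      rw [Finset.mem_filter, Finset.mem_filter, Fintype.mem_piFinset] at hc
      rw [Fintype.mem_piFinset]
      intro i
      rw [Finset.mem_filter]
      refine ⟨hc.1.1 i, ?_⟩
      rw [← hc.2]
      show _ = ((c ((Fintype.equivFin I).symm ((Fintype.equivFin I) i)) : ℤ) : ZMod p)
      rw [Equiv.symm_apply_apply]
    refine (Finset.card_le_card hsub).trans ?_
    rw [Fintype.card_piFinset]
    refine (Finset.prod_le_prod' fun i _ => res_count p H (z (Fintype.equivFin I i))).trans ?_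
    rw [Finset.prod_const, Finset.card_univ]
  have h1 := Finset.card_le_mul_card_image_of_maps_to hmaps _ hfib
  have h3 : (2 * H / p + 1) * p ≤ 2 * H + 1 + p := by
    have := Nat.div_mul_le_self (2 * H) p
    rw [add_mul, one_mul]
    generalize 2 * H / p * p = y at *
    omega
  calc _ ≤ (2 * H / p + 1) ^ Fintype.card I * Zs.card * p := Nat.mul_le_mul_right _ h1
    _ = (2 * H / p + 1) ^ Fintype.card I * (Zs.card * p) := by ring
    _ ≤ (2 * H / p + 1) ^ Fintype.card I * (R.totalDegree * p ^ Fintype.card I) :=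
        Nat.mul_le_mul_left _ hZ
    _ = R.totalDegree * ((2 * H / p + 1) * p) ^ Fintype.card I := by rw [mul_pow]; ring
    _ ≤ R.totalDegree * (2 * H + 1 + p) ^ Fintype.card I :=
        Nat.mul_le_mul_left _ (Nat.pow_le_pow_left h3 _)

/-- the density theorem -/
theorem density {I : Type} [Fintype I] [DecidableEq I] (R : MvPolynomial I ℤ) (hR : R ≠ 0)
    (T₀ : ℕ) (ε : ℝ) (hε : 0 < ε) : ∃ T' H₀ : ℕ, ∀ H : ℕ, H₀ ≤ H →
      (1 - ε) * (2 * H + 1) ^ (1 + Fintype.card I) ≤
        ({q : ℤ × (I → ℤ) | |q.1| ≤ H ∧ (∀ i, |q.2 i| ≤ H) ∧ q.1 ≠ 0 ∧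
          ∃ p : ℕ, p.Prime ∧ T₀ < p ∧ p ≤ T' ∧ (p : ℤ) ∣ q.1 ∧ ¬ (p : ℤ) ∣ eval q.2 R}.ncard : ℝ) := by
  classical
  obtain ⟨s, hs⟩ := ne_zero_iff.1 hR
  set a := coeff s R with ha
  set δ := R.totalDegree with hδ
  obtain ⟨T₁, hT₁⟩ := exists_nat_ge (4 * δ / ε)
  set T := T₀ + a.natAbs + T₁ + 1 with hT
  obtain ⟨T', H₁, hH₁⟩ := exists_primes T (ε / 2) (by positivity)
  set N := Fintype.card I with hN
  refine ⟨T', H₁ + N * T', fun H hH => ?_⟩
  have hH1 := hH₁ H (by omega)
  set B1 := Finset.Icc (-(H : ℤ)) H with hB1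
  set B2 := Fintype.piFinset fun _ : I => Finset.Icc (-(H : ℤ)) H with hB2
  have hB1c : (B1.card : ℝ) = 2 * H + 1 := by
    have h1 : B1.card = 2 * H + 1 := by
      rw [hB1, Int.card_Icc]
      omega
    rw [h1]
    push_cast
    ring
  have hB2c : (B2.card : ℝ) = (2 * H + 1) ^ N := by
    rw [hB2, Fintype.card_piFinset, Finset.prod_const, Finset.card_univ]
    push_cast
    rw [hB1c]
  -- the prime number
  have hpr : ∀ m : ℤ, ∃ p : ℕ, ¬ (m = 0 ∨ ∀ p : ℕ, p.Prime → T < p → p ≤ T' → ¬ (p : ℤ) ∣ m) →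
      p.Prime ∧ T < p ∧ p ≤ T' ∧ (p : ℤ) ∣ m := by
    intro m
    by_cases h : m = 0 ∨ ∀ p : ℕ, p.Prime → T < p → p ≤ T' → ¬ (p : ℤ) ∣ m
    · exact ⟨0, fun h' => absurd h h'⟩
    · push Not at h
      obtain ⟨p, h1, h2, h3, h4⟩ := h.2
      exact ⟨p, fun _ => ⟨h1, h2, h3, h4⟩⟩
  choose pr hpr using hpr
  set Sgood : Set (ℤ × (I → ℤ)) := {q | |q.1| ≤ H ∧ (∀ i, |q.2 i| ≤ H) ∧ q.1 ≠ 0 ∧
          ∃ p : ℕ, p.Prime ∧ T₀ < p ∧ p ≤ T' ∧ (p : ℤ) ∣ q.1 ∧ ¬ (p : ℤ) ∣ eval q.2 R} with hSg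
  set bad : Finset ℤ := B1.filter (fun m => m = 0 ∨
      ∀ p : ℕ, p.Prime → T < p → p ≤ T' → ¬ (p : ℤ) ∣ m) with hbad
  set ok : Finset ℤ := B1.filter (fun m => ¬ (m = 0 ∨
      ∀ p : ℕ, p.Prime → T < p → p ≤ T' → ¬ (p : ℤ) ∣ m)) with hok
  set Bad2 : Finset (ℤ × (I → ℤ)) :=
    (ok ×ˢ B2).filter (fun q => (pr q.1 : ℤ) ∣ eval q.2 R) with hBad2
  have hmem1 : ∀ m : ℤ, m ∈ B1 ↔ |m| ≤ H := fun m => by
    rw [hB1, Finset.mem_Icc, abs_le]
  have hmem2 : ∀ c : I → ℤ, c ∈ B2 ↔ ∀ i, |c i| ≤ H := fun c => by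
    rw [hB2, Fintype.mem_piFinset]
    exact forall_congr' fun i => hmem1 (c i)
  have hSfin : Sgood.Finite := by
    refine (Finset.finite_toSet (B1 ×ˢ B2)).subset ?_
    rintro q ⟨h1, h2, -⟩
    rw [Finset.mem_coe, Finset.mem_product]
    exact ⟨(hmem1 _).2 h1, (hmem2 _).2 h2⟩
  have hcover : B1 ×ˢ B2 ⊆ hSfin.toFinset ∪ (bad ×ˢ B2 ∪ Bad2) := by
    intro q hq
    rw [Finset.mem_product] at hq
    rw [Finset.mem_union, Finset.mem_union, Set.Finite.mem_toFinset, Finset.mem_product]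
    by_cases h1 : q.1 ∈ bad
    · exact Or.inr (Or.inl ⟨h1, hq.2⟩)
    · have h2 : ¬ (q.1 = 0 ∨ ∀ p : ℕ, p.Prime → T < p → p ≤ T' → ¬ (p : ℤ) ∣ q.1) := fun h =>
        h1 (Finset.mem_filter.2 ⟨hq.1, h⟩)
      by_cases h3 : (pr q.1 : ℤ) ∣ eval q.2 R
      · refine Or.inr (Or.inr (Finset.mem_filter.2 ⟨Finset.mem_product.2 ⟨?_, hq.2⟩, h3⟩))
        exact Finset.mem_filter.2 ⟨hq.1, h2⟩
      · left
        obtain ⟨h4, h5, h6, h7⟩ := hpr q.1 h2
        refine ⟨(hmem1 _).1 hq.1, (hmem2 _).1 hq.2, fun h0 => h2 (Or.inl h0), pr q.1, h4,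
          by omega, h6, h7, h3⟩
  have hcount : (B1.card * B2.card : ℝ) ≤ Sgood.ncard + (bad.card * B2.card + Bad2.card) := by
    have h1 := (Finset.card_le_card hcover).trans ((Finset.card_union_le _ _).trans
      (Nat.add_le_add_left (Finset.card_union_le _ _) _))
    rw [Finset.card_product, Finset.card_product] at h1
    rw [Set.ncard_eq_toFinset_card _ hSfin]
    exact_mod_cast h1
  -- the second set
  have hpow : ((2 * H + 1 + T' : ℕ) : ℝ) ^ N ≤ 2 * (2 * H + 1) ^ N := by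
    by_cases hN0 : N = 0
    · rw [hN0]; norm_num
    have hx : (0 : ℝ) < 2 * H + 1 := by positivity
    have h1 : ((2 * H + 1 + T' : ℕ) : ℝ) = (2 * H + 1) * (T' / (2 * H + 1) + 1) := by
      push_cast
      field_simp
      ring
    rw [h1, mul_pow, mul_comm]
    refine mul_le_mul_of_nonneg_right ?_ (by positivity)
    have h2 : (T' : ℝ) / (2 * H + 1) + 1 ≤ Real.exp (T' / (2 * H + 1)) := Real.add_one_le_exp _
    have h3 : ((T' : ℝ) / (2 * H + 1) + 1) ^ N ≤ Real.exp (N * (T' / (2 * H + 1))) := by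
      rw [Real.exp_nat_mul]
      exact pow_le_pow_left₀ (by positivity) h2 N
    have h4 : (N : ℝ) * (T' / (2 * H + 1)) ≤ 1 / 2 := by
      rw [← mul_div_assoc, div_le_div_iff₀ hx two_pos]
      have h5 : ((N * T' : ℕ) : ℝ) ≤ H := by exact_mod_cast (by omega : N * T' ≤ H)
      push_cast at h5
      linarith
    refine h3.trans ((Real.exp_le_exp.2 h4).trans ?_)
    have h6 : Real.exp (1 / 2) ≤ 2 := by
      have h7 : Real.exp (1 / 2) ^ 2 = Real.exp 1 := by
        rw [← Real.exp_nat_mul]; norm_num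
      have h8 := Real.exp_one_lt_three
      have h9 := Real.exp_pos (1 / 2)
      nlinarith
    exact h6
  have hBad2c : (Bad2.card : ℝ) ≤ (2 * H + 1) * ((ε / 2) * (2 * H + 1) ^ N) := by
    have h1 : Bad2.card = ∑ m ∈ ok, (B2.filter (fun c => (pr m : ℤ) ∣ eval c R)).card := by
      rw [hBad2, Finset.card_filter, Finset.sum_product]
      refine Finset.sum_congr rfl fun m _ => ?_
      rw [Finset.card_filter]
    have h2 : ∀ m ∈ ok, ((B2.filter (fun c => (pr m : ℤ) ∣ eval c R)).card : ℝ) ≤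
        (ε / 2) * (2 * H + 1) ^ N := by
      intro m hm
      obtain ⟨h3, h4, h5, -⟩ := hpr m (Finset.mem_filter.1 hm).2
      haveI : Fact (pr m).Prime := ⟨h3⟩
      have h6 : R.map (Int.castRingHom (ZMod (pr m))) ≠ 0 := by
        rw [ne_zero_iff]
        refine ⟨s, ?_⟩
        rw [coeff_map]
        intro h7
        have h8 : (pr m : ℤ) ∣ a := (ZMod.intCast_zmod_eq_zero_iff_dvd _ _).1 h7
        have h9 : pr m ∣ a.natAbs := Int.natCast_dvd.1 h8
        have h10 := Nat.le_of_dvd (Int.natAbs_pos.2 hs) h9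
        omega
      have h7 := sz_box R (pr m) h6 H
      rw [← hB2, ← hδ, ← hN] at h7
      have h8 : ((B2.filter (fun c => (pr m : ℤ) ∣ eval c R)).card : ℝ) * pr m ≤
          δ * (2 * (2 * H + 1) ^ N) := by
        have h9 : ((B2.filter (fun c => (pr m : ℤ) ∣ eval c R)).card : ℝ) * pr m ≤
            δ * ((2 * H + 1 + pr m : ℕ) : ℝ) ^ N := by exact_mod_cast h7
        refine h9.trans (mul_le_mul_of_nonneg_left ?_ (Nat.cast_nonneg _))
        refine le_trans ?_ hpow
        refine pow_le_pow_left₀ (by positivity) ?_ N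
        exact_mod_cast (by omega : 2 * H + 1 + pr m ≤ 2 * H + 1 + T')
      have hprp : (0 : ℝ) < pr m := by exact_mod_cast h3.pos
      have h9 : (4 * δ / ε : ℝ) ≤ pr m := hT₁.trans (by exact_mod_cast (by omega : T₁ ≤ pr m))
      rw [div_le_iff₀ hε] at h9
      have h10 : (0 : ℝ) ≤ (2 * H + 1) ^ N := by positivity
      by_contra hcon
      push Not at hcon
      have h11 : (ε / 2) * (2 * H + 1) ^ N * pr m <
          ((B2.filter (fun c => (pr m : ℤ) ∣ eval c R)).card : ℝ) * pr m :=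
        mul_lt_mul_of_pos_right hcon hprp
      nlinarith
    rw [h1]
    push_cast
    refine (Finset.sum_le_card_nsmul _ _ _ h2).trans ?_
    rw [nsmul_eq_mul]
    refine mul_le_mul_of_nonneg_right ?_ (by positivity)
    rw [← hB1c]
    exact_mod_cast Finset.card_filter_le _ _
  rw [hB1c, hB2c] at hcount
  have h2 : (bad.card : ℝ) * (2 * H + 1) ^ N ≤ (ε / 2 * (2 * H + 1)) * (2 * H + 1) ^ N :=
    mul_le_mul_of_nonneg_right hH1 (by positivity)
  have h3 : ((2 : ℝ) * H + 1) ^ (1 + N) = (2 * H + 1) * (2 * H + 1) ^ N := by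
    rw [pow_add, pow_one]
  rw [h3]
  linarith

end Pool.Agent.Y226.ZR
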