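import Pool.Agent.Y226.ZP.LocalMain

/-!
# Closed unramified subfields
-/

set_option autoImplicit false
set_option linter.unusedSectionVars false

open UpperHalfPlane H294ZP Polynomial

namespace Pool.Agent.Y226.ZR

open Pool.Agent.Y226

/-- subfields of `C` which are unramified, with residue field in the field of `p ^ f` elements -/
def Un {C : Type} [NormedField C] (p : ℕ) (F : Subfield C) (f : ℕ) : Prop :=
  ∀ c ∈ F, ‖c‖ ≤ 1 → ‖c ^ p ^ f - c‖ ≤ ‖(p : C)‖

variable {C : Type} [NormedField C] [IsUltrametricDist C] {p : ℕ} [hpf : Fact p.Prime]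

theorem Un_closure (hp0 : 0 < ‖(p : C)‖) (hp1 : ‖(p : C)‖ < 1) {F : Subfield C} {f : ℕ}
    (hF : Un p F f) : Un p F.topologicalClosure f := by
  intro c hc hc1
  obtain ⟨c', hc', hlt⟩ := Metric.mem_closure_iff.1 (show c ∈ closure (F : Set C) from hc) _ hp0
  rw [dist_eq_norm] at hlt
  have hc'1 : ‖c'‖ ≤ 1 := by
    have : c' = c - (c - c') := by ring
    rw [this]
    exact nsub_le hc1 (hlt.le.trans hp1.le)
  have e : c ^ p ^ f - c = (c ^ p ^ f - c' ^ p ^ f) + (c' ^ p ^ f - c') - (c - c') := by ring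
  rw [e]
  exact nsub_le (nadd_le (npow_sub_pow hc1 hc'1 hlt.le _) (hF c' hc' hc'1)) hlt.le

/-- the iteration of the Frobenius -/
theorem frob_conv {x y : C} (hx : ‖x‖ ≤ 1) (hy : ‖y‖ ≤ 1) (h : ‖x - y‖ ≤ ‖(p : C)‖)
    (hp1 : ‖(p : C)‖ < 1) (m : ℕ) : ‖x ^ p ^ m - y ^ p ^ m‖ ≤ ‖(p : C)‖ ^ (m + 1) := by
  induction m with
  | zero => simpa using h
  | succ m ih =>
    rw [pow_succ p m, pow_mul, pow_mul]
    set X := x ^ p ^ m with hX
    set Y := y ^ p ^ m with hY
    have hX1 : ‖X‖ ≤ 1 := npow_le hx _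
    have hY1 : ‖Y‖ ≤ 1 := npow_le hy _
    have hd : ‖X - Y‖ ≤ ‖(p : C)‖ := ih.trans (pow_le_of_le_one (norm_nonneg _) hp1.le (by omega))
    obtain ⟨r, hr⟩ : ∃ r : C, ‖r‖ ≤ 1 ∧ (Y + (X - Y)) ^ p = Y ^ p + (X - Y) ^ p + p * (Y * (X - Y) * r) := by
      obtain ⟨r, hr⟩ := exists_add_pow_prime_eq hpf.out (⟨Y, hY1⟩ : OO C)
        (⟨X - Y, hd.trans hp1.le⟩ : OO C)
      refine ⟨(r : C), r.2, ?_⟩
      have h2 := congrArg Subtype.val hr
      simp only [Subring.coe_pow, Subring.coe_add, Subring.coe_mul] at h2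
      have h3 : ((p : OO C) : C) = (p : C) := by simp
      rw [h3] at h2
      rw [h2]
      ring
    obtain ⟨hr1, hr2⟩ := hr
    rw [add_sub_cancel] at hr2
    rw [hr2]
    have e : Y ^ p + (X - Y) ^ p + p * (Y * (X - Y) * r) - Y ^ p =
        (X - Y) ^ p + p * (Y * (X - Y) * r) := by ring
    rw [e]
    have hpp : ‖(X - Y) ^ p‖ ≤ ‖(p : C)‖ ^ (m + 1 + 1) := by
      obtain ⟨q, hq⟩ : ∃ q, p = q + 2 := ⟨p - 2, by have := hpf.out.two_le; omega⟩
      rw [norm_pow]
      calc ‖X - Y‖ ^ p = ‖X - Y‖ ^ q * (‖X - Y‖ * ‖X - Y‖) := by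
            conv_lhs => rw [hq]
            ring
        _ ≤ 1 * (‖(p : C)‖ ^ (m + 1) * ‖(p : C)‖) := by
            gcongr
            exact pow_le_one₀ (norm_nonneg _) (hd.trans hp1.le)
        _ = ‖(p : C)‖ ^ (m + 1 + 1) := by ring
    refine nadd_le hpp ?_
    rw [norm_mul, pow_succ' ‖(p : C)‖]
    refine mul_le_mul_of_nonneg_left ?_ (norm_nonneg _)
    exact nmul_le' (nmul_le hY1 ih) hr1

/-- the Teichmüller representative is in the field -/
theorem teich_mem [IsAlgClosed C] (hp0 : 0 < ‖(p : C)‖) (hp1 : ‖(p : C)‖ < 1) {F : Subfield C}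
    (hFc : IsClosed (F : Set C)) {f : ℕ} (hf : 0 < f) (hF : Un p F f) {c : C} (hc : c ∈ F)
    (hc1 : ‖c‖ ≤ 1) : ∃ τ ∈ F, τ ^ p ^ f = τ ∧ ‖c - τ‖ ≤ ‖(p : C)‖ := by
  have h1 := hF c hc hc1
  obtain ⟨τ, hτ, hlt⟩ := exists_fixed hf (h1.trans_lt hp1)
  have hcN : c ∈ Nr C p := ⟨hc1, f, hf, h1⟩
  have hτN := Nr_of_fixed hf hτ
  have hgap : ‖c - τ‖ ≤ ‖(p : C)‖ := Nr_gap (sub_mem hcN hτN) hlt
  refine ⟨τ, ?_, hτ, hgap⟩
  have hτm : ∀ m, τ ^ p ^ (f * m) = τ := by
    intro m
    induction m with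
    | zero => simp
    | succ m ih => rw [mul_add, mul_one, pow_add, pow_mul, ih, hτ]
  have hlim : Filter.Tendsto (fun m : ℕ => c ^ p ^ (f * m)) Filter.atTop (nhds τ) := by
    rw [tendsto_iff_norm_sub_tendsto_zero]
    have h2 : Filter.Tendsto (fun m : ℕ => ‖(p : C)‖ ^ m) Filter.atTop (nhds 0) :=
      tendsto_pow_atTop_nhds_zero_of_lt_one (norm_nonneg _) hp1
    refine squeeze_zero (fun _ => norm_nonneg _) (fun m => ?_) h2
    have h3 := frob_conv hc1 (Nr_le hτN) hgap hp1 (f * m)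
    rw [hτm] at h3
    refine h3.trans ?_
    refine pow_le_pow_of_le_one (norm_nonneg _) hp1.le ?_
    have : 1 * m ≤ f * m := Nat.mul_le_mul_right m hf
    omega
  exact hFc.mem_of_tendsto hlim (Filter.Eventually.of_forall fun m => pow_mem hc _)

/-- the elements of the residue field fixed by the Frobenius -/
noncomputable def FK (k : Type) [Field k] (p : ℕ) [Fact p.Prime] [CharP k p] (f : ℕ) : Subring k :=
  (iterateFrobenius k p f).eqLocus (RingHom.id k)

theorem mem_FK {k : Type} [Field k] [CharP k p] {f : ℕ} {z : k} :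
    z ∈ FK k p f ↔ z ^ p ^ f = z := by
  unfold FK
  rw [RingHom.mem_eqLocus, iterateFrobenius_def]
  rfl

theorem red_FK {k : Type} [Field k] [CharP k p] {red : OO C →+* k}
    (hker : ∀ x : OO C, red x = 0 ↔ ‖(x : C)‖ < 1) (hp1 : ‖(p : C)‖ < 1) {F : Subfield C} {f : ℕ}
    (hF : Un p F f) {x : OO C} (hx : (x : C) ∈ F) : red x ∈ FK k p f := by
  rw [mem_FK, ← map_pow]
  apply PData.red_eq red hker
  show ‖(x : C) ^ p ^ f - (x : C)‖ < 1
  exact (hF _ hx x.2).trans_lt hp1

/-- polynomials with coefficients in a subring -/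
noncomputable def PR {R : Type} [CommRing R] (S : Subring R) : Subring R[X] :=
  (mapRingHom S.subtype).range

theorem mem_PR {R : Type} [CommRing R] {S : Subring R} {f : R[X]} :
    f ∈ PR S ↔ ∀ n, f.coeff n ∈ S := by
  unfold PR
  rw [Polynomial.mem_map_range]
  simp

theorem C_mem_PR {R : Type} [CommRing R] {S : Subring R} {a : R} (h : a ∈ S) :
    Polynomial.C a ∈ PR S := by
  rw [mem_PR]
  intro n
  rw [coeff_C]
  split_ifs
  · exact h
  · exact zero_mem _

theorem derivative_mem_PR {R : Type} [CommRing R] {S : Subring R} {f : R[X]} (h : f ∈ PR S) :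
    derivative f ∈ PR S := by
  rw [mem_PR] at h ⊢
  intro n
  rw [coeff_derivative]
  have := mul_mem (h (n + 1)) (natCast_mem S (n + 1))
  push_cast at this
  exact this

/-- the roots of the polynomials of bounded degree over a finite field -/
theorem root_fixed {k : Type} [Field k] [CharP k p] {f : ℕ} (hf : 0 < f) {P : k[X]} (hP0 : P ≠ 0)
    (hP : P ∈ PR (FK k p f)) {D : ℕ} (hD : P.natDegree ≤ D) {x : k} (hx : P.eval x = 0) :
    x ^ p ^ (f * D.factorial) = x := by
  classical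
  have hroot : ∀ m : ℕ, P.eval (x ^ p ^ (f * m)) = 0 := by
    intro m
    induction m with
    | zero => simpa using hx
    | succ m ih =>
      rw [mul_add, mul_one, pow_add, pow_mul]
      set y := x ^ p ^ (f * m) with hy
      have h1 : (iterateFrobenius k p f) (P.eval y) = 0 := by rw [ih, map_zero]
      rw [Polynomial.eval_eq_sum_range, map_sum] at h1
      rw [Polynomial.eval_eq_sum_range, ← h1]
      refine Finset.sum_congr rfl fun i _ => ?_
      rw [map_mul, map_pow, iterateFrobenius_def, iterateFrobenius_def, mem_FK.1 (mem_PR.1 hP i)]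
  -- two of the first `D + 1` iterates are equal
  have hmaps : ∀ m ∈ Finset.range (D + 1), x ^ p ^ (f * m) ∈ P.roots.toFinset := by
    intro m _
    rw [Multiset.mem_toFinset, mem_roots hP0]
    exact hroot m
  have hcard : P.roots.toFinset.card < (Finset.range (D + 1)).card := by
    rw [Finset.card_range]
    have := (Multiset.toFinset_card_le P.roots).trans (P.card_roots')
    omega
  obtain ⟨a, ha, b, hb, hab, he⟩ := Finset.exists_ne_map_eq_of_card_lt_of_maps_to hcard hmaps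
  have key : ∀ a b : ℕ, a < b → b ≤ D → x ^ p ^ (f * a) = x ^ p ^ (f * b) →
      x ^ p ^ (f * D.factorial) = x := by
    intro a b hab hbD he
    obtain ⟨δ, hδ, rfl⟩ : ∃ δ, 0 < δ ∧ b = a + δ := ⟨b - a, by omega, by omega⟩
    have h1 : x = x ^ p ^ (f * δ) := by
      apply iterateFrobenius_inj k p (f * a)
      rw [iterateFrobenius_def, iterateFrobenius_def, he, mul_add, pow_add, pow_mul, ← pow_mul,
        mul_comm (p ^ (f * a)), pow_mul]
    obtain ⟨c, hc⟩ : δ ∣ D.factorial := Nat.dvd_factorial hδ (by omega)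
    rw [hc, ← mul_assoc]
    have h2 : ∀ c, x ^ p ^ (f * δ * c) = x := by
      intro c
      induction c with
      | zero => simp
      | succ c ih => rw [mul_add, mul_one, pow_add, pow_mul, ih, ← h1]
    exact h2 c
  rcases lt_or_gt_of_ne hab with h | h
  · exact key a b h (by have := Finset.mem_range.1 hb; omega) he
  · exact key b a h (by have := Finset.mem_range.1 ha; omega) he.symm

end Pool.Agent.Y226.ZR
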