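import Pool.Agent.Y226.ZR.Main

/-!
# Rational curves over fields with an unramified embedding
-/

set_option autoImplicit false
set_option linter.unusedSectionVars false

open UpperHalfPlane H294ZP Polynomial

namespace Pool.Agent.Y226.ZR

open Pool.Agent.Y226 Pool.Agent.Y226.ZM Pool.Agent.Y226.ZU Pool.Agent.Y226.ZG

/-- the value of the form of degree `D` -/
noncomputable def form {K : Type} [Field K] (σ : K →+* ℂ) (D : ℕ) (P : K[X]) (s t : ℂ) : ℂ :=
  ∑ m ∈ Finset.range (D + 1), σ (P.coeff m) * s ^ m * t ^ (D - m)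

/-- the curve -/
def crvK {K : Type} [Field K] (σ : K →+* ℂ) {n : ℕ} (D : Fin n → ℕ) (lam : Fin n → K)
    (a b : Fin n → K[X]) : Set (Fin n → ℂ) :=
  {x | ∃ s t : ℂ, (s ≠ 0 ∨ t ≠ 0) ∧ ∀ i, form σ (D i) (b i) s t * x i =
    σ (lam i) * form σ (D i) (a i) s t}

theorem form_affine {K : Type} [Field K] (σ : K →+* ℂ) {D : ℕ} {P : K[X]} (hP : P.natDegree ≤ D)
    {s t : ℂ} (ht : t ≠ 0) : form σ D P s t = t ^ D * (P.map σ).eval (s / t) := by
  have hd : (P.map σ).natDegree < D + 1 := Nat.lt_succ_of_le (natDegree_map_le.trans hP)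
  unfold form
  rw [eval_eq_sum_range' hd, Finset.mul_sum]
  refine Finset.sum_congr rfl fun m hm => ?_
  have hm' := Nat.lt_succ_iff.1 (Finset.mem_range.1 hm)
  rw [coeff_map]
  have e : t ^ D = t ^ m * t ^ (D - m) := by rw [← pow_add, Nat.add_sub_cancel' hm']
  rw [e, div_pow]
  field_simp

theorem form_inf {K : Type} [Field K] (σ : K →+* ℂ) {D : ℕ} {P : K[X]} {s : ℂ} :
    form σ D P s 0 = s ^ D * σ (P.coeff D) := by
  unfold form
  rw [Finset.sum_range_succ, Finset.sum_eq_zero]
  · rw [Nat.sub_self, pow_zero]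
    ring
  · intro m hm
    have := Finset.mem_range.1 hm
    rw [zero_pow (by omega), mul_zero]

/-- the residue of the second coefficient of the modular function -/
theorem cj_fixed : ∃ D₁ : ℕ, 0 < D₁ ∧ ∀ (p : ℕ) [Fact p.Prime] (C : Type) [NormedField C]
    [IsUltrametricDist C] (k : Type) [Field k] [CharP k p] (red : OO C →+* k) (φ : QA →+* C)
    (cO : OO C), (cO : C) = φ (iA (cj 1)) → red cO ^ p ^ D₁ = red cO := by
  obtain ⟨h, hh, hroot⟩ := (cj 1).2
  refine ⟨h.natDegree.factorial, Nat.factorial_pos _, ?_⟩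
  intro p _ C _ _ k _ _ red φ cO hcO
  have h1 : eval₂ (Int.castRingHom (OO C)) cO h = 0 := by
    apply Subtype.ext
    have e1 : ((eval₂ (Int.castRingHom (OO C)) cO h : OO C) : C) =
        eval₂ (Int.castRingHom C) (cO : C) h := by
      have := hom_eval₂ h (Int.castRingHom (OO C)) (OO C).subtype cO
      rw [RingHom.ext_int ((OO C).subtype.comp (Int.castRingHom (OO C))) (Int.castRingHom C)] at this
      exact this
    rw [e1, hcO]
    have h2 : eval₂ (Int.castRingHom QA) (iA (cj 1)) h = 0 := by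
      apply rA.injective
      rw [hom_eval₂, map_zero, RingHom.ext_int (rA.comp (Int.castRingHom QA)) (algebraMap ℤ ℂ)]
      exact hroot
    have h3 := congrArg φ h2
    rw [hom_eval₂, map_zero, RingHom.ext_int (φ.comp (Int.castRingHom QA)) (Int.castRingHom C)] at h3
    exact h3
  have h2 : (h.map (Int.castRingHom k)).eval (red cO) = 0 := by
    have h3 := congrArg red h1
    rw [hom_eval₂, map_zero, RingHom.ext_int (red.comp (Int.castRingHom (OO C)))
      (Int.castRingHom k), eval₂_eq_eval_map] at h3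
    exact h3
  have h3 := root_fixed (p := p) (f := 1) one_pos (P := h.map (Int.castRingHom k))
    (hh.map _).ne_zero (by
      rw [mem_PR]
      intro i
      rw [coeff_map]
      exact intCast_mem _ _) (natDegree_map_le) h2
  rwa [one_mul] at h3

/-- integrality at `p` -/
theorem pInt {C : Type} [NormedField C] [IsUltrametricDist C] {p : ℕ} [hpf : Fact p.Prime]
    (hp1 : ‖(p : C)‖ < 1) (φ : QA →+* C) {γ : ℂ} {m : ℕ} (hm : ¬ p ∣ m)
    (h : IsIntegral ℤ ((m : ℂ) * γ)) : ∃ c : QA, rA c = γ ∧ ‖φ c‖ ≤ 1 := by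
  have hm0 : m ≠ 0 := by rintro rfl; exact hm (dvd_zero _)
  have hmC : (m : ℂ) ≠ 0 := by exact_mod_cast hm0
  have halg : IsAlgebraic ℚ γ := by
    have h1 : IsAlgebraic ℚ ((m : ℂ) * γ) := (h.tower_top (A := ℚ)).isAlgebraic
    have h2 : IsAlgebraic ℚ ((m : ℂ)⁻¹) := (isAlgebraic_nat m).inv
    have h3 := h2.mul h1
    rwa [inv_mul_cancel_left₀ hmC] at h3
  set c : QA := ⟨γ, mem_QA.2 halg⟩ with hc
  refine ⟨c, rfl, ?_⟩
  have h2 : ‖φ (m * c)‖ ≤ 1 := by
    apply norm_le_one_of_isIntegral φ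
    obtain ⟨P, hP, hPz⟩ := h
    refine ⟨P, hP, ?_⟩
    apply rA.injective
    have : rA (m * c) = (m : ℂ) * γ := by
      rw [map_mul, map_natCast]
      rfl
    rw [hom_eval₂, map_zero, this, int_hom (rA.comp _) (algebraMap ℤ ℂ)]
    exact hPz
  have h3 : ‖((m : ℤ) : C)‖ = 1 := int_unit hp1 (by exact_mod_cast hm)
  rw [map_mul, map_natCast, norm_mul] at h2
  have h4 : ((m : ℤ) : C) = (m : C) := by simp
  rw [← h4, h3, one_mul] at h2
  exact h2

/-- good position at the prime -/
structure GoodC {C : Type} [NormedField C] [IsUltrametricDist C] {K : Type} [Field K]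
    (ι : K →+* C) {n : ℕ} (D : Fin n → ℕ) (a b : Fin n → K[X]) : Prop where
  da : ∀ i, (a i).natDegree ≤ D i
  db : ∀ i, (b i).natDegree ≤ D i
  ia : ∀ i m, ‖ι ((a i).coeff m)‖ ≤ 1
  ib : ∀ i m, ‖ι ((b i).coeff m)‖ ≤ 1
  r1 : ∀ i, ‖ι (resultant (a i) (b i) (D i) (D i))‖ = 1
  r2 : ∀ i j, i ≠ j → ‖ι (resultant (a i * b i) (a j * b j) (D i + D i) (D j + D j))‖ = 1

variable {C : Type} [NormedField C] [IsUltrametricDist C] [CompleteSpace C] [CharZero C]
  [IsAlgClosed C]
variable {p : ℕ} [hpf : Fact p.Prime]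

theorem main_k {n d : ℕ} (hpD : 16 * (d + 1) ^ 4 < p) (hp0 : 0 < ‖(p : C)‖)
    (hp1 : ‖(p : C)‖ < 1) {f : ℕ} (hf : 0 < f) :
    ∃ G : ℕ, ∀ (K : Type) [Field K] (σ : K →+* ℂ) (σ' : K →+* QA) (ι : K →+* C) (φ : QA →+* C),
      (∀ x, rA (σ' x) = σ x) → (∀ x, φ (σ' x) = ι x) → Unr p ι.fieldRange f →
      ∀ (D : Fin n → ℕ) (a b : Fin n → K[X]), (∀ i, 0 < D i ∧ D i ≤ d) → GoodC ι D a b →
      ∀ Γ : Finset ℂ, (∀ γ ∈ Γ, ∃ m : ℕ, ¬ p ∣ m ∧ IsIntegral ℤ ((m : ℂ) * γ)) →
      ∀ (lam : Fin n → K) (e : ℕ), 0 < e → (∀ i, ‖ι (lam i)‖ = ‖(p : C)‖⁻¹ ^ e) →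
      (∀ x ∈ crvK σ D lam a b, ∀ (r : ℕ) (Z : SV (Γ : Set ℂ) n r), r + 2 ≤ n → x ∈ Z.locus →
        ∃ j l : Fin n, j ≠ l ∧ ∃ N : ℕ, 0 < N ∧ N ≤ G ∧ Isog N (x j) (x l)) ∧
      {x | x ∈ crvK σ D lam a b ∧
        ∃ (r : ℕ) (Z : SV (Γ : Set ℂ) n r), r + 2 ≤ n ∧ x ∈ Z.locus}.Finite ∧
      {x | x ∈ crvK σ D lam a b ∧
        ∃ (r : ℕ) (Z : SV (Γ : Set ℂ) n r), r + 2 ≤ n ∧ x ∈ Z.locus}.ncard ≤ G ∧
      ∀ (r : ℕ) (Z : SV (Γ : Set ℂ) n r), r < n → ¬ crvK σ D lam a b ⊆ Z.locus := by
  classical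
  obtain ⟨D₁, hD₁, hcj⟩ := cj_fixed
  obtain ⟨k, _, _, _, red, hker⟩ := exists_residue2 (C := C) (p := p) hp1
  have hff : 0 < f * D₁ := Nat.mul_pos hf hD₁
  obtain ⟨G, hG⟩ := main_c (n := n) (d := d) hpD hp0 hp1 red hker hff
  refine ⟨G, ?_⟩
  intro K _ σ σ' ι φ hσ hφ hU D a b hD hgood Γ hΓ lam e he hlam
  have hpC : (p : C) ≠ 0 := norm_pos_iff.1 hp0
  have hpK : (p : K) ≠ 0 := by
    intro h
    apply hpC
    have := congrArg ι h
    rwa [map_natCast, map_zero] at this
  have hpQ : (p : QA) ≠ 0 := by exact_mod_cast hpf.out.ne_zero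
  -- the field
  have hU' : Un p ι.fieldRange (f * D₁) := fun c hc hc1 =>
    frob_iter p hc1 (hU c hc hc1) D₁
  set F := ι.fieldRange.topologicalClosure with hF
  have hFc : IsClosed (F : Set C) := Subfield.isClosed_topologicalClosure _
  have hFU : Un p F (f * D₁) := Un_closure hp0 hp1 hU'
  have hιF : ∀ x, ι x ∈ F := fun x => Subfield.le_topologicalClosure _ ⟨x, rfl⟩
  -- the scaled polynomials
  set u : Fin n → K := fun i => lam i * (p : K) ^ e with hu
  have hu1 : ∀ i, ‖ι (u i)‖ = 1 := by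
    intro i
    rw [hu]
    simp only
    rw [map_mul, map_pow, map_natCast, norm_mul, hlam, norm_pow, inv_pow]
    exact inv_mul_cancel₀ (pow_pos hp0 _).ne'
  have hu0 : ∀ i, u i ≠ 0 := by
    intro i h0
    have := hu1 i
    rw [h0, map_zero, norm_zero] at this
    exact zero_ne_one this
  set a' : Fin n → K[X] := fun i => Polynomial.C (u i) * a i with ha'
  have ia' : ∀ i m, ‖ι ((a' i).coeff m)‖ ≤ 1 := by
    intro i m
    rw [ha']
    simp only
    rw [coeff_C_mul, map_mul, norm_mul, hu1, one_mul]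
    exact hgood.ia i m
  have da' : ∀ i, (a' i).natDegree ≤ D i := fun i => (natDegree_C_mul_le _ _).trans (hgood.da i)
  have hab' : ∀ i, a' i * b i = Polynomial.C (u i) * (a i * b i) := fun i => by
    rw [ha']
    ring
  have r1' : ∀ i, ‖ι (resultant (a' i) (b i) (D i) (D i))‖ = 1 := by
    intro i
    rw [ha']
    simp only
    rw [resultant_C_mul_left, map_mul, map_pow, norm_mul, norm_pow, hu1, one_pow, one_mul]
    exact hgood.r1 i
  have r2' : ∀ i j, i ≠ j →
      ‖ι (resultant (a' i * b i) (a' j * b j) (D i + D i) (D j + D j))‖ = 1 := by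
    intro i j hij
    rw [hab', hab', resultant_C_mul_left, resultant_C_mul_right, map_mul, map_mul, map_pow, map_pow,
      norm_mul, norm_mul, norm_pow, norm_pow, hu1, hu1, one_pow, one_pow, one_mul, one_mul]
    exact hgood.r2 i j hij
  -- lifts
  have hlift : ∀ P : K[X], (∀ m, ‖ι (P.coeff m)‖ ≤ 1) → ∃ G : (OO C)[X],
      G.map (OO C).subtype = P.map ι := by
    intro P hP
    apply exists_lift_OO
    rw [mem_PS]
    intro m
    rw [coeff_map]
    exact hP m
  choose A hA using fun i => hlift (a' i) (ia' i)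
  choose B hB using fun i => hlift (b i) (hgood.ib i)
  have hinj : Function.Injective (OO C).subtype := Subtype.val_injective
  have dA : ∀ i, (A i).natDegree ≤ D i := fun i => by
    rw [← natDegree_map_eq_of_injective hinj, hA]
    exact natDegree_map_le.trans (da' i)
  have dB : ∀ i, (B i).natDegree ≤ D i := fun i => by
    rw [← natDegree_map_eq_of_injective hinj, hB]
    exact natDegree_map_le.trans (hgood.db i)
  have hres : ∀ (P Q : (OO C)[X]) (P' Q' : K[X]) (m l : ℕ), P.map (OO C).subtype = P'.map ι →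
      Q.map (OO C).subtype = Q'.map ι → ‖ι (resultant P' Q' m l)‖ = 1 →
      red (resultant P Q m l) ≠ 0 := by
    intro P Q P' Q' m l hP hQ h
    rw [red_unit hker]
    have e : ((resultant P Q m l : OO C) : C) = ι (resultant P' Q' m l) := by
      have h1 := resultant_map_map P Q m l (OO C).subtype
      have h2 := resultant_map_map P' Q' m l ι
      rw [hP, hQ] at h1
      rw [h1] at h2
      exact h2
    rw [e]
    exact h
  -- the curve
  have hinjσ : Function.Injective σ' := σ'.injective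
  have hmapQ : ∀ P : K[X], (P.map σ').map φ = P.map ι := by
    intro P
    rw [Polynomial.map_map]
    congr 1
    exact RingHom.ext hφ
  let 𝒬 : QF n :=
    { α := fun i => (a' i).map σ'
      β := fun i => Polynomial.C ((p : QA) ^ e) * (b i).map σ'
      D := D
      hD := fun i => (hD i).1
      dα := fun i => natDegree_map_le.trans (da' i)
      dβ := fun i => (natDegree_C_mul_le _ _).trans (natDegree_map_le.trans (hgood.db i))
      c1 := fun i => by
        refine gcop_of_res (natDegree_map_le.trans (da' i))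
          ((natDegree_C_mul_le _ _).trans (natDegree_map_le.trans (hgood.db i)))
          (hD i).1 (hD i).1 ?_
        rw [resultant_C_mul_right, resultant_map_map]
        refine mul_ne_zero (pow_ne_zero _ (pow_ne_zero _ hpQ)) ((map_ne_zero σ').2 fun h0 => ?_)
        have := r1' i
        rw [h0, map_zero, norm_zero] at this
        exact zero_ne_one this
      c2 := fun i j hij => by
        have e1 : ∀ i, (a' i).map σ' * (Polynomial.C ((p : QA) ^ e) * (b i).map σ') =
            Polynomial.C ((p : QA) ^ e) * (a' i * b i).map σ' := fun i => by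
          have e2 : (a' i * b i).map σ' = (a' i).map σ' * (b i).map σ' := Polynomial.map_mul σ'
          rw [e2]
          ring
        rw [e1, e1]
        have hd2 : ∀ i, (Polynomial.C ((p : QA) ^ e) * (a' i * b i).map σ').natDegree ≤ D i + D i :=
          fun i => (natDegree_C_mul_le _ _).trans (natDegree_map_le.trans
            (natDegree_mul_le_of_le (da' i) (hgood.db i)))
        refine gcop_of_res (hd2 i) (hd2 j) (by have := (hD i).1; omega) (by have := (hD j).1; omega) ?_
        rw [resultant_C_mul_left, resultant_C_mul_right, resultant_map_map]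
        refine mul_ne_zero (pow_ne_zero _ (pow_ne_zero _ hpQ))
          (mul_ne_zero (pow_ne_zero _ (pow_ne_zero _ hpQ)) ((map_ne_zero σ').2 fun h0 => ?_))
        have := r2' i j hij
        rw [h0, map_zero, norm_zero] at this
        exact zero_ne_one this }
  have hσmap : ∀ P : K[X], P.map σ = (P.map σ').map rA := by
    intro P
    rw [Polynomial.map_map]
    congr 1
    exact RingHom.ext fun x => (hσ x).symm
  have hpe : (p : ℂ) ^ e ≠ 0 := pow_ne_zero _ (by exact_mod_cast hpf.out.ne_zero)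
  have hσu : ∀ i, σ (u i) = σ (lam i) * (p : ℂ) ^ e := fun i => by
    rw [hu]
    simp only
    rw [map_mul, map_pow, map_natCast]
  have hevα : ∀ i (τ : ℂ), ev (𝒬.α i) τ = σ (lam i) * (p : ℂ) ^ e * ((a i).map σ).eval τ := by
    intro i τ
    show (((a' i).map σ').map rA).eval τ = _
    rw [← hσmap, ha']
    simp only
    rw [Polynomial.map_mul, Polynomial.map_C, eval_mul, eval_C, hσu]
  have hevβ : ∀ i (τ : ℂ), ev (𝒬.β i) τ = (p : ℂ) ^ e * ((b i).map σ).eval τ := by
    intro i τ
    show ((Polynomial.C ((p : QA) ^ e) * (b i).map σ').map rA).eval τ = _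
    rw [Polynomial.map_mul, Polynomial.map_C, ← hσmap, eval_mul, eval_C, map_pow, map_natCast]
  have hinfα : ∀ i, rA ((𝒬.α i).coeff (𝒬.D i)) = σ (lam i) * (p : ℂ) ^ e * σ ((a i).coeff (D i)) := by
    intro i
    show rA (((a' i).map σ').coeff (D i)) = _
    rw [coeff_map, hσ, ha']
    simp only
    rw [coeff_C_mul, map_mul, hσu]
  have hinfβ : ∀ i, rA ((𝒬.β i).coeff (𝒬.D i)) = (p : ℂ) ^ e * σ ((b i).coeff (D i)) := by
    intro i
    show rA ((Polynomial.C ((p : QA) ^ e) * (b i).map σ').coeff (D i)) = _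
    rw [coeff_C_mul, coeff_map, map_mul, hσ, map_pow, map_natCast]
  have hcrv : crvK σ D lam a b = 𝒬.Pts := by
    ext x
    constructor
    · rintro ⟨s, t, hst, hx⟩
      by_cases ht : t = 0
      · right
        subst ht
        have hs : s ≠ 0 := by simpa using hst
        intro i
        have h1 := hx i
        rw [form_inf, form_inf] at h1
        rw [hinfα, hinfβ]
        have h2 : s ^ D i ≠ 0 := pow_ne_zero _ hs
        apply mul_left_cancel₀ h2
        linear_combination (p : ℂ) ^ e * h1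
      · left
        refine ⟨s / t, fun i => ?_⟩
        have h1 := hx i
        rw [form_affine σ (hgood.da i) ht, form_affine σ (hgood.db i) ht] at h1
        rw [hevα, hevβ]
        have h2 : t ^ D i ≠ 0 := pow_ne_zero _ ht
        apply mul_left_cancel₀ h2
        linear_combination (p : ℂ) ^ e * h1
    · rintro (⟨τ, hx⟩ | hx)
      · refine ⟨τ, 1, Or.inr one_ne_zero, fun i => ?_⟩
        have h1 := hx i
        rw [hevα, hevβ] at h1
        rw [form_affine σ (hgood.da i) one_ne_zero, form_affine σ (hgood.db i) one_ne_zero, div_one]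
        apply mul_left_cancel₀ hpe
        linear_combination h1
      · refine ⟨1, 0, Or.inl one_ne_zero, fun i => ?_⟩
        have h1 := hx i
        rw [hinfα, hinfβ] at h1
        rw [form_inf, form_inf]
        apply mul_left_cancel₀ hpe
        linear_combination h1
  rw [hcrv]
  refine hG F hFc hFU A B D hD (fun i => ?_) (fun i => ?_) dA dB (fun i => ?_) (fun i j hij => ?_)
    φ (fun i => (a' i).map σ') (fun i => (b i).map σ') (fun i => by rw [hmapQ, hA])
    (fun i => by rw [hmapQ, hB]) (fun cO hcO => ?_) Γ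
    (fun γ hγ => ?_) e he 𝒬 rfl rfl rfl
  · rw [mem_PR]
    intro m
    rw [mem_FO]
    have := congrArg (fun q => Polynomial.coeff q m) (hA i)
    simp only [coeff_map] at this
    have h2 : ((A i).coeff m : C) = ι ((a' i).coeff m) := this
    rw [h2]
    exact hιF _
  · rw [mem_PR]
    intro m
    rw [mem_FO]
    have := congrArg (fun q => Polynomial.coeff q m) (hB i)
    simp only [coeff_map] at this
    have h2 : ((B i).coeff m : C) = ι ((b i).coeff m) := this
    rw [h2]
    exact hιF _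
  · exact cop_of_res (dA i) (dB i) (hD i).1 (hD i).1 (hres _ _ _ _ _ _ (hA i) (hB i) (r1' i))
  · refine cop_of_res (natDegree_mul_le_of_le (dA i) (dB i)) (natDegree_mul_le_of_le (dA j) (dB j))
      (by have := (hD i).1; omega) (by have := (hD j).1; omega)
      (hres _ _ (a' i * b i) (a' j * b j) _ _ ?_ ?_ (r2' i j hij))
    · rw [Polynomial.map_mul, Polynomial.map_mul, hA, hB]
    · rw [Polynomial.map_mul, Polynomial.map_mul, hA, hB]
  · rw [mem_FK]
    have h1 := hcj p C k red φ cO hcO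
    have h2 : ∀ c, red cO ^ p ^ (D₁ * c) = red cO := by
      intro c
      induction c with
      | zero => simp
      | succ c ih => rw [mul_add, mul_one, pow_add, pow_mul, ih, h1]
    rw [mul_comm f]
    exact h2 f
  · obtain ⟨m, hm, hint⟩ := hΓ γ hγ
    exact pInt hp1 φ hm hint

end Pool.Agent.Y226.ZR
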