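import Pool.Agent.Y226.ZR.CurveL
import Pool.Agent.Y226.ZU.Main

/-!
# The modular equations on a rational curve
-/

set_option autoImplicit false
set_option linter.unusedSectionVars false

open UpperHalfPlane H294ZP Polynomial

namespace Pool.Agent.Y226.ZR

open Pool.Agent.Y226 Pool.Agent.Y226.ZM Pool.Agent.Y226.ZU Pool.Agent.Y226.ZG

/-- two forms without common zero -/
structure GCop {L : Type} [Field L] (f g : L[X]) (m n : ℕ) : Prop where
  fin : ∀ x : L, f.eval x ≠ 0 ∨ g.eval x ≠ 0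
  inf : f.coeff m ≠ 0 ∨ g.coeff n ≠ 0

theorem gcop_of_res {L : Type} [Field L] {f g : L[X]} {m n : ℕ} (hf : f.natDegree ≤ m)
    (hg : g.natDegree ≤ n) (hm : 0 < m) (hn : 0 < n) (h : resultant f g m n ≠ 0) :
    GCop f g m n := by
  constructor
  · intro x
    obtain ⟨P, Q, -, -, e⟩ := exists_mul_add_mul_eq_C_resultant f g hf hg (Or.inl hm.ne')
    by_contra hcon
    push Not at hcon
    apply h
    have h1 := congrArg (Polynomial.eval x) e
    rw [eval_C, eval_add, eval_mul, eval_mul] at h1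
    rw [← h1, hcon.1, hcon.2, zero_mul, zero_mul, add_zero]
  · by_contra hcon
    push Not at hcon
    apply h
    refine resultant_eq_zero_of_lt_lt _ _ _ _ ?_ ?_
    · refine lt_of_le_of_ne hf fun h2 => ?_
      have h3 : f.leadingCoeff = 0 := by
        rw [leadingCoeff, h2, hcon.1]
      rw [leadingCoeff_eq_zero] at h3
      rw [h3, natDegree_zero] at h2
      omega
    · refine lt_of_le_of_ne hg fun h2 => ?_
      have h3 : g.leadingCoeff = 0 := by
        rw [leadingCoeff, h2, hcon.2]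
      rw [leadingCoeff_eq_zero] at h3
      rw [h3, natDegree_zero] at h2
      omega

/-- the forms of a rational curve over the algebraic numbers -/
structure QF (n : ℕ) where
  α : Fin n → QA[X]
  β : Fin n → QA[X]
  D : Fin n → ℕ
  hD : ∀ i, 0 < D i
  dα : ∀ i, (α i).natDegree ≤ D i
  dβ : ∀ i, (β i).natDegree ≤ D i
  c1 : ∀ i, GCop (α i) (β i) (D i) (D i)
  c2 : ∀ i j, i ≠ j → GCop (α i * β i) (α j * β j) (D i + D i) (D j + D j)

namespace QF

variable {n : ℕ} (𝒬 : QF n)

theorem ab_exists (i : Fin n) : 𝒬.β i ≠ 0 := by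
  intro h0
  have h1 := (𝒬.c1 i).inf
  rw [h0, coeff_zero] at h1
  have h2 : (𝒬.α i).coeff (𝒬.D i) ≠ 0 := h1.resolve_right fun h => h rfl
  have h3 : (𝒬.α i).natDegree = 𝒬.D i := le_antisymm (𝒬.dα i) (le_natDegree_of_ne_zero h2)
  obtain ⟨z, hz⟩ := IsAlgClosed.exists_root (𝒬.α i) (by
    rw [degree_eq_natDegree (by rintro h4; rw [h4] at h2; simp at h2), h3]
    exact_mod_cast (𝒬.hD i).ne')
  rcases (𝒬.c1 i).fin z with h4 | h4
  · exact h4 hz
  · rw [h0, eval_zero] at h4
    exact h4 rfl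

/-- the point with parameter `τ` -/
def At (τ : ℂ) (x : Fin n → ℂ) : Prop := ∀ i, ev (𝒬.β i) τ * x i = ev (𝒬.α i) τ

/-- the point with parameter `∞` -/
def Inf (x : Fin n → ℂ) : Prop :=
  ∀ i, rA ((𝒬.β i).coeff (𝒬.D i)) * x i = rA ((𝒬.α i).coeff (𝒬.D i))

theorem ev_ne (i : Fin n) (τ : ℂ) : ev (𝒬.α i) τ ≠ 0 ∨ ev (𝒬.β i) τ ≠ 0 := by
  have h : IsCoprime (𝒬.α i) (𝒬.β i) := coprime_iff.2 (𝒬.c1 i).fin
  obtain ⟨u, v, huv⟩ := h
  by_contra hcon
  push Not at hcon
  have h6 := congrArg (fun P => ev P τ) huv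
  simp only [ev, Polynomial.map_add, Polynomial.map_mul, eval_add, eval_mul,
    Polynomial.map_one, eval_one] at h6
  obtain ⟨h0, h4⟩ := hcon
  unfold ev at h0 h4
  rw [h0, h4] at h6
  simp at h6

theorem β_ne {τ : ℂ} {x : Fin n → ℂ} (h : 𝒬.At τ x) (i : Fin n) : ev (𝒬.β i) τ ≠ 0 := by
  intro h0
  have h1 := h i
  rw [h0, zero_mul] at h1
  rcases 𝒬.ev_ne i τ with h2 | h2
  · exact h2 h1.symm
  · exact h2 h0

/-- a point is determined by the parameter -/
theorem at_eq {τ : ℂ} {x : Fin n → ℂ} (h : 𝒬.At τ x) :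
    x = fun i => ev (𝒬.α i) τ / ev (𝒬.β i) τ := by
  funext i
  rw [← h i]
  have := 𝒬.β_ne h i
  field_simp

theorem inf_subsingleton : {x | 𝒬.Inf x}.Subsingleton := by
  intro x hx y hy
  funext i
  have h1 := hx i
  have h2 := hy i
  have h3 : rA ((𝒬.β i).coeff (𝒬.D i)) ≠ 0 := by
    intro h0
    rw [h0, zero_mul] at h1
    rcases (𝒬.c1 i).inf with h4 | h4
    · exact h4 ((map_eq_zero rA).1 h1.symm)
    · exact h4 ((map_eq_zero rA).1 h0)
  exact mul_left_cancel₀ h3 (h1.trans h2.symm)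

/-- the polynomial expressing that two coordinates are related by the modular equation -/
theorem pair {d : ℕ} (hd : ∀ i, 𝒬.D i ≤ d) {i j : Fin n} (hij : i ≠ j) {N : ℕ} (hN : 0 < N) :
    ∃ g : QA[X], g ≠ 0 ∧ g.natDegree ≤ dN N * d ∧ ∀ (t x y : ℂ), ev (𝒬.β i) t * x = ev (𝒬.α i) t →
      ev (𝒬.β j) t * y = ev (𝒬.α j) t → PsiE ιZ (mP N) (mD N) x y = 0 → ev g t = 0 := by
  obtain ⟨-, -, -, -, -, -, -, -, hone, -, -⟩ := modular_spec N hN
  set D := mD N with hD
  set P := mP N with hP
  set E := ∑ l ∈ Finset.range (D + 1), (P l).natDegree with hE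
  have hEl : ∀ l ∈ Finset.range (D + 1), (P l).natDegree < E + 1 := by
    intro l hl
    have := Finset.single_le_sum (f := fun l => (P l).natDegree) (fun _ _ => Nat.zero_le _) hl
    exact Nat.lt_succ_of_le this
  set α := 𝒬.α
  set β := 𝒬.β
  set g : QA[X] := ∑ l ∈ Finset.range (D + 1),
    (∑ m ∈ Finset.range (E + 1), C (iA ((P l).coeff m)) * (α i ^ m *
      β i ^ (E - m))) * (α j ^ l * β j ^ (D - l)) with hg
  -- degrees
  have dlo : ∀ m ≤ E, (α i ^ m * β i ^ (E - m)).natDegree ≤ m * 𝒬.D i + (E - m) * 𝒬.D i := fun m _ =>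
    natDegree_mul_le_of_le (natDegree_pow_le_of_le _ (𝒬.dα i)) (natDegree_pow_le_of_le _ (𝒬.dβ i))
  have dhi : ∀ l ≤ D, (α j ^ l * β j ^ (D - l)).natDegree ≤ l * 𝒬.D j + (D - l) * 𝒬.D j := fun l _ =>
    natDegree_mul_le_of_le (natDegree_pow_le_of_le _ (𝒬.dα j)) (natDegree_pow_le_of_le _ (𝒬.dβ j))
  have hml : ∀ {m E c : ℕ}, m ≤ E → m * c + (E - m) * c = E * c := by
    intro m E c h
    rw [← add_mul, Nat.add_sub_cancel' h]
  have dlo' : ∀ l, (∑ m ∈ Finset.range (E + 1), C (iA ((P l).coeff m)) * (α i ^ m *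
      β i ^ (E - m))).natDegree ≤ E * 𝒬.D i := by
    intro l
    refine natDegree_sum_le_of_forall_le _ _ fun m hm => ?_
    have hm' := Nat.lt_succ_iff.1 (Finset.mem_range.1 hm)
    refine (natDegree_C_mul_le _ _).trans ((dlo m hm').trans (le_of_eq (hml hm')))
  refine ⟨g, ?_, ?_, ?_⟩
  · intro h0
    by_cases hroot : ∃ z, (β j).eval z = 0
    · -- evaluate at a root of `β j`
      obtain ⟨z, hz'⟩ := hroot
      have hαj : (α j).eval z ≠ 0 := by
        rcases (𝒬.c1 j).fin z with h | h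
        · exact h
        · exact absurd hz' h
      have hβi : (β i).eval z ≠ 0 := by
        rcases (𝒬.c2 i j hij).fin z with h | h
        · rw [eval_mul] at h; exact right_ne_zero_of_mul h
        · rw [eval_mul] at h
          exact absurd hz' (right_ne_zero_of_mul h)
      have h1 := congrArg (Polynomial.eval z) h0
      rw [eval_zero, hg, eval_finsetSum, Finset.sum_range_succ, Finset.sum_eq_zero, zero_add] at h1
      · rw [eval_mul, eval_finsetSum, Finset.sum_range_succ', Finset.sum_eq_zero] at h1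
        · simp only [hone, coeff_one_zero, map_one, eval_mul, eval_pow, pow_zero, one_mul,
            zero_add, Nat.sub_zero, Nat.sub_self, mul_one] at h1
          exact (mul_ne_zero (pow_ne_zero _ hβi) (pow_ne_zero _ hαj)) h1
        · intro m _
          rw [hone, coeff_one, if_neg (Nat.succ_ne_zero m), map_zero, C_0, zero_mul, eval_zero]
      · intro l hl
        have hl' := Finset.mem_range.1 hl
        rw [eval_mul, eval_mul, eval_pow, eval_pow, hz', zero_pow (by omega), mul_zero, mul_zero]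
    · -- the zeros of the form are at infinity
      push Not at hroot
      have hβjd : (β j).natDegree = 0 := by
        by_contra hne
        obtain ⟨z, hz⟩ := IsAlgClosed.exists_root (β j) (by
          rw [degree_eq_natDegree (𝒬.ab_exists j)]
          exact_mod_cast hne)
        exact hroot z hz
      have hβj0 : (β j).coeff (𝒬.D j) = 0 := coeff_eq_zero_of_natDegree_lt (by
        rw [hβjd]; exact 𝒬.hD j)
      have hαj : (α j).coeff (𝒬.D j) ≠ 0 := by
        rcases (𝒬.c1 j).inf with h | h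
        · exact h
        · exact absurd hβj0 h
      have hβi : (β i).coeff (𝒬.D i) ≠ 0 := by
        rcases (𝒬.c2 i j hij).inf with h | h
        · rw [coeff_mul_add_eq_of_natDegree_le (𝒬.dα i) (𝒬.dβ i)] at h
          exact right_ne_zero_of_mul h
        · rw [coeff_mul_add_eq_of_natDegree_le (𝒬.dα j) (𝒬.dβ j)] at h
          exact absurd hβj0 (right_ne_zero_of_mul h)
      have h1 := congrArg (fun q => Polynomial.coeff q (E * 𝒬.D i + D * 𝒬.D j)) h0
      simp only [coeff_zero] at h1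
      rw [hg, finsetSum_coeff, Finset.sum_range_succ, Finset.sum_eq_zero, zero_add] at h1
      · rw [← hml (le_refl D), coeff_mul_add_eq_of_natDegree_le (dlo' D) (dhi D le_rfl),
          coeff_mul_add_eq_of_natDegree_le (natDegree_pow_le_of_le _ (𝒬.dα j))
          (natDegree_pow_le_of_le _ (𝒬.dβ j)), coeff_pow_of_natDegree_le (𝒬.dα j),
          coeff_pow_of_natDegree_le (𝒬.dβ j), Nat.sub_self, pow_zero, mul_one, finsetSum_coeff,
          Finset.sum_range_succ', Finset.sum_eq_zero, zero_add, hone, coeff_one_zero, map_one,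
          C_1, one_mul, pow_zero, one_mul, Nat.sub_zero, coeff_pow_of_natDegree_le (𝒬.dβ i)] at h1
        · exact (mul_ne_zero (pow_ne_zero _ hβi) (pow_ne_zero _ hαj)) h1
        · intro m _
          rw [hone, coeff_one, if_neg (Nat.succ_ne_zero m), map_zero, C_0, zero_mul, coeff_zero]
      · intro l hl
        have hl' := Finset.mem_range.1 hl
        rw [← hml hl'.le, coeff_mul_add_eq_of_natDegree_le (dlo' l) (dhi l hl'.le),
          coeff_mul_add_eq_of_natDegree_le (natDegree_pow_le_of_le _ (𝒬.dα j))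
          (natDegree_pow_le_of_le _ (𝒬.dβ j)), coeff_pow_of_natDegree_le (𝒬.dβ j), hβj0,
          zero_pow (by omega), mul_zero, mul_zero]
  · refine natDegree_sum_le_of_forall_le _ _ fun l hl => ?_
    have hl' := Nat.lt_succ_iff.1 (Finset.mem_range.1 hl)
    refine (natDegree_mul_le_of_le (dlo' l) ((dhi l hl').trans (le_of_eq (hml hl')))).trans ?_
    unfold dN
    rw [← hD, ← hP, ← hE, add_mul, add_comm]
    exact Nat.add_le_add (Nat.mul_le_mul_left _ (hd j)) (Nat.mul_le_mul_left _ (hd i))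
  · intro t x y hx hy hΨ
    have key : ev g t = ev (β i) t ^ E * ev (β j) t ^ D * PsiE ιZ P D x y := by
      unfold PsiE
      rw [hg]
      unfold ev
      rw [Polynomial.map_sum, eval_finsetSum, Finset.mul_sum]
      refine Finset.sum_congr rfl fun l hl => ?_
      have hl' := Nat.lt_succ_iff.1 (Finset.mem_range.1 hl)
      rw [eval₂_eq_sum_range' ιZ (hEl l hl), Polynomial.map_mul, Polynomial.map_sum, eval_mul,
        eval_finsetSum, Finset.sum_mul, Finset.sum_mul, Finset.mul_sum]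
      refine Finset.sum_congr rfl fun m hm => ?_
      have hm' := Nat.lt_succ_iff.1 (Finset.mem_range.1 hm)
      simp only [Polynomial.map_mul, Polynomial.map_pow, Polynomial.map_C, eval_mul, eval_pow,
        eval_C]
      have e1 : rA (iA ((P l).coeff m)) = ιZ ((P l).coeff m) := rfl
      have hx' : ((α i).map rA).eval t = ((β i).map rA).eval t * x := hx.symm
      have hy' : ((α j).map rA).eval t = ((β j).map rA).eval t * y := hy.symm
      rw [e1, hx', hy', mul_pow, mul_pow]
      have e2 : ((β i).map rA).eval t ^ E = ((β i).map rA).eval t ^ m *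
          ((β i).map rA).eval t ^ (E - m) := by rw [← pow_add, Nat.add_sub_cancel' hm']
      have e3 : ((β j).map rA).eval t ^ D = ((β j).map rA).eval t ^ l *
          ((β j).map rA).eval t ^ (D - l) := by rw [← pow_add, Nat.add_sub_cancel' hl']
      rw [e2, e3]
      ring
    rw [key, hΨ, mul_zero]

/-- each special subvariety gives an equation which does not hold on the curve -/
theorem exists_eqn {Γ : Finset ℂ} (hΓ : ∀ γ ∈ Γ, IsAlgebraic ℚ γ) {r : ℕ}
    (Z : SV (Γ : Set ℂ) n r) (hr : r < n) : ∃ g : QA[X], g ≠ 0 ∧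
      ∀ (τ : ℂ) (x : Fin n → ℂ), 𝒬.At τ x → x ∈ Z.locus → ev g τ = 0 := by
  by_cases hall : ∃ i, Z.cls i = none
  · obtain ⟨i, hi⟩ := hall
    obtain ⟨c, hc⟩ := int_alg hΓ (Z.const i) (Z.int i)
    refine ⟨C c * 𝒬.β i - 𝒬.α i, ?_, ?_⟩
    · intro h0
      have h1 : ∀ z : QA, (𝒬.β i).eval z ≠ 0 := by
        intro z hz
        have h2 := congrArg (Polynomial.eval z) h0
        rw [eval_sub, eval_mul, hz, mul_zero, zero_sub, eval_zero, neg_eq_zero] at h2
        rcases (𝒬.c1 i).fin z with h3 | h3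
        · exact h3 h2
        · exact h3 hz
      have h2 : (𝒬.β i).natDegree = 0 := by
        by_contra hne
        obtain ⟨z, hz⟩ := IsAlgClosed.exists_root (𝒬.β i) (by
          rw [degree_eq_natDegree (𝒬.ab_exists i)]
          exact_mod_cast hne)
        exact h1 z hz
      have h3 : (𝒬.β i).coeff (𝒬.D i) = 0 := coeff_eq_zero_of_natDegree_lt (by
        rw [h2]; exact 𝒬.hD i)
      have h4 := congrArg (fun q => Polynomial.coeff q (𝒬.D i)) h0
      simp only [coeff_sub, coeff_C_mul, coeff_zero] at h4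
      rw [h3, mul_zero, zero_sub, neg_eq_zero] at h4
      rcases (𝒬.c1 i).inf with h5 | h5
      · exact h5 h4
      · exact h5 h3
    · intro τ x hx hZ
      have h1 : x i = Z.const i := by
        obtain ⟨w, hw⟩ := hZ
        exact (hw i).1 hi
      have h2 := hx i
      unfold ev at h2 ⊢
      rw [Polynomial.map_sub, Polynomial.map_mul, Polynomial.map_C, eval_sub, eval_mul, eval_C,
        hc, ← h1, mul_comm, h2, sub_self]
  · push Not at hall
    obtain ⟨j, -, l, -, hjl, c, hcj, hcl⟩ := coll Z.cls Finset.univ (by simpa using hr)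
      (fun x _ => hall x)
    obtain ⟨a', b', c', d', hdet, hrel⟩ := Z.rel_unif hcj hcl
    obtain ⟨N, hN⟩ : ∃ N : ℕ, (N : ℤ) = a' * d' - b' * c' :=
      ⟨(a' * d' - b' * c').toNat, by omega⟩
    have hN0 : 0 < N := by
      have : (0 : ℤ) < N := by rw [hN]; exact hdet
      exact_mod_cast this
    obtain ⟨g, hg, -, hg'⟩ := 𝒬.pair (d := ∑ i, 𝒬.D i)
      (fun i => Finset.single_le_sum (f := 𝒬.D) (fun _ _ => Nat.zero_le _) (Finset.mem_univ i))
      hjl hN0
    refine ⟨g, hg, fun τ x hx hZ => ?_⟩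
    obtain ⟨w, w', hww, hw, hw'⟩ := hrel _ hZ
    obtain ⟨-, -, -, -, -, -, -, -, -, -, h5⟩ := modular_spec N hN0
    have hΨ := h5 w w' a' b' c' d' hN.symm hww
    rw [← hw, ← hw'] at hΨ
    exact hg' τ (x j) (x l) (hx j) (hx l) hΨ

end QF

end Pool.Agent.Y226.ZR
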