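import Pool.Agent.Y226.ZR.Tame
import Pool.Agent.Y226.ZP.Emb

/-!
# The local theorem, uniformly in the curve
-/

set_option autoImplicit false
set_option linter.unusedSectionVars false

open UpperHalfPlane H294ZP Polynomial

namespace Pool.Agent.Y226.PData

open Pool.Agent.Y226.ZR

variable {C : Type} [NormedField C] [IsUltrametricDist C] [CompleteSpace C] [CharZero C]
  [IsAlgClosed C]
variable {p : ℕ} [hpf : Fact p.Prime]

section

variable {n d : ℕ} (𝒟 : PData C p n d)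

/-- the order of tame torsion is bounded when `t` reduces to a root of a fixed polynomial -/
theorem tame_bound_u (hp1 : ‖(p : C)‖ < 1) {k : Type} [Field k] [CharP k p] (red : OO C →+* k)
    (hker : ∀ x : OO C, red x = 0 ↔ ‖(x : C)‖ < 1) {F : Subfield C} {ff m : ℕ} (hfm : 0 < ff * m)
    (hF : Un p F ff) (hA : ∀ i m, (𝒟.A i).coeff m ∈ F) (hB : ∀ i m, (𝒟.B i).coeff m ∈ F) :
    ∀ (t : OO C), red t ^ p ^ (ff * m) = red t → ∀ (Y : Fin n → Cˣ) (j l : Fin n),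
      𝒟.Val (t : C) Y j → 𝒟.Val (t : C) Y l → ∀ (g' : ℕ) (ζ' : Cˣ), 0 < g' → g'.Coprime p →
      IsPrimitiveRoot (ζ' : C) g' → ‖((Y l * (Y j)⁻¹ * ζ' : Cˣ) : C) - 1‖ < 1 →
      g' ≤ p ^ (ff * m) := by
  classical
  let c : k → Fin n → Fin n → k := fun x j l =>
    (((𝒟.aO j).map red).eval x * ((𝒟.bO l).map red).eval x) /
      (((𝒟.bO j).map red).eval x * ((𝒟.aO l).map red).eval x)
  intro t ht Y j l hj hl g' ζ' hg' hcop hζ' hclose
  have hFKm : ∀ {z : k}, z ∈ FK k p ff → z ∈ FK k p (ff * m) := by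
    intro z hz
    rw [mem_FK] at hz ⊢
    have h2 : ∀ c, z ^ p ^ (ff * c) = z := by
      intro c
      induction c with
      | zero => simp
      | succ c ih => rw [mul_add, mul_one, pow_add, pow_mul, ih, hz]
    exact h2 m
  have hev : ∀ {G : (OO C)[X]}, G ∈ PR (FO F) → (G.map red).eval (red t) ∈ FK k p (ff * m) := by
    intro G hG
    rw [eval_eq_sum_range]
    exact sum_mem fun i _ => mul_mem (hFKm (mem_PR.1 (map_red_mem hker hp1 hF hG) i))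
      (pow_mem (mem_FK.2 ht) _)
  have hcFK : c (red t) j l ∈ FK k p (ff * m) := by
    have h1 := mul_mem (hev (aO_mem 𝒟 hA j)) (hev (bO_mem 𝒟 hB l))
    have h2 := mul_mem (hev (bO_mem 𝒟 hB j)) (hev (aO_mem 𝒟 hA l))
    rw [mem_FK] at h1 h2 ⊢
    show (_ / _) ^ p ^ (ff * m) = _ / _
    rw [div_pow, h1, h2]
  have h1 : ‖(ζ' : C)‖ ^ g' = 1 := by rw [← norm_pow, hζ'.pow_eq_one, norm_one]
  have hζn : ‖(ζ' : C)‖ = 1 := (pow_eq_one_iff_of_nonneg (norm_nonneg _) hg'.ne').1 h1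
  set Z : OO C := ⟨(ζ' : C), hζn.le⟩ with hZ
  have hord : orderOf (red Z) = g' := by
    refine IsPrimitiveRoot.eq_orderOf ?_ |>.symm
    refine ⟨?_, fun m hm => ?_⟩
    · rw [← map_pow]
      have : Z ^ g' = 1 := Subtype.ext hζ'.pow_eq_one
      rw [this, map_one]
    · apply hζ'.dvd_of_pow_eq_one
      rw [← map_pow, ← sub_eq_zero, ← map_one red, ← map_sub, hker] at hm
      have hm' : ‖(ζ' : C) ^ m - 1‖ < 1 := hm
      refine tame_eq_one (m := g') ?_ ?_ hm'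
      · -- `g'` is a unit
        have hco : IsCoprime (g' : ℤ) (p : ℤ) := Nat.isCoprime_iff_coprime.2 hcop
        obtain ⟨u, v, huv⟩ := hco
        have h2 : (u : C) * (g' : C) - 1 = -(v * p) := by
          have := congrArg (Int.cast : ℤ → C) huv
          push_cast at this
          linear_combination this
        have h3 : ‖(u : C) * (g' : C)‖ = 1 := by
          refine neq_one (y := 1) ?_ norm_one
          rw [h2, norm_neg]
          exact (nmul_le (nint v) le_rfl).trans_lt hp1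
        rw [norm_mul] at h3
        have h4 := nint (C := C) u
        have h5 := nnat (C := C) g'
        have h6 := norm_nonneg (u : C)
        have h7 := norm_nonneg (g' : C)
        nlinarith
      · rw [← pow_mul, mul_comm, pow_mul, hζ'.pow_eq_one, one_pow]
  have hval : red Z = c (red t) j l := by
    have hYj := 𝒟.Y_norm hj
    have hYl := 𝒟.Y_norm hl
    obtain ⟨⟨hAj, hBj⟩, hYj'⟩ := hj
    obtain ⟨⟨hAl, hBl⟩, hYl'⟩ := hl
    have haj := red_ne red hker (x := (𝒟.aO j).eval t) (by rw [aO_eval]; exact hAj)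
    have hbj := red_ne red hker (x := (𝒟.bO j).eval t) (by rw [bO_eval]; exact hBj)
    have hal := red_ne red hker (x := (𝒟.aO l).eval t) (by rw [aO_eval]; exact hAl)
    have hbl := red_ne red hker (x := (𝒟.bO l).eval t) (by rw [bO_eval]; exact hBl)
    show red Z = (((𝒟.aO j).map red).eval (red t) * ((𝒟.bO l).map red).eval (red t)) /
      (((𝒟.bO j).map red).eval (red t) * ((𝒟.aO l).map red).eval (red t))
    rw [eval_map_apply, eval_map_apply, eval_map_apply, eval_map_apply,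
      eq_div_iff (mul_ne_zero hbj hal), ← map_mul, ← map_mul, ← map_mul]
    apply red_eq red hker
    show ‖(ζ' : C) * ((((𝒟.bO j).eval t : OO C) : C) * (((𝒟.aO l).eval t : OO C) : C)) -
      (((𝒟.aO j).eval t : OO C) : C) * (((𝒟.bO l).eval t : OO C) : C)‖ < 1
    rw [aO_eval, aO_eval, bO_eval, bO_eval, hYj', hYl']
    have hYj0 : ((Y j : Cˣ) : C) ≠ 0 := (Y j).ne_zero
    have e1 : (ζ' : C) * ((𝒟.B j).eval (t : C) * (Y l * (𝒟.B l).eval (t : C))) -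
        Y j * (𝒟.B j).eval (t : C) * (𝒟.B l).eval (t : C) =
        (((Y l * (Y j)⁻¹ * ζ' : Cˣ) : C) - 1) * (Y j * (𝒟.B j).eval (t : C) *
          (𝒟.B l).eval (t : C)) := by
      rw [Units.val_mul, Units.val_mul, Units.val_inv_eq_inv_val]
      field_simp
    rw [e1, norm_mul, norm_mul, norm_mul, hYj, hBj, hBl]
    simpa using hclose
  have hne : c (red t) j l ≠ 0 := by
    rw [← hval]
    intro h0
    have h2 := (hker Z).1 h0
    rw [show ((Z : OO C) : C) = ζ' from rfl, hζn] at h2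
    exact lt_irrefl _ h2
  have h3 : c (red t) j l ^ (p ^ (ff * m) - 1) = 1 := by
    have h4 : c (red t) j l ^ p ^ (ff * m) = c (red t) j l := mem_FK.1 hcFK
    have h5 : 0 < p ^ (ff * m) := pow_pos hpf.out.pos _
    obtain ⟨q, hq⟩ : ∃ q, p ^ (ff * m) = q + 1 := ⟨p ^ (ff * m) - 1, by omega⟩
    rw [hq, pow_succ] at h4
    rw [hq, Nat.add_sub_cancel]
    exact mul_right_cancel₀ hne (by rw [h4, one_mul])
  have h6 : 1 < p ^ (ff * m) := Nat.one_lt_pow hfm.ne' hpf.out.one_lt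
  rw [← hord, hval]
  exact (orderOf_le_of_pow_eq_one (by omega) h3).trans (Nat.sub_le _ _)

end

theorem local_main_u {n d : ℕ} (hpD : 16 * (d + 1) ^ 4 < p) (hp0 : 0 < ‖(p : C)‖)
    (hp1 : ‖(p : C)‖ < 1) {k : Type} [Field k] [CharP k p] (red : OO C →+* k)
    (hker : ∀ x : OO C, red x = 0 ↔ ‖(x : C)‖ < 1) {ff : ℕ} (hff : 0 < ff) :
    ∃ G : ℕ, ∀ (𝒟 : PData C p n d) (F : Subfield C), IsClosed (F : Set C) → Un p F ff →
      (∀ i m, (𝒟.A i).coeff m ∈ F) → (∀ i m, (𝒟.B i).coeff m ∈ F) →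
      ∀ (φ : QA →+* C) (Λ pu : Cˣ) (e : ℕ), 0 < e → (pu : C) = p →
      Λ * pu ^ (e : ℤ) ∈ GG C p 0 le_rfl one_pos →
      ∀ κ : OO C, (p : C) * κ * Λ = φ (iA (cj 1)) → red κ ∈ FK k p ff →
      ∀ (X : Fin n → QA) (t : C), ‖t‖ ≤ 1 →
      (∃ (t₀ : C) (f : ℕ), 0 < f ∧ t₀ ^ p ^ f = t₀ ∧ ‖t - t₀‖ < 1) →
      (∀ i, (𝒟.B i).eval t ≠ 0) →
      (∀ i, (𝒟.B i).eval t * φ (X i) = Λ * (𝒟.A i).eval t) →
      ∀ (r : ℕ) (cls : Fin n → Option (Fin r)), r + 2 ≤ n →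
      (∀ i, cls i = none → ‖φ (X i)‖ ≤ 1) →
      (∀ (j l : Fin n) (c : Fin r), cls j = some c → cls l = some c →
        ∃ (w w' : ℍ) (a b c' d' : ℤ), 0 < a * d' - b * c' ∧ (w' : ℂ) * (c' * w + d') = a * w + b ∧
          rA (X j) = jj w ∧ rA (X l) = jj w') →
      ∃ j k : Fin n, j ≠ k ∧ (∃ c, cls j = some c ∧ cls k = some c) ∧ ∃ N : ℕ, 0 < N ∧ N ≤ G ∧
        PsiE ιZ (mP N) (mD N) (rA (X j)) (rA (X k)) = 0 := by
  classical
  by_cases hn2 : n < 2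
  · exact ⟨0, fun 𝒟 F _ _ _ _ φ Λ pu e _ _ _ κ _ _ X t _ _ _ _ r cls hr => by omega⟩
  push Not at hn2
  set m : ℕ := (n * (n * (n * n)) * (8 * d * p + 4 * d) + n * (d + d)).factorial with hm
  have hm0 : 0 < m := Nat.factorial_pos _
  have hfm : 0 < ff * m := Nat.mul_pos hff hm0
  set G₁ : ℕ := p ^ (ff * m) with hG₁
  refine ⟨(G₁ * p ^ 2) ^ 2, ?_⟩
  intro 𝒟 F hFc hF hA hB φ Λ pu e he hpu hΛ κ hκ hκr
  set ψ : ZZ →+* C := φ.comp iA with hψdef
  have hψ : ∀ z, ‖ψ z‖ ≤ 1 := psi_norm φ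
  have hρ : rA.comp iA = ιZ := rA_comp
  have hφ : φ.comp iA = ψ := rfl
  -- the norm of `Λ`
  have hΛn : ‖(Λ : C)‖ = ‖(p : C)‖⁻¹ ^ e := by
    have h1 := GG_norm hΛ
    rw [Units.val_mul, norm_mul, Units.val_zpow_eq_zpow_val, norm_zpow, hpu, zpow_natCast] at h1
    rw [inv_pow]
    exact eq_inv_of_mul_eq_one_left h1
  have hpe0 : 0 < ‖(p : C)‖ ^ e := pow_pos hp0 e
  have hpe : ‖(p : C)‖ ^ e < 1 := pow_lt_one₀ (norm_nonneg _) hp1 he.ne'
  have hpe1 : ‖(p : C)‖ ^ e ≤ ‖(p : C)‖ := pow_le_of_le_one (norm_nonneg _) hp1.le he.ne'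
  have hΛ1 : 1 < ‖(Λ : C)‖ := by
    rw [hΛn, inv_pow]; exact (one_lt_inv₀ hpe0).2 hpe
  have hΛinv : ‖(Λ : C)‖⁻¹ = ‖(p : C)‖ ^ e := by rw [hΛn, inv_pow, inv_inv]
  have hpC : (p : C) ≠ 0 := norm_pos_iff.1 hp0
  have hΛ0 : (Λ : C) ≠ 0 := Λ.ne_zero
  -- the polynomial
  have hQ : ∀ q : Fin n × Fin n × Fin n × Fin n, ∃ Pp : k[X], Pp ≠ 0 ∧ Pp ∈ PR (FK k p ff) ∧ Pp.natDegree ≤ 8 * d * p + 4 * d ∧
      (q.1 ≠ q.2.1 → q.2.2.1 ≠ q.2.2.2 →
        ¬ ((q.2.2.1 = q.1 ∧ q.2.2.2 = q.2.1) ∨ (q.2.2.1 = q.2.1 ∧ q.2.2.2 = q.1)) →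
        ∀ (t t₀ : OO C) (f : ℕ) (Y : Fin n → Cˣ) (ζ ζ' : OO C) (ζu ζu' : Cˣ)
      (f₁ f₂ : ℕ), 0 < f → t₀ ^ p ^ f = t₀ → ‖(t : C) - t₀‖ < 1 → 𝒟.Val (t : C) Y q.1 →
      𝒟.Val (t : C) Y q.2.1 → 𝒟.Val (t : C) Y q.2.2.1 → 𝒟.Val (t : C) Y q.2.2.2 → (ζu : C) = ζ →
      (ζu' : C) = ζ' → 0 < f₁ → ζ ^ p ^ f₁ = ζ → 0 < f₂ → ζ' ^ p ^ f₂ = ζ' →
      Rel2 (p := p) κ Y q.1 q.2.1 ζu → Rel2 (p := p) κ Y q.2.2.1 q.2.2.2 ζu' →
      Pp.eval (red t) = 0) := by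
    rintro ⟨j, l, j', l'⟩
    by_cases h : j ≠ l ∧ j' ≠ l' ∧ ¬ ((j' = j ∧ l' = l) ∨ (j' = l ∧ l' = j))
    · obtain ⟨Pp, h1, h2, h3, h4⟩ := 𝒟.tame_main_u red hpD hp0 hp1 hker hFc hff hF hA hB κ hκr
        h.1 h.2.1 h.2.2
      exact ⟨Pp, h1, h2, h3, fun _ _ _ => h4⟩
    · exact ⟨1, one_ne_zero, one_mem _, by rw [natDegree_one]; exact Nat.zero_le _,
        fun h1 h2 h3 => absurd ⟨h1, h2, h3⟩ h⟩
  choose Q hQ0 hQm hQd hQ1 using hQ
  set Big : k[X] := (∏ q, Q q) * ∏ i, ((𝒟.aO i).map red * (𝒟.bO i).map red) with hBig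
  have hBig0 : Big ≠ 0 := by
    refine mul_ne_zero (Finset.prod_ne_zero_iff.2 fun q _ => hQ0 q)
      (Finset.prod_ne_zero_iff.2 fun i _ => ?_)
    obtain ⟨i', hi'⟩ : ∃ i' : Fin n, i ≠ i' := by
      by_cases h : (i : ℕ) = 0
      · exact ⟨⟨1, by omega⟩, fun h' => by rw [h'] at h; simp at h⟩
      · exact ⟨⟨0, by omega⟩, fun h' => h (by rw [h'])⟩
    exact mul_ne_zero (𝒟.aO_ne red hker hi') (𝒟.bO_ne red hker hi')
  have hBigm : Big ∈ PR (FK k p ff) :=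
    mul_mem (prod_mem fun q _ => hQm q) (prod_mem fun i _ =>
      mul_mem (map_red_mem hker hp1 hF (aO_mem 𝒟 hA i)) (map_red_mem hker hp1 hF (bO_mem 𝒟 hB i)))
  have hBigd : Big.natDegree ≤ n * (n * (n * n)) * (8 * d * p + 4 * d) + n * (d + d) := by
    refine natDegree_mul_le_of_le ?_ ?_
    · refine (natDegree_prod_le _ _).trans ((Finset.sum_le_card_nsmul _ _ _ fun q _ => hQd q).trans ?_)
      simp [Fintype.card_prod]
    · refine (natDegree_prod_le _ _).trans ((Finset.sum_le_card_nsmul _ _ (d + d) fun i _ => ?_).trans ?_)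
      · exact natDegree_mul_le_of_le (natDegree_map_le.trans (𝒟.aO_deg i))
          (natDegree_map_le.trans (𝒟.bO_deg i))
      · simp
  have hroot : ∀ x : k, Big.eval x = 0 → x ^ p ^ (ff * m) = x := fun x hx =>
    root_fixed hff hBig0 hBigm hBigd hx
  have hG₁' := 𝒟.tame_bound_u hp1 red hker hfm hF hA hB
  intro X t ht ⟨t₀, f, hf, ht₀, htt⟩ hB0 hX r cls hr hcm hcls
  have ht₀Nr : t₀ ∈ Nr C p := Nr_of_fixed hf ht₀
  set tO : OO C := ⟨t, ht⟩ with htO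
  set t₀O : OO C := ⟨t₀, Nr_le ht₀Nr⟩ with ht₀O
  -- the units
  have hYex : ∀ i, ∃ y : Cˣ, 𝒟.Good t i → (𝒟.A i).eval t = y * (𝒟.B i).eval t := by
    intro i
    by_cases h : 𝒟.Good t i
    · have hA : (𝒟.A i).eval t ≠ 0 := norm_pos_iff.1 (by rw [h.1]; exact one_pos)
      refine ⟨Units.mk0 ((𝒟.A i).eval t / (𝒟.B i).eval t) (div_ne_zero hA (hB0 i)), fun _ => ?_⟩
      rw [Units.val_mk0]
      have := hB0 i
      field_simp
    · exact ⟨1, fun h' => absurd h' h⟩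
  choose Y hY using hYex
  have hVal : ∀ i, 𝒟.Good t i → 𝒟.Val t Y i := fun i hi => ⟨hi, hY i hi⟩
  have hgood1 : ∀ i, 𝒟.Good t i → 1 < ‖φ (X i)‖ := by
    intro i hi
    rw [𝒟.coord_good hX (hVal i hi), norm_mul, 𝒟.Y_norm (hVal i hi), mul_one]
    exact hΛ1
  have hnone : ∀ i, 𝒟.Good t i → cls i ≠ none := by
    intro i hi h
    exact absurd (hgood1 i hi) (not_lt.2 (hcm i h))
  -- information on pairs of good coordinates of the same class
  have hinfo : ∀ j l, 𝒟.Good t j → 𝒟.Good t l → (∃ c, cls j = some c ∧ cls l = some c) →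
      ∃ (g' s : ℕ) (ζ' ε : Cˣ), 0 < g' ∧ g'.Coprime p ∧ IsPrimitiveRoot (ζ' : C) g' ∧
      IsPrimitiveRoot (ε : C) (p ^ s) ∧
      ‖((Y l * (Y j)⁻¹ * (ζ' * ε) : Cˣ) : C) -
        (1 + p * κ * (((Y l : Cˣ) : C)⁻¹ - ((Y j : Cˣ) : C)⁻¹))‖ ≤ ‖(p : C)‖ ^ 2 ∧
      Y l * (Y j)⁻¹ * ε ∈ GG C p ‖(p : C)‖ (norm_nonneg _) hp1 ∧
      PsiE ιZ (mP ((g' * p ^ s) ^ 2)) (mD ((g' * p ^ s) ^ 2)) (rA (X j)) (rA (X l)) = 0 := by
    intro j l hj hl ⟨c, hcj, hcl⟩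
    obtain ⟨w, w', a, b, c', d', hdet, hrel, hw, hw'⟩ := hcls j l c hcj hcl
    obtain ⟨g', s, ζ', ε, h1, h2, h3, h4, h5, h6⟩ := 𝒟.pair_info hψ hρ hφ hp0 hp1 he hΛn hκ hX
      (hVal j hj) (hVal l hl) hdet hrel hw hw'
    exact ⟨g', s, ζ', ε, h1, h2, h3, h4, h5,
      𝒟.pair_GG hp1 (hVal j hj) (hVal l hl) h1 h2 h3 h5, h6⟩
  -- from the tame bound to the conclusion
  have hfin : ∀ j l, j ≠ l → 𝒟.Good t j → 𝒟.Good t l →
      (∃ c, cls j = some c ∧ cls l = some c) → Big.eval (red tO) = 0 →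
      ∀ (g' s : ℕ) (ζ' ε : Cˣ), 0 < g' → g'.Coprime p → IsPrimitiveRoot (ζ' : C) g' →
      IsPrimitiveRoot (ε : C) (p ^ s) →
      ‖((Y l * (Y j)⁻¹ * (ζ' * ε) : Cˣ) : C) -
        (1 + p * κ * (((Y l : Cˣ) : C)⁻¹ - ((Y j : Cˣ) : C)⁻¹))‖ ≤ ‖(p : C)‖ ^ 2 →
      PsiE ιZ (mP ((g' * p ^ s) ^ 2)) (mD ((g' * p ^ s) ^ 2)) (rA (X j)) (rA (X l)) = 0 →
      s ≤ 2 → ∃ j k : Fin n, j ≠ k ∧ (∃ c, cls j = some c ∧ cls k = some c) ∧
        ∃ N : ℕ, 0 < N ∧ N ≤ (G₁ * p ^ 2) ^ 2 ∧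
        PsiE ιZ (mP N) (mD N) (rA (X j)) (rA (X k)) = 0 := by
    intro j l hjl hj hl hcc hbig g' s ζ' ε hg' hcop hζ' hε h5 hΨ hs
    refine ⟨j, l, hjl, hcc, (g' * p ^ s) ^ 2, ?_, ?_, hΨ⟩
    · have := hpf.out.pos
      positivity
    · have hYj := 𝒟.Y_norm (hVal j hj)
      have hYl := 𝒟.Y_norm (hVal l hl)
      have hζn : ‖(ζ' : C)‖ = 1 := by
        have h1 : ‖(ζ' : C)‖ ^ g' = 1 := by rw [← norm_pow, hζ'.pow_eq_one, norm_one]
        exact (pow_eq_one_iff_of_nonneg (norm_nonneg _) hg'.ne').1 h1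
      have hεlt : ‖(ε : C) - 1‖ < 1 := ppow_root_lt hp1 hε.pow_eq_one
      have hεn : ‖(ε : C)‖ = 1 := neq_one hεlt norm_one
      have hclose : ‖((Y l * (Y j)⁻¹ * ζ' : Cˣ) : C) - 1‖ < 1 := by
        have e1 : ((Y l * (Y j)⁻¹ * ζ' : Cˣ) : C) - 1 =
            (((Y l * (Y j)⁻¹ * (ζ' * ε) : Cˣ) : C) -
            (1 + p * κ * (((Y l : Cˣ) : C)⁻¹ - ((Y j : Cˣ) : C)⁻¹))) +
            p * (κ * (((Y l : Cˣ) : C)⁻¹ - ((Y j : Cˣ) : C)⁻¹)) -
            ((Y l * (Y j)⁻¹ * ζ' : Cˣ) : C) * ((ε : C) - 1) := by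
          simp only [Units.val_mul]; ring
        rw [e1]
        refine nsub_lt (nadd_lt (h5.trans_lt (pow_lt_one₀ (norm_nonneg _) hp1 two_ne_zero)) ?_) ?_
        · refine (nmul_le' le_rfl (nmul_le κ.2 (nsub_le ?_ ?_))).trans_lt hp1
          · rw [norm_inv, hYl, inv_one]
          · rw [norm_inv, hYj, inv_one]
        · rw [norm_mul, Units.val_mul, Units.val_mul, Units.val_inv_eq_inv_val, norm_mul, norm_mul,
            norm_inv, hYl, hYj, hζn]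
          simpa using hεlt
      have hg1 := hG₁' tO (hroot _ hbig) Y j l (hVal j hj) (hVal l hl) g' ζ' hg' hcop hζ' hclose
      apply Nat.pow_le_pow_left
      exact Nat.mul_le_mul hg1 (Nat.pow_le_pow_right hpf.out.pos hs)
  -- a bad coordinate
  have hbadBig : ∀ i, ¬ 𝒟.Good t i → Big.eval (red tO) = 0 := by
    intro i hi
    rw [hBig, eval_mul, eval_prod, eval_prod, mul_eq_zero]
    right
    refine Finset.prod_eq_zero (Finset.mem_univ i) ?_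
    rw [eval_mul, eval_map_apply, eval_map_apply, ← map_mul, hker]
    show ‖(((𝒟.aO i).eval tO : OO C) : C) * (((𝒟.bO i).eval tO : OO C) : C)‖ < 1
    rw [aO_eval, bO_eval]
    rw [good_iff 𝒟 ht] at hi
    exact lt_of_le_of_ne (nmul_le (𝒟.An i ht) (𝒟.Bn i ht)) hi
  -- Claim D : two distinct pairs
  have hclaimD : ∀ j l j' l', j ≠ l → j' ≠ l' → ¬ ((j' = j ∧ l' = l) ∨ (j' = l ∧ l' = j)) →
      𝒟.Good t j → 𝒟.Good t l → 𝒟.Good t j' → 𝒟.Good t l' →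
      (∃ c, cls j = some c ∧ cls l = some c) →
      (∃ c, cls j' = some c ∧ cls l' = some c) →
      ∃ j k : Fin n, j ≠ k ∧ (∃ c, cls j = some c ∧ cls k = some c) ∧
        ∃ N : ℕ, 0 < N ∧ N ≤ (G₁ * p ^ 2) ^ 2 ∧
        PsiE ιZ (mP N) (mD N) (rA (X j)) (rA (X k)) = 0 := by
    intro j l j' l' hjl hjl' hne hj hl hj' hl' hc hc'
    obtain ⟨g₁, s₁, ζ₁, ε₁, a1, a2, a3, a4, a5, a6, a7⟩ := hinfo j l hj hl hc
    obtain ⟨g₂, s₂, ζ₂, ε₂, b1, b2, b3, b4, b5, b6, b7⟩ := hinfo j' l' hj' hl' hc'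
    have hs₁ : s₁ = 0 ∧ s₂ = 0 := by
      by_contra hcon
      rcases le_total s₂ s₁ with h12 | h12
      · have hs : s₁ ≠ 0 := by rintro rfl; exact hcon ⟨rfl, by omega⟩
        obtain ⟨s, rfl⟩ : ∃ s, s₁ = s + 1 := ⟨s₁ - 1, by omega⟩
        refine 𝒟.no_wild hpD hp0 hp1 ht₀Nr htt (hVal j hj) (hVal l hl) (hVal j' hj')
          (hVal l' hl') hjl hjl' hne a4 ?_ a6 b6
        obtain ⟨x, hx⟩ := Nat.pow_dvd_pow p h12
        rw [hx, pow_mul, b4.pow_eq_one, one_pow]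
      · have hs : s₂ ≠ 0 := by rintro rfl; exact hcon ⟨by omega, rfl⟩
        obtain ⟨s, rfl⟩ : ∃ s, s₂ = s + 1 := ⟨s₂ - 1, by omega⟩
        refine 𝒟.no_wild hpD hp0 hp1 ht₀Nr htt (hVal j' hj') (hVal l' hl') (hVal j hj)
          (hVal l hl) hjl' hjl ?_ b4 ?_ b6 a6
        · rintro (⟨h1, h2⟩ | ⟨h1, h2⟩)
          · exact hne (Or.inl ⟨h1.symm, h2.symm⟩)
          · exact hne (Or.inr ⟨h2.symm, h1.symm⟩)
        · obtain ⟨x, hx⟩ := Nat.pow_dvd_pow p h12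
          rw [hx, pow_mul, a4.pow_eq_one, one_pow]
    obtain ⟨rfl, rfl⟩ := hs₁
    have hε₁ : ε₁ = 1 := Units.ext (by
      have := a4.pow_eq_one
      simpa using this)
    have hε₂ : ε₂ = 1 := Units.ext (by
      have := b4.pow_eq_one
      simpa using this)
    refine hfin j l hjl hj hl hc ?_ g₁ 0 ζ₁ ε₁ a1 a2 a3 a4 a5 a7 (by norm_num)
    -- the tame equation
    have hZO : ∀ (g : ℕ) (ζ : Cˣ), 0 < g → g.Coprime p → IsPrimitiveRoot (ζ : C) g →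
        ∃ (z : OO C) (f₁ : ℕ), ((ζ⁻¹ : Cˣ) : C) = z ∧ 0 < f₁ ∧ z ^ p ^ f₁ = z := by
      intro g ζ hg hcop hζ
      have h1 : ‖(ζ : C)‖ ^ g = 1 := by rw [← norm_pow, hζ.pow_eq_one, norm_one]
      have h2 : ‖(ζ : C)‖ = 1 := (pow_eq_one_iff_of_nonneg (norm_nonneg _) hg.ne').1 h1
      obtain ⟨f₁, hf₁, hff⟩ := fixed_of_pow_eq_one (p := p) hcop hζ.pow_eq_one
      refine ⟨⟨((ζ⁻¹ : Cˣ) : C), ?_⟩, f₁, rfl, hf₁, Subtype.ext ?_⟩
      · rw [mem_OO, Units.val_inv_eq_inv_val, norm_inv, h2, inv_one]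
      · show ((ζ⁻¹ : Cˣ) : C) ^ p ^ f₁ = ((ζ⁻¹ : Cˣ) : C)
        rw [Units.val_inv_eq_inv_val, inv_pow, hff]
    obtain ⟨z₁, f₁, hz₁, hf₁, hzf₁⟩ := hZO g₁ ζ₁ a1 a2 a3
    obtain ⟨z₂, f₂, hz₂, hf₂, hzf₂⟩ := hZO g₂ ζ₂ b1 b2 b3
    have hrel₁ : Rel2 (p := p) κ Y j l ζ₁⁻¹ := by
      unfold Rel2
      rw [inv_inv]
      rw [hε₁, mul_one] at a5
      exact a5
    have hrel₂ : Rel2 (p := p) κ Y j' l' ζ₂⁻¹ := by
      unfold Rel2
      rw [inv_inv]
      rw [hε₂, mul_one] at b5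
      exact b5
    have h0 := hQ1 (j, l, j', l') hjl hjl' hne tO t₀O f Y z₁ z₂ ζ₁⁻¹ ζ₂⁻¹ f₁ f₂ hf
      (Subtype.ext ht₀) htt (hVal j hj) (hVal l hl) (hVal j' hj') (hVal l' hl') hz₁ hz₂ hf₁ hzf₁
      hf₂ hzf₂ hrel₁ hrel₂
    rw [hBig, eval_mul, eval_prod, Finset.prod_eq_zero (Finset.mem_univ (j, l, j', l')) h0,
      zero_mul]
  -- the combinatorics
  by_cases hall : ∀ i, 𝒟.Good t i
  · obtain ⟨j, -, l, -, hjl, hc⟩ := coll cls Finset.univ (by simp; omega)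
      (fun x _ => hnone x (hall x))
    obtain ⟨j', hj', l', hl', hjl', hc'⟩ := coll cls (Finset.univ.erase l)
      (by rw [Finset.card_erase_of_mem (Finset.mem_univ l)]; simp; omega)
      (fun x _ => hnone x (hall x))
    have h1 := Finset.ne_of_mem_erase hj'
    have h2 := Finset.ne_of_mem_erase hl'
    exact hclaimD j l j' l' hjl hjl' (by
      rintro (⟨-, h⟩ | ⟨h, -⟩)
      · exact h2 h
      · exact h1 h) (hall j) (hall l) (hall j') (hall l') hc hc'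
  · push Not at hall
    obtain ⟨i, hi⟩ := hall
    have hg : ∀ j, j ≠ i → 𝒟.Good t j := fun j hj => 𝒟.good_of_ne ht hi hj
    obtain ⟨j, hj, l, hl, hjl, hc⟩ := coll cls (Finset.univ.erase i)
      (by rw [Finset.card_erase_of_mem (Finset.mem_univ i)]; simp; omega)
      (fun x hx => hnone x (hg x (Finset.ne_of_mem_erase hx)))
    have hji := Finset.ne_of_mem_erase hj
    have hli := Finset.ne_of_mem_erase hl
    obtain ⟨g₁, s₁, ζ₁, ε₁, a1, a2, a3, a4, a5, a6, a7⟩ := hinfo j l (hg j hji) (hg l hli) hc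
    by_cases hci0 : cls i = none
    · -- the exceptional coordinate is a singular modulus
      have hs₁ : s₁ = 0 := by
        by_contra hs
        obtain ⟨s, rfl⟩ : ∃ s, s₁ = s + 1 := ⟨s₁ - 1, by omega⟩
        refine 𝒟.no_wild_cm hpD hp0 hp1 ht₀Nr htt (hVal j (hg j hji)) (hVal l (hg l hli))
          (i := i) ?_ hji a4 a6
        have h1 := hcm i hci0
        have h2 := congrArg norm (hX i)
        rw [norm_mul, norm_mul] at h2
        have h3 := 𝒟.Bn i ht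
        have h4 : ‖(Λ : C)‖ * ‖(𝒟.A i).eval t‖ ≤ 1 := by
          rw [← h2]
          have := norm_nonneg ((𝒟.B i).eval t)
          have := norm_nonneg (φ (X i))
          nlinarith
        have h5 : ‖(𝒟.A i).eval t‖ ≤ ‖(Λ : C)‖⁻¹ := by
          rw [← one_div, le_div_iff₀ (one_pos.trans hΛ1), mul_comm]
          exact h4
        rw [hΛinv] at h5
        exact h5.trans hpe1
      exact hfin j l hjl (hg j hji) (hg l hli) hc (hbadBig i hi) g₁ s₁ ζ₁ ε₁ a1 a2 a3 a4 a5 a7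
        (by omega)
    · have hnone' : ∀ x, cls x ≠ none := by
        intro x
        by_cases hx : x = i
        · rw [hx]; exact hci0
        · exact hnone x (hg x hx)
      -- Claim AB
      have hAB : ∀ m, m ≠ i → (∃ c, cls m = some c ∧ cls i = some c) →
          ∃ j k : Fin n, j ≠ k ∧ (∃ c, cls j = some c ∧ cls k = some c) ∧
        ∃ N : ℕ, 0 < N ∧ N ≤ (G₁ * p ^ 2) ^ 2 ∧
            PsiE ιZ (mP N) (mD N) (rA (X j)) (rA (X k)) = 0 := by
        intro m hmi ⟨c, hcm', hci⟩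
        refine hfin j l hjl (hg j hji) (hg l hli) hc (hbadBig i hi) g₁ s₁ ζ₁ ε₁ a1 a2 a3 a4 a5 a7 ?_
        by_contra hs
        obtain ⟨s, rfl⟩ : ∃ s, s₁ = s + 1 := ⟨s₁ - 1, by omega⟩
        have hm := hg m hmi
        obtain ⟨w, w', a, b, c', d', hdet, hrel, hw, hw'⟩ := hcls m i c hcm' hci
        obtain ⟨A', B', g, ζ, hA', hB', hAB', hg0, hζ, hq, hi1, -⟩ :=
          tate_rel hψ hρ hφ hdet hrel hw hw' (hgood1 m hm)
        have hxi0 : φ (X i) ≠ 0 := norm_pos_iff.1 (one_pos.trans hi1)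
        have hAi0 : (𝒟.A i).eval t ≠ 0 := by
          intro h0
          have := hX i
          rw [h0, mul_zero] at this
          exact (mul_ne_zero (hB0 i) hxi0) this
        have hxi : φ (X i) = Λ * ((𝒟.A i).eval t * ((𝒟.B i).eval t)⁻¹) := by
          have h1 := hX i
          have h2 := hB0 i
          field_simp
          linear_combination h1
        have hxm := 𝒟.coord_good hX (hVal m hm)
        have hqi0 := qT_ne hψ hi1
        have hqm0 := qT_ne hψ (hgood1 m hm)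
        have hζ0 : ζ ≠ 0 := hζ.ne_zero hg0.ne'
        have hle := 𝒟.wild_exc hpD hp0 hp1 ht ht₀Nr htt (hVal j (hg j hji)) (hVal l (hg l hli))
          (hVal m hm) hjl hi (Ai := Units.mk0 _ hAi0) (Bi := Units.mk0 _ (hB0 i)) rfl rfl he hpu
          hΛ (qi := Units.mk0 _ hqi0) (ql := Units.mk0 _ hqm0)
          (by
            have h1 := qT_expand' hψ hi1
            simp only [Units.val_mul, Units.val_inv_eq_inv_val, Units.val_mk0]
            rw [mul_assoc, ← hxi]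
            exact h1)
          (by
            have h1 := qT_expand' hψ (hgood1 m hm)
            rw [Units.val_mul, Units.val_mul, Units.val_mul, Units.val_mk0, mul_assoc, ← hxm]
            exact h1)
          (by
            rw [Units.val_mul, Units.val_mul, Units.val_inv_eq_inv_val, Units.val_mk0,
              Units.val_mk0, ← hxi]
            exact hi1)
          hAB' hB' (ζ := Units.mk0 ζ hζ0) hg0 (Units.ext hζ.pow_eq_one)
          (Units.ext (by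
            rw [Units.val_mul, Units.val_pow_eq_pow_val, Units.val_pow_eq_pow_val]
            exact hq)) a4 a6
        omega
      obtain ⟨j', hj', l', hl', hjl', hc'⟩ := coll cls (Finset.univ.erase l)
        (by rw [Finset.card_erase_of_mem (Finset.mem_univ l)]; simp; omega)
        (fun x _ => hnone' x)
      have h1 := Finset.ne_of_mem_erase hj'
      have h2 := Finset.ne_of_mem_erase hl'
      by_cases hj'i : j' = i
      · subst hj'i
        obtain ⟨c, hc1, hc2⟩ := hc'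
        exact hAB l' hjl'.symm ⟨c, hc2, hc1⟩
      · by_cases hl'i : l' = i
        · subst hl'i
          obtain ⟨c, hc1, hc2⟩ := hc'
          exact hAB j' hjl' ⟨c, hc1, hc2⟩
        · exact hclaimD j l j' l' hjl hjl' (by
            rintro (⟨-, h⟩ | ⟨h, -⟩)
            · exact h2 h
            · exact h1 h) (hg j hji) (hg l hli) (hg j' hj'i) (hg l' hl'i) hc hc'

end Pool.Agent.Y226.PData
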