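import Pool.Agent.Y226.ZR.Global

/-!
# Uniform finiteness for rational curves
-/

set_option autoImplicit false
set_option linter.unusedSectionVars false

open UpperHalfPlane H294ZP Polynomial

namespace Pool.Agent.Y226.ZR

open Pool.Agent.Y226 Pool.Agent.Y226.ZM Pool.Agent.Y226.ZU Pool.Agent.Y226.ZG

namespace QF

variable {n : ℕ} (𝒬 : QF n)

/-- the points of the curve -/
def Pts : Set (Fin n → ℂ) := {x | (∃ τ, 𝒬.At τ x) ∨ 𝒬.Inf x}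

/-- the points whose parameter is a zero of a polynomial -/
theorem zeros_bound {g : QA[X]} (hg : g ≠ 0) :
    {x | ∃ τ, 𝒬.At τ x ∧ ev g τ = 0}.Finite ∧
    {x | ∃ τ, 𝒬.At τ x ∧ ev g τ = 0}.ncard ≤ g.natDegree := by
  classical
  have hg' : g.map rA ≠ 0 := (Polynomial.map_ne_zero_iff rA.injective).2 hg
  set S : Finset (Fin n → ℂ) := (g.map rA).roots.toFinset.image
    (fun τ i => ev (𝒬.α i) τ / ev (𝒬.β i) τ) with hS
  have hsub : {x | ∃ τ, 𝒬.At τ x ∧ ev g τ = 0} ⊆ (S : Set (Fin n → ℂ)) := by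
    rintro x ⟨τ, hx, hτ⟩
    rw [hS, Finset.coe_image]
    refine ⟨τ, ?_, (𝒬.at_eq hx).symm⟩
    rw [Finset.mem_coe, Multiset.mem_toFinset, mem_roots hg']
    exact hτ
  have hcard : S.card ≤ g.natDegree := by
    refine Finset.card_image_le.trans ((Multiset.toFinset_card_le _).trans ?_)
    refine (card_roots' _).trans natDegree_map_le
  refine ⟨S.finite_toSet.subset hsub, ?_⟩
  refine (Set.ncard_le_ncard hsub S.finite_toSet).trans ?_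
  rw [Set.ncard_coe_finset]
  exact hcard

/-- the curve is not contained in a proper special subvariety -/
theorem not_sub {Γ : Finset ℂ} (hΓ : ∀ γ ∈ Γ, IsAlgebraic ℚ γ) {r : ℕ}
    (Z : SV (Γ : Set ℂ) n r) (hr : r < n) : ¬ 𝒬.Pts ⊆ Z.locus := by
  intro hsub
  obtain ⟨g, hg, hg'⟩ := 𝒬.exists_eqn hΓ Z hr
  have h0 : g * ∏ i, 𝒬.β i ≠ 0 :=
    mul_ne_zero hg (Finset.prod_ne_zero_iff.2 fun i _ => 𝒬.ab_exists i)
  obtain ⟨s, hs⟩ : ∃ s : QA, (g * ∏ i, 𝒬.β i).eval s ≠ 0 := by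
    by_contra hcon
    push Not at hcon
    exact h0 (Polynomial.funext fun x => by rw [hcon, eval_zero])
  rw [eval_mul, eval_prod] at hs
  have hβ : ∀ i, (𝒬.β i).eval s ≠ 0 := fun i =>
    Finset.prod_ne_zero_iff.1 (right_ne_zero_of_mul hs) i (Finset.mem_univ i)
  have hat : 𝒬.At (rA s) (fun i => rA ((𝒬.α i).eval s / (𝒬.β i).eval s)) := by
    intro i
    show _ * rA ((𝒬.α i).eval s / (𝒬.β i).eval s) = _
    rw [ev_rA, ev_rA, map_div₀]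
    have : rA ((𝒬.β i).eval s) ≠ 0 := (map_ne_zero rA).2 (hβ i)
    field_simp
  have h1 := hg' _ _ hat (hsub (Or.inl ⟨_, hat⟩))
  rw [ev_rA] at h1
  exact left_ne_zero_of_mul hs ((map_eq_zero rA).1 h1)

end QF

variable {C : Type} [NormedField C] [IsUltrametricDist C] [CompleteSpace C] [CharZero C]
  [IsAlgClosed C]
variable {p : ℕ} [hpf : Fact p.Prime]
variable {k : Type} [Field k] [CharP k p]

theorem main_c {n d : ℕ} (hpD : 16 * (d + 1) ^ 4 < p) (hp0 : 0 < ‖(p : C)‖)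
    (hp1 : ‖(p : C)‖ < 1) (red : OO C →+* k)
    (hker : ∀ x : OO C, red x = 0 ↔ ‖(x : C)‖ < 1) {ff : ℕ} (hff : 0 < ff) :
    ∃ G : ℕ, ∀ F : Subfield C, IsClosed (F : Set C) → Un p F ff →
      ∀ (A B : Fin n → (OO C)[X]) (D : Fin n → ℕ), (∀ i, 0 < D i ∧ D i ≤ d) →
      (∀ i, A i ∈ PR (FO F)) → (∀ i, B i ∈ PR (FO F)) →
      (∀ i, (A i).natDegree ≤ D i) → (∀ i, (B i).natDegree ≤ D i) →
      (∀ i, Cop red (A i) (B i) (D i) (D i)) →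
      (∀ i j, i ≠ j → Cop red (A i * B i) (A j * B j) (D i + D i) (D j + D j)) →
      ∀ (φ : QA →+* C) (α β : Fin n → QA[X]),
      (∀ i, (α i).map φ = (A i).map (OO C).subtype) →
      (∀ i, (β i).map φ = (B i).map (OO C).subtype) →
      (∀ cO : OO C, (cO : C) = φ (iA (cj 1)) → red cO ∈ FK k p ff) →
      ∀ Γ : Finset ℂ, (∀ γ ∈ Γ, ∃ c : QA, rA c = γ ∧ ‖φ c‖ ≤ 1) →
      ∀ e : ℕ, 0 < e → ∀ 𝒬 : QF n, 𝒬.D = D → 𝒬.α = α →
      (𝒬.β = fun i => Polynomial.C ((p : QA) ^ e) * β i) →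
      (∀ x ∈ 𝒬.Pts, ∀ (r : ℕ) (Z : SV (Γ : Set ℂ) n r), r + 2 ≤ n → x ∈ Z.locus →
        ∃ j l : Fin n, j ≠ l ∧ ∃ N : ℕ, 0 < N ∧ N ≤ G ∧ Isog N (x j) (x l)) ∧
      {x | x ∈ 𝒬.Pts ∧ ∃ (r : ℕ) (Z : SV (Γ : Set ℂ) n r), r + 2 ≤ n ∧ x ∈ Z.locus}.Finite ∧
      {x | x ∈ 𝒬.Pts ∧ ∃ (r : ℕ) (Z : SV (Γ : Set ℂ) n r), r + 2 ≤ n ∧ x ∈ Z.locus}.ncard ≤ G ∧
      ∀ (r : ℕ) (Z : SV (Γ : Set ℂ) n r), r < n → ¬ 𝒬.Pts ⊆ Z.locus := by
  classical
  obtain ⟨G₀, hG₀⟩ := curve_local (n := n) (d := d) hpD hp0 hp1 red hker hff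
  set Q : Finset (Fin n × Fin n × ℕ) :=
    Finset.univ ×ˢ Finset.univ ×ˢ Finset.range (G₀ + 1) with hQ
  refine ⟨G₀ + (1 + ∑ q ∈ Q, dN q.2.2 * d), ?_⟩
  intro F hFc hF A B D hD hA hB dA dB h1 h2 φ α β hα hβ hcj Γ hΓ e he 𝒬 hQD hQα hQβ
  have hΓa : ∀ γ ∈ Γ, IsAlgebraic ℚ γ := by
    intro γ hγ
    obtain ⟨c, hc, -⟩ := hΓ γ hγ
    rw [← hc]
    exact mem_QA.1 c.2
  have hcov : ∀ x ∈ 𝒬.Pts, ∀ (r : ℕ) (Z : SV (Γ : Set ℂ) n r), r + 2 ≤ n → x ∈ Z.locus →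
      ∃ j l : Fin n, j ≠ l ∧ ∃ N : ℕ, 0 < N ∧ N ≤ G₀ ∧ Isog N (x j) (x l) ∧
        PsiE ιZ (mP N) (mD N) (x j) (x l) = 0 := by
    intro x hx r Z hr hZ
    -- the coordinates are algebraic
    obtain ⟨X, hXx, hX⟩ : ∃ X : Fin n → QA, (∀ i, rA (X i) = x i) ∧
        ((∃ s : QA, ∀ i, (β i).eval s * ((p : QA) ^ e * X i) = (α i).eval s) ∨
        ∀ i, (β i).coeff (D i) * ((p : QA) ^ e * X i) = (α i).coeff (D i)) := by
      rcases hx with ⟨τ, hτ⟩ | hinf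
      · obtain ⟨g, hg, hg'⟩ := 𝒬.exists_eqn hΓa Z (by omega)
        obtain ⟨s, rfl⟩ := root_algebraic hg (hg' τ x hτ hZ)
        have hβs : ∀ i, (𝒬.β i).eval s ≠ 0 := fun i h0 => by
          apply 𝒬.β_ne hτ i
          rw [ev_rA, h0, map_zero]
        refine ⟨fun i => (𝒬.α i).eval s / (𝒬.β i).eval s, fun i => ?_, Or.inl ⟨s, fun i => ?_⟩⟩
        · rw [map_div₀, ← ev_rA, ← ev_rA, ← hτ i]
          have := 𝒬.β_ne hτ i
          field_simp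
        · have h3 := hβs i
          rw [← hQα]
          have h4 : (𝒬.β i).eval s = (p : QA) ^ e * (β i).eval s := by
            rw [hQβ, eval_mul, eval_C]
          rw [← mul_assoc, mul_comm ((β i).eval s), ← h4]
          field_simp
      · have hc : ∀ i, (𝒬.β i).coeff (𝒬.D i) ≠ 0 := by
          intro i h0
          have h3 := hinf i
          rw [h0, map_zero, zero_mul] at h3
          rcases (𝒬.c1 i).inf with h4 | h4
          · exact h4 ((map_eq_zero rA).1 h3.symm)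
          · exact h4 h0
        refine ⟨fun i => (𝒬.α i).coeff (𝒬.D i) / (𝒬.β i).coeff (𝒬.D i), fun i => ?_,
          Or.inr fun i => ?_⟩
        · have h3 : rA ((𝒬.β i).coeff (𝒬.D i)) ≠ 0 := (map_ne_zero rA).2 (hc i)
          rw [map_div₀, ← hinf i]
          field_simp
        · have h3 := hc i
          rw [← hQα, ← hQD]
          have h4 : (𝒬.β i).coeff (𝒬.D i) = (p : QA) ^ e * (β i).coeff (𝒬.D i) := by
            rw [hQβ, coeff_C_mul]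
          rw [← mul_assoc, mul_comm ((β i).coeff (𝒬.D i)), ← h4]
          field_simp
    obtain ⟨j, l, hjl, ⟨c, hcj', hcl⟩, N, hN0, hN, hΨ⟩ := hG₀ F hFc hF A B D hD hA hB dA dB h1 h2
      φ α β hα hβ hcj e he X hX r Z.cls hr (by
        intro i hi
        refine norm_le_one_of_adjoin (Γ := (Γ : Set ℂ)) φ (fun γ hγ => hΓ γ hγ) ?_
        have h3 : rA (X i) = Z.const i := by
          rw [hXx]
          obtain ⟨z, hz⟩ := hZ
          exact (hz i).1 hi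
        rw [h3]
        exact Z.int i) (by
        intro j l c hcj hcl
        obtain ⟨a', b', c', d', hdet, hrel⟩ := Z.rel_unif hcj hcl
        obtain ⟨w, w', hww, hw, hw'⟩ := hrel _ hZ
        exact ⟨w, w', a', b', c', d', hdet, hww, by rw [hXx, hw], by rw [hXx, hw']⟩)
    rw [hXx, hXx] at hΨ
    refine ⟨j, l, hjl, N, hN0, hN, ?_, hΨ⟩
    obtain ⟨a', b', c', d', hdet, hrel⟩ := Z.rel_unif hcj' hcl
    obtain ⟨w, w', -, hw, -⟩ := hrel _ hZ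
    rw [hw] at hΨ ⊢
    exact isog_of_psi hN0 hΨ
  -- the polynomials
  have hf : ∀ q : Fin n × Fin n × ℕ, ∃ f : QA[X], f ≠ 0 ∧ f.natDegree ≤ dN q.2.2 * d ∧
      (q.1 ≠ q.2.1 → 0 < q.2.2 → ∀ (t x y : ℂ), ev (𝒬.β q.1) t * x = ev (𝒬.α q.1) t →
      ev (𝒬.β q.2.1) t * y = ev (𝒬.α q.2.1) t → PsiE ιZ (mP q.2.2) (mD q.2.2) x y = 0 →
      ev f t = 0) := by
    rintro ⟨j, l, N⟩
    by_cases h : j ≠ l ∧ 0 < N
    · obtain ⟨g, h3, h4, h5⟩ := 𝒬.pair (d := d) (fun i => by rw [hQD]; exact (hD i).2) h.1 h.2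
      exact ⟨g, h3, h4, fun _ _ => h5⟩
    · exact ⟨1, one_ne_zero, by rw [natDegree_one]; exact Nat.zero_le _,
        fun h1 h2 => absurd ⟨h1, h2⟩ h⟩
  choose f hf0 hfd hf1 using hf
  have hsub : {x | x ∈ 𝒬.Pts ∧ ∃ (r : ℕ) (Z : SV (Γ : Set ℂ) n r), r + 2 ≤ n ∧ x ∈ Z.locus} ⊆
      {x | 𝒬.Inf x} ∪ ⋃ q ∈ Q, {x | ∃ τ, 𝒬.At τ x ∧ ev (f q) τ = 0} := by
    rintro x ⟨hx, r, Z, hr, hZ⟩
    rcases hx with ⟨τ, hτ⟩ | hinf
    · right
      obtain ⟨j, l, hjl, N, hN0, hN, -, hΨ⟩ := hcov x (Or.inl ⟨τ, hτ⟩) r Z hr hZ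
      rw [Set.mem_iUnion₂]
      refine ⟨(j, l, N), ?_, τ, hτ, hf1 (j, l, N) hjl hN0 τ _ _ (hτ j) (hτ l) hΨ⟩
      simp only [hQ, Finset.mem_product, Finset.mem_univ, Finset.mem_range, true_and]
      omega
    · exact Or.inl hinf
  have hUfin : ({x | 𝒬.Inf x} ∪ ⋃ q ∈ Q, {x | ∃ τ, 𝒬.At τ x ∧ ev (f q) τ = 0}).Finite :=
    𝒬.inf_subsingleton.finite.union
      (Set.Finite.biUnion (Finset.finite_toSet _) fun q _ => (𝒬.zeros_bound (hf0 q)).1)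
  refine ⟨?_, hUfin.subset hsub, ?_, fun r Z hr => 𝒬.not_sub hΓa Z hr⟩
  · intro x hx r Z hr hZ
    obtain ⟨j, l, hjl, N, hN0, hN, hiso, -⟩ := hcov x hx r Z hr hZ
    exact ⟨j, l, hjl, N, hN0, by omega, hiso⟩
  · refine (Set.ncard_le_ncard hsub hUfin).trans ?_
    refine (Set.ncard_union_le _ _).trans ?_
    refine le_trans ?_ (Nat.le_add_left _ _)
    refine Nat.add_le_add ?_ ?_
    · haveI := 𝒬.inf_subsingleton.finite.to_subtype
      exact Set.ncard_le_one_iff_subsingleton.2 𝒬.inf_subsingleton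
    · refine (Finset.set_ncard_biUnion_le Q _).trans ?_
      exact Finset.sum_le_sum fun q _ => (𝒬.zeros_bound (hf0 q)).2.trans (hfd q)

end Pool.Agent.Y226.ZR
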