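import Pool.Agent.Y226.ZR.Field

/-!
# Rational curves over number fields
-/

set_option autoImplicit false
set_option linter.unusedSectionVars false

open UpperHalfPlane H294ZP Polynomial IsDedekindDomain NumberField

namespace Pool.Agent.Y226.ZR

open Pool.Agent.Y226 Pool.Agent.Y226.ZM Pool.Agent.Y226.ZU Pool.Agent.Y226.ZG

theorem norm_le_one_of_val {C : Type} [NormedField C] [IsUltrametricDist C] [CompleteSpace C]
    [CharZero C] [IsAlgClosed C] {K : Type} [Field K] [NumberField K]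
    {v : HeightOneSpectrum (𝓞 K)} {ι : K →+* C}
    (hι : ∀ x : 𝓞 K, ‖ι (algebraMap (𝓞 K) K x)‖ < 1 ↔ x ∈ v.asIdeal) {x : K}
    (hx : v.valuation K x ≤ 1) : ‖ι x‖ ≤ 1 := by
  obtain ⟨n, d, hnd⟩ := v.exists_primeCompl_mul_eq_of_integer x hx
  have hd : (d : 𝓞 K) ∉ v.asIdeal := d.2
  have h := congrArg (fun y => ‖ι y‖) hnd
  simp only [map_mul, norm_mul] at h
  rw [norm_unit hι hd, mul_one] at h
  rw [h]
  exact int_norm_le _ _

theorem main_nf (n d p B : ℕ) (hp : p.Prime) (hpD : 16 * (d + 1) ^ 4 < p) :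
    ∃ G : ℕ, ∀ (K : Type) [Field K] [NumberField K] (σ : K →+* ℂ) (v : HeightOneSpectrum (𝓞 K)),
      (p : 𝓞 K) ∈ v.asIdeal → (p : 𝓞 K) ∉ v.asIdeal ^ 2 → Nat.card (𝓞 K ⧸ v.asIdeal) ≤ B →
      ∀ (D : Fin n → ℕ) (a b : Fin n → K[X]), (∀ i, 0 < D i ∧ D i ≤ d) →
      (∀ i, (a i).natDegree ≤ D i) → (∀ i, (b i).natDegree ≤ D i) →
      (∀ i m, v.valuation K ((a i).coeff m) ≤ 1) → (∀ i m, v.valuation K ((b i).coeff m) ≤ 1) →
      (∀ i, v.valuation K (resultant (a i) (b i) (D i) (D i)) = 1) →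
      (∀ i j, i ≠ j →
        v.valuation K (resultant (a i * b i) (a j * b j) (D i + D i) (D j + D j)) = 1) →
      ∀ Γ : Finset ℂ, (∀ γ ∈ Γ, ∃ m : ℕ, ¬ p ∣ m ∧ IsIntegral ℤ ((m : ℂ) * γ)) →
      ∀ (lam : Fin n → K) (e : ℕ), 0 < e →
      (∀ i, v.valuation K (lam i) = WithZero.exp (e : ℤ)) →
      (∀ x ∈ crvK σ D lam a b, ∀ (r : ℕ) (Z : SV (Γ : Set ℂ) n r), r + 2 ≤ n → x ∈ Z.locus →
        ∃ j l : Fin n, j ≠ l ∧ ∃ N : ℕ, 0 < N ∧ N ≤ G ∧ Isog N (x j) (x l)) ∧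
      {x | x ∈ crvK σ D lam a b ∧
        ∃ (r : ℕ) (Z : SV (Γ : Set ℂ) n r), r + 2 ≤ n ∧ x ∈ Z.locus}.Finite ∧
      {x | x ∈ crvK σ D lam a b ∧
        ∃ (r : ℕ) (Z : SV (Γ : Set ℂ) n r), r + 2 ≤ n ∧ x ∈ Z.locus}.ncard ≤ G ∧
      ∀ (r : ℕ) (Z : SV (Γ : Set ℂ) n r), r < n → ¬ crvK σ D lam a b ⊆ Z.locus := by
  haveI hpf : Fact p.Prime := ⟨hp⟩
  obtain ⟨C, _, _, _, _, _, φ, hpn⟩ := exists_padic p
  have hpR : (1 : ℝ) < p := by exact_mod_cast hp.one_lt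
  have hp0 : 0 < ‖(p : C)‖ := by rw [hpn]; exact inv_pos.2 (by linarith)
  have hp1 : ‖(p : C)‖ < 1 := by rw [hpn]; exact inv_lt_one_of_one_lt₀ hpR
  obtain ⟨G, hG⟩ := main_k (C := C) (n := n) hpD hp0 hp1 (Nat.factorial_pos B)
  refine ⟨G, ?_⟩
  intro K _ _ σ v hpv hpv2 hB D a b hD da db ia ib r1 r2 Γ hΓ lam e he hlam
  have halgσ : ∀ x : K, IsAlgebraic ℚ (σ x) := fun x =>
    (Algebra.IsAlgebraic.isAlgebraic (R := ℚ) x).algHom σ.toRatAlgHom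
  let σ' : K →+* QA :=
    { toFun := fun x => ⟨σ x, mem_QA.2 (halgσ x)⟩
      map_one' := Subtype.ext (map_one σ)
      map_mul' := fun x y => Subtype.ext (map_mul σ x y)
      map_zero' := Subtype.ext (map_zero σ)
      map_add' := fun x y => Subtype.ext (map_add σ x y) }
  obtain ⟨ι, hι⟩ := exists_embedding hp1 v hpv
  obtain ⟨φ', hφ'⟩ := exists_phi σ' ι
  refine hG K σ σ' ι φ' (fun x => rfl) hφ' (unr_range hp0 hp1 hpv hpv2 hι hB) D a b hD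
    ⟨da, db, fun i m => norm_le_one_of_val hι (ia i m), fun i m => norm_le_one_of_val hι (ib i m),
      fun i => norm_of_val_one hι (r1 i), fun i j hij => norm_of_val_one hι (r2 i j hij)⟩
    Γ hΓ lam e he fun i => ?_
  rw [norm_of_val hp0 hpv hpv2 hι (hlam i), zpow_neg, zpow_natCast, inv_pow]

end Pool.Agent.Y226.ZR
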