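import Pool.Agent.Y226.ZR.Field
import Pool.Agent.Y226.ZR.Den

/-!
# Rational curves with random coefficients
-/

set_option autoImplicit false
set_option linter.unusedSectionVars false

open UpperHalfPlane H294ZP Polynomial

namespace Pool.Agent.Y226.ZR

open Pool.Agent.Y226 Pool.Agent.Y226.ZM Pool.Agent.Y226.ZU Pool.Agent.Y226.ZG

/-- the index set of the coefficients -/
abbrev Idx (n d : ℕ) : Type := Fin n × Fin 2 × Fin (d + 1)

section poly

variable {A B : Type*} [CommRing A] [CommRing B] {n d : ℕ}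

/-- the polynomial with the given coefficients -/
noncomputable def poly (c : Idx n d → A) (i : Fin n) (s : Fin 2) : A[X] :=
  ∑ k : Fin (d + 1), Polynomial.C (c (i, s, k)) * Polynomial.X ^ (k : ℕ)

theorem poly_map (f : A →+* B) (c : Idx n d → A) (i : Fin n) (s : Fin 2) :
    (poly c i s).map f = poly (fun a => f (c a)) i s := by
  unfold poly
  rw [Polynomial.map_sum]
  refine Finset.sum_congr rfl fun k _ => ?_
  rw [Polynomial.map_mul, Polynomial.map_pow, Polynomial.map_C, Polynomial.map_X]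

theorem poly_coeff (c : Idx n d → A) (i : Fin n) (s : Fin 2) (k : Fin (d + 1)) :
    (poly c i s).coeff (k : ℕ) = c (i, s, k) := by
  unfold poly
  rw [Polynomial.finset_sum_coeff, Finset.sum_eq_single k]
  · rw [Polynomial.coeff_C_mul, Polynomial.coeff_X_pow_self, mul_one]
  · intro l _ hl
    rw [Polynomial.coeff_C_mul, Polynomial.coeff_X_pow, if_neg, mul_zero]
    intro h
    exact hl (Fin.ext h.symm)
  · intro h
    exact absurd (Finset.mem_univ k) h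

theorem poly_natDegree (c : Idx n d → A) (i : Fin n) (s : Fin 2) : (poly c i s).natDegree ≤ d := by
  unfold poly
  refine Polynomial.natDegree_sum_le_of_forall_le _ _ fun k _ => ?_
  exact (Polynomial.natDegree_C_mul_X_pow_le _ _).trans (Nat.lt_succ_iff.1 k.2)

theorem poly_coeff_ge (c : Idx n d → A) (i : Fin n) (s : Fin 2) {m : ℕ} (hm : d < m) :
    (poly c i s).coeff m = 0 :=
  Polynomial.coeff_eq_zero_of_natDegree_lt ((poly_natDegree c i s).trans_lt hm)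

theorem poly_eq_X_pow (c : Idx n d → A) (i : Fin n) (s : Fin 2)
    (h : ∀ k, c (i, s, k) = if k = Fin.last d then 1 else 0) : poly c i s = X ^ d := by
  ext m
  rw [Polynomial.coeff_X_pow]
  by_cases hm : m < d + 1
  · have h1 := poly_coeff c i s ⟨m, hm⟩
    rw [h] at h1
    rw [h1]
    by_cases hmd : m = d
    · rw [if_pos hmd, if_pos (Fin.ext hmd)]
    · rw [if_neg hmd, if_neg (fun h2 => hmd (congrArg Fin.val h2))]
  · rw [poly_coeff_ge c i s (by omega), if_neg (by omega)]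

theorem poly_eq_one (c : Idx n d → A) (i : Fin n) (s : Fin 2)
    (h : ∀ k, c (i, s, k) = if k = 0 then 1 else 0) : poly c i s = 1 := by
  ext m
  rw [Polynomial.coeff_one]
  by_cases hm : m < d + 1
  · have h1 := poly_coeff c i s ⟨m, hm⟩
    rw [h] at h1
    rw [h1]
    by_cases hmd : m = 0
    · rw [if_pos hmd, if_pos (Fin.ext hmd)]
    · rw [if_neg hmd, if_neg (fun h2 => hmd (congrArg Fin.val h2))]
  · rw [poly_coeff_ge c i s (by omega), if_neg (by omega)]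

end poly

/-- the first resultants -/
noncomputable def rs1 {A : Type*} [CommRing A] {n d : ℕ} (c : Idx n d → A) (i : Fin n) : A :=
  resultant (poly c i 0) (poly c i 1) d d

/-- the second resultants -/
noncomputable def rs2 {A : Type*} [CommRing A] {n d : ℕ} (c : Idx n d → A) (i j : Fin n) : A :=
  resultant (poly c i 0 * poly c i 1) (poly c j 0 * poly c j 1) (d + d) (d + d)

theorem rs1_map {A B : Type*} [CommRing A] [CommRing B] (f : A →+* B) {n d : ℕ}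
    (c : Idx n d → A) (i : Fin n) : f (rs1 c i) = rs1 (fun a => f (c a)) i := by
  unfold rs1
  rw [← resultant_map_map, poly_map, poly_map]

theorem rs2_map {A B : Type*} [CommRing A] [CommRing B] (f : A →+* B) {n d : ℕ}
    (c : Idx n d → A) (i j : Fin n) : f (rs2 c i j) = rs2 (fun a => f (c a)) i j := by
  unfold rs2
  rw [← resultant_map_map, Polynomial.map_mul, Polynomial.map_mul, poly_map, poly_map, poly_map,
    poly_map]

/-- the product of all resultants -/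
noncomputable def Rr (n d : ℕ) : MvPolynomial (Idx n d) ℤ :=
  (∏ i : Fin n, rs1 (MvPolynomial.X : Idx n d → MvPolynomial (Idx n d) ℤ) i) *
  ∏ q ∈ (Finset.univ : Finset (Fin n × Fin n)).filter (fun q => q.1 ≠ q.2),
    rs2 (MvPolynomial.X : Idx n d → MvPolynomial (Idx n d) ℤ) q.1 q.2

theorem rs1_eval {n d : ℕ} (c : Idx n d → ℤ) (i : Fin n) :
    MvPolynomial.eval c (rs1 (MvPolynomial.X : Idx n d → MvPolynomial (Idx n d) ℤ) i) =
      rs1 c i := by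
  rw [rs1_map (MvPolynomial.eval c)]
  congr 1
  funext a
  exact MvPolynomial.eval_X a

theorem rs2_eval {n d : ℕ} (c : Idx n d → ℤ) (i j : Fin n) :
    MvPolynomial.eval c (rs2 (MvPolynomial.X : Idx n d → MvPolynomial (Idx n d) ℤ) i j) =
      rs2 c i j := by
  rw [rs2_map (MvPolynomial.eval c)]
  congr 1
  funext a
  exact MvPolynomial.eval_X a

theorem Rr_ne_zero (n d : ℕ) : Rr n d ≠ 0 := by
  classical
  unfold Rr
  refine mul_ne_zero (Finset.prod_ne_zero_iff.2 fun i _ => ?_)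
    (Finset.prod_ne_zero_iff.2 fun q hq => ?_)
  · intro h
    set c : Idx n d → ℤ := fun a => if a.2.1 = 0 then (if a.2.2 = Fin.last d then 1 else 0) else
      (if a.2.2 = 0 then 1 else 0) with hc
    have h1 := congrArg (MvPolynomial.eval c) h
    rw [rs1_eval, map_zero] at h1
    unfold rs1 at h1
    rw [poly_eq_X_pow c i 0 (fun k => by rw [hc]; simp),
      poly_eq_one c i 1 (fun k => by rw [hc]; simp), resultant_X_pow_left _ _ _ (by simp)] at h1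
    simp at h1
  · intro h
    have hne : q.1 ≠ q.2 := (Finset.mem_filter.1 hq).2
    set c : Idx n d → ℤ := fun a => if a.1 = q.1 then (if a.2.2 = Fin.last d then 1 else 0) else
      (if a.2.2 = 0 then 1 else 0) with hc
    have h1 := congrArg (MvPolynomial.eval c) h
    rw [rs2_eval, map_zero] at h1
    unfold rs2 at h1
    have e1 : ∀ s, poly c q.1 s = X ^ d := fun s => poly_eq_X_pow c q.1 s (fun k => by
      rw [hc]
      simp only
      rw [if_pos trivial])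
    have e2 : ∀ s, poly c q.2 s = 1 := fun s => poly_eq_one c q.2 s (fun k => by
      rw [hc]
      simp only
      rw [if_neg (fun h => hne h.symm)])
    rw [e1, e1, e2, e2, ← pow_add, resultant_X_pow_left _ _ _ (by simp)] at h1
    simp at h1

variable {C : Type} [NormedField C] [IsUltrametricDist C] [CompleteSpace C] [CharZero C]
  [IsAlgClosed C]
variable {p : ℕ} [hpf : Fact p.Prime]

theorem norm_int_of_dvd {a : ℤ} (h : (p : ℤ) ∣ a) : ‖(a : C)‖ ≤ ‖(p : C)‖ := by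
  obtain ⟨b, rfl⟩ := h
  push_cast
  rw [norm_mul]
  exact mul_le_of_le_one_right (norm_nonneg _) (nint b)

/-- the rational numbers -/
theorem unr_rat (hp0 : 0 < ‖(p : C)‖) (hp1 : ‖(p : C)‖ < 1) :
    Unr p (Rat.castHom C).fieldRange 1 := by
  rintro _ ⟨q, rfl⟩ hc
  have hq : (Rat.castHom C) q = (q.num : C) / (q.den : C) := by
    rw [Rat.coe_castHom, Rat.cast_def]
  rw [hq] at hc ⊢
  have hden : ¬ (p : ℤ) ∣ (q.den : ℤ) := by
    intro h
    have h1 : ‖((q.den : ℤ) : C)‖ ≤ ‖(p : C)‖ := norm_int_of_dvd h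
    have h2 : ¬ (p : ℤ) ∣ q.num := by
      intro h3
      have h4 := q.reduced
      have h5 : p ∣ q.num.natAbs := Int.natCast_dvd.1 h3
      have h6 : p ∣ q.den := by exact_mod_cast h
      have h7 := Nat.dvd_gcd h5 h6
      rw [h4] at h7
      exact hpf.out.one_lt.ne' (Nat.dvd_one.1 h7)
    have h3 := int_unit hp1 h2
    rw [norm_div, h3] at hc
    have h4 : ((q.den : ℤ) : C) = (q.den : C) := by simp
    rw [h4] at h1
    have h5 : 0 < ‖(q.den : C)‖ := norm_pos_iff.2 (by exact_mod_cast q.den_nz)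
    rw [div_le_one h5] at hc
    linarith
  have hb : ‖((q.den : ℤ) : C)‖ = 1 := int_unit hp1 hden
  have hb' : ((q.den : ℤ) : C) = (q.den : C) := by simp
  rw [← hb'] at hc ⊢
  set a := q.num
  set b : ℤ := (q.den : ℤ)
  have hb0 : (b : C) ≠ 0 := by
    intro h
    rw [h, norm_zero] at hb
    exact zero_ne_one hb
  have hdvd : (p : ℤ) ∣ a ^ p * b - a * b ^ p := by
    rw [← ZMod.intCast_zmod_eq_zero_iff_dvd]
    push_cast
    rw [ZMod.pow_card, ZMod.pow_card]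
    ring
  have h1 : ((a : C) / b) ^ p ^ 1 - (a : C) / b =
      ((a ^ p * b - a * b ^ p : ℤ) : C) / (b : C) ^ (p + 1) := by
    rw [pow_one, div_pow, pow_succ]
    push_cast
    field_simp
  rw [h1, norm_div, norm_pow, hb, one_pow, div_one]
  exact norm_int_of_dvd hdvd

theorem map_rat_int (c : ℤ) : (Rat.castHom C) ((c : ℤ) : ℚ) = (c : C) := by simp

/-- the curve -/
def crvR {n d : ℕ} (m : ℤ) (c : Idx n d → ℤ) : Set (Fin n → ℂ) :=
  {x | ∃ s t : ℂ, (s ≠ 0 ∨ t ≠ 0) ∧ ∀ i,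
    (m : ℂ) * (∑ k : Fin (d + 1), (c (i, 1, k) : ℂ) * s ^ (k : ℕ) * t ^ (d - (k : ℕ))) * x i =
      ∑ k : Fin (d + 1), (c (i, 0, k) : ℂ) * s ^ (k : ℕ) * t ^ (d - (k : ℕ))}

theorem form_poly {n d : ℕ} (c : Idx n d → ℤ) (i : Fin n) (l : Fin 2) (s t : ℂ) :
    form (Rat.castHom ℂ) d (poly (fun a => ((c a : ℤ) : ℚ)) i l) s t =
      ∑ k : Fin (d + 1), (c (i, l, k) : ℂ) * s ^ (k : ℕ) * t ^ (d - (k : ℕ)) := by
  unfold form
  rw [Finset.sum_range]
  refine Finset.sum_congr rfl fun k _ => ?_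
  rw [poly_coeff]
  simp

theorem crvR_eq {n d : ℕ} {m : ℤ} (hm : m ≠ 0) (c : Idx n d → ℤ) :
    crvR m c = crvK (Rat.castHom ℂ) (fun _ : Fin n => d) (fun _ => ((m : ℚ))⁻¹)
      (fun i => poly (fun a => ((c a : ℤ) : ℚ)) i 0) (fun i => poly (fun a => ((c a : ℤ) : ℚ)) i 1) := by
  have hmC : (m : ℂ) ≠ 0 := by exact_mod_cast hm
  have e : (Rat.castHom ℂ) ((m : ℚ))⁻¹ = (m : ℂ)⁻¹ := by simp
  ext x
  unfold crvR crvK
  simp only [Set.mem_setOf_eq, form_poly, e]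
  refine exists_congr fun s => exists_congr fun t => and_congr_right fun _ =>
    forall_congr' fun i => ?_
  constructor
  · intro h
    rw [← h]
    field_simp
  · intro h
    rw [mul_assoc, h]
    field_simp

theorem rand_prime (n d : ℕ) (hd : 0 < d) (p : ℕ) (hp : p.Prime) (hpD : 16 * (d + 1) ^ 4 < p) :
    ∃ G : ℕ, ∀ (m : ℤ) (c : Idx n d → ℤ), m ≠ 0 → (p : ℤ) ∣ m →
      ¬ (p : ℤ) ∣ MvPolynomial.eval c (Rr n d) →
      ∀ Γ : Finset ℂ, (∀ γ ∈ Γ, ∃ m : ℕ, ¬ p ∣ m ∧ IsIntegral ℤ ((m : ℂ) * γ)) →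
      (∀ x ∈ crvR m c, ∀ (r : ℕ) (Z : SV (Γ : Set ℂ) n r), r + 2 ≤ n → x ∈ Z.locus →
        ∃ j l : Fin n, j ≠ l ∧ ∃ N : ℕ, 0 < N ∧ N ≤ G ∧ Isog N (x j) (x l)) ∧
      {x | x ∈ crvR m c ∧
        ∃ (r : ℕ) (Z : SV (Γ : Set ℂ) n r), r + 2 ≤ n ∧ x ∈ Z.locus}.Finite ∧
      {x | x ∈ crvR m c ∧
        ∃ (r : ℕ) (Z : SV (Γ : Set ℂ) n r), r + 2 ≤ n ∧ x ∈ Z.locus}.ncard ≤ G ∧
      ∀ (r : ℕ) (Z : SV (Γ : Set ℂ) n r), r < n → ¬ crvR m c ⊆ Z.locus := by
  classical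
  haveI hpf : Fact p.Prime := ⟨hp⟩
  obtain ⟨C, _, _, _, _, _, φ, hpn⟩ := exists_padic p
  have hpR : (1 : ℝ) < p := by exact_mod_cast hp.one_lt
  have hp0 : 0 < ‖(p : C)‖ := by rw [hpn]; exact inv_pos.2 (by linarith)
  have hp1 : ‖(p : C)‖ < 1 := by rw [hpn]; exact inv_lt_one_of_one_lt₀ hpR
  obtain ⟨G, hG⟩ := main_k (C := C) (n := n) (d := d) hpD hp0 hp1 one_pos
  refine ⟨G, ?_⟩
  intro m c hm hpm hR Γ hΓ
  -- the exponent
  obtain ⟨e, m', hm', hme⟩ := Nat.exists_eq_pow_mul_and_not_dvd (Int.natAbs_ne_zero.2 hm) p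
    hp.one_lt.ne'
  have he : 0 < e := by
    rcases Nat.eq_zero_or_pos e with h | h
    · exfalso
      subst h
      rw [pow_zero, one_mul] at hme
      exact hm' (hme ▸ Int.natCast_dvd.1 hpm)
    · exact h
  have hmn : ‖(m : C)‖ = ‖(p : C)‖ ^ e := by
    have h1 : ‖(m : C)‖ = ‖((m.natAbs : ℕ) : C)‖ := by
      rcases Int.natAbs_eq m with h | h
      · conv_lhs => rw [h]
        rw [Int.cast_natCast]
      · conv_lhs => rw [h]
        rw [Int.cast_neg, Int.cast_natCast, norm_neg]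
    have h2 : ‖((m' : ℤ) : C)‖ = 1 := int_unit hp1 (by exact_mod_cast hm')
    rw [Int.cast_natCast] at h2
    rw [h1, hme]
    push_cast
    rw [norm_mul, norm_pow, h2, mul_one]
  -- the resultants
  have hR1 : ∀ i, ¬ (p : ℤ) ∣ rs1 c i := by
    intro i h
    apply hR
    unfold Rr
    rw [map_mul, map_prod, map_prod]
    refine dvd_mul_of_dvd_left (dvd_trans h ?_) _
    have h1 := Finset.dvd_prod_of_mem (fun i => MvPolynomial.eval c
      (rs1 (MvPolynomial.X : Idx n d → MvPolynomial (Idx n d) ℤ) i)) (Finset.mem_univ i)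
    simp only [rs1_eval] at h1 ⊢
    exact h1
  have hR2 : ∀ i j, i ≠ j → ¬ (p : ℤ) ∣ rs2 c i j := by
    intro i j hij h
    apply hR
    unfold Rr
    rw [map_mul, map_prod, map_prod]
    refine dvd_mul_of_dvd_right (dvd_trans h ?_) _
    have h1 := Finset.dvd_prod_of_mem (fun q : Fin n × Fin n => MvPolynomial.eval c
      (rs2 (MvPolynomial.X : Idx n d → MvPolynomial (Idx n d) ℤ) q.1 q.2))
      (Finset.mem_filter.2 ⟨Finset.mem_univ (i, j), hij⟩ :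
        (i, j) ∈ (Finset.univ : Finset (Fin n × Fin n)).filter (fun q => q.1 ≠ q.2))
    simp only [rs2_eval] at h1 ⊢
    exact h1
  have hcoef : ∀ (i : Fin n) (l : Fin 2) (k : ℕ),
      ‖(Rat.castHom C) ((poly (fun a => ((c a : ℤ) : ℚ)) i l).coeff k)‖ ≤ 1 := by
    intro i l k
    by_cases hk : k < d + 1
    · have h1 := poly_coeff (fun a => ((c a : ℤ) : ℚ)) i l ⟨k, hk⟩
      have h2 : (poly (fun a => ((c a : ℤ) : ℚ)) i l).coeff k = ((c (i, l, ⟨k, hk⟩) : ℤ) : ℚ) := h1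
      rw [h2, map_rat_int]
      exact nint _
    · rw [poly_coeff_ge _ _ _ (by omega), map_zero, norm_zero]
      exact zero_le_one
  have hgood : GoodC (Rat.castHom C) (fun _ : Fin n => d)
      (fun i => poly (fun a => ((c a : ℤ) : ℚ)) i 0)
      (fun i => poly (fun a => ((c a : ℤ) : ℚ)) i 1) := by
    refine ⟨fun i => poly_natDegree _ _ _, fun i => poly_natDegree _ _ _, fun i k => hcoef i 0 k,
      fun i k => hcoef i 1 k, fun i => ?_, fun i j hij => ?_⟩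
    · have h1 : resultant (poly (fun a => ((c a : ℤ) : ℚ)) i 0) (poly (fun a => ((c a : ℤ) : ℚ)) i 1)
          d d = ((rs1 c i : ℤ) : ℚ) := (rs1_map (Int.castRingHom ℚ) c i).symm
      rw [h1, map_rat_int]
      exact int_unit hp1 (hR1 i)
    · have h1 : resultant (poly (fun a => ((c a : ℤ) : ℚ)) i 0 * poly (fun a => ((c a : ℤ) : ℚ)) i 1)
          (poly (fun a => ((c a : ℤ) : ℚ)) j 0 * poly (fun a => ((c a : ℤ) : ℚ)) j 1)
          (d + d) (d + d) = ((rs2 c i j : ℤ) : ℚ) := (rs2_map (Int.castRingHom ℚ) c i j).symm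
      rw [h1, map_rat_int]
      exact int_unit hp1 (hR2 i j hij)
  have hmain := hG ℚ (Rat.castHom ℂ) (Rat.castHom QA) (Rat.castHom C) φ
    (fun x => by simp) (fun x => by simp) (unr_rat hp0 hp1) (fun _ => d)
    (fun i => poly (fun a => ((c a : ℤ) : ℚ)) i 0) (fun i => poly (fun a => ((c a : ℤ) : ℚ)) i 1)
    (fun _ => ⟨hd, le_rfl⟩) hgood Γ hΓ (fun _ => ((m : ℚ))⁻¹) e he (fun _ => by
      rw [map_inv₀, map_rat_int, norm_inv, hmn, inv_pow])
  rw [← crvR_eq hm c] at hmain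
  exact hmain

/-- algebraic numbers have a denominator -/
theorem exists_den {γ : ℂ} (h : IsAlgebraic ℚ γ) : ∃ m : ℕ, 0 < m ∧ IsIntegral ℤ ((m : ℂ) * γ) := by
  have h1 : IsAlgebraic ℤ γ := (IsFractionRing.isAlgebraic_iff ℤ ℚ ℂ).2 h
  obtain ⟨y, hy, hint⟩ := h1.exists_integral_multiple
  refine ⟨y.natAbs, Int.natAbs_pos.2 hy, ?_⟩
  have h2 : IsIntegral ℤ ((y : ℂ) * γ) := by
    have := hint
    rwa [zsmul_eq_mul] at this
  rcases Int.natAbs_eq y with h3 | h3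
  · rw [h3, Int.cast_natCast] at h2
    exact h2
  · rw [h3, Int.cast_neg, Int.cast_natCast, neg_mul] at h2
    have := h2.neg
    rwa [neg_neg] at this

/-- the density theorem for rational curves -/
theorem rand_main (n d : ℕ) (hd : 0 < d) (Γ : Finset ℂ) (hΓ : ∀ γ ∈ Γ, IsAlgebraic ℚ γ)
    (ε : ℝ) (hε : 0 < ε) : ∃ G H₀ : ℕ, ∀ H : ℕ, H₀ ≤ H →
      (1 - ε) * (2 * H + 1) ^ (1 + 2 * n * (d + 1)) ≤
        ({q : ℤ × (Idx n d → ℤ) | |q.1| ≤ H ∧ (∀ a, |q.2 a| ≤ H) ∧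
      (∀ x ∈ crvR q.1 q.2, ∀ (r : ℕ) (Z : SV (Γ : Set ℂ) n r), r + 2 ≤ n → x ∈ Z.locus →
        ∃ j l : Fin n, j ≠ l ∧ ∃ N : ℕ, 0 < N ∧ N ≤ G ∧ Isog N (x j) (x l)) ∧
      {x | x ∈ crvR q.1 q.2 ∧
        ∃ (r : ℕ) (Z : SV (Γ : Set ℂ) n r), r + 2 ≤ n ∧ x ∈ Z.locus}.Finite ∧
      {x | x ∈ crvR q.1 q.2 ∧
        ∃ (r : ℕ) (Z : SV (Γ : Set ℂ) n r), r + 2 ≤ n ∧ x ∈ Z.locus}.ncard ≤ G ∧
      ∀ (r : ℕ) (Z : SV (Γ : Set ℂ) n r), r < n → ¬ crvR q.1 q.2 ⊆ Z.locus}.ncard : ℝ) := by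
  classical
  have hden : ∀ γ : ℂ, ∃ m : ℕ, γ ∈ Γ → 0 < m ∧ IsIntegral ℤ ((m : ℂ) * γ) := by
    intro γ
    by_cases h : γ ∈ Γ
    · obtain ⟨m, hm⟩ := exists_den (hΓ γ h)
      exact ⟨m, fun _ => hm⟩
    · exact ⟨0, fun h' => absurd h' h⟩
  choose M hM using hden
  set T₀ := 16 * (d + 1) ^ 4 + ∑ γ ∈ Γ, M γ with hT₀
  obtain ⟨T', H₀, hH₀⟩ := density (Rr n d) (Rr_ne_zero n d) T₀ ε hε
  have hpr : ∀ p : ℕ, ∃ G : ℕ, p.Prime → 16 * (d + 1) ^ 4 < p →
      ∀ (m : ℤ) (c : Idx n d → ℤ), m ≠ 0 → (p : ℤ) ∣ m →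
      ¬ (p : ℤ) ∣ MvPolynomial.eval c (Rr n d) →
      ∀ Γ : Finset ℂ, (∀ γ ∈ Γ, ∃ m : ℕ, ¬ p ∣ m ∧ IsIntegral ℤ ((m : ℂ) * γ)) →
      (∀ x ∈ crvR m c, ∀ (r : ℕ) (Z : SV (Γ : Set ℂ) n r), r + 2 ≤ n → x ∈ Z.locus →
        ∃ j l : Fin n, j ≠ l ∧ ∃ N : ℕ, 0 < N ∧ N ≤ G ∧ Isog N (x j) (x l)) ∧
      {x | x ∈ crvR m c ∧
        ∃ (r : ℕ) (Z : SV (Γ : Set ℂ) n r), r + 2 ≤ n ∧ x ∈ Z.locus}.Finite ∧
      {x | x ∈ crvR m c ∧
        ∃ (r : ℕ) (Z : SV (Γ : Set ℂ) n r), r + 2 ≤ n ∧ x ∈ Z.locus}.ncard ≤ G ∧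
      ∀ (r : ℕ) (Z : SV (Γ : Set ℂ) n r), r < n → ¬ crvR m c ⊆ Z.locus := by
    intro p
    by_cases h : p.Prime ∧ 16 * (d + 1) ^ 4 < p
    · obtain ⟨G, hG⟩ := rand_prime n d hd p h.1 h.2
      exact ⟨G, fun _ _ => hG⟩
    · exact ⟨0, fun h1 h2 => absurd ⟨h1, h2⟩ h⟩
  choose Gp hGp using hpr
  refine ⟨∑ p ∈ Finset.range (T' + 1), Gp p, H₀, fun H hH => ?_⟩
  have hcardI : Fintype.card (Idx n d) = 2 * n * (d + 1) := by
    rw [Fintype.card_prod, Fintype.card_prod, Fintype.card_fin, Fintype.card_fin, Fintype.card_fin]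
    ring
  have h1 := hH₀ H hH
  rw [hcardI] at h1
  refine h1.trans ?_
  have hfin : {q : ℤ × (Idx n d → ℤ) | |q.1| ≤ (H : ℤ) ∧ ∀ a, |q.2 a| ≤ (H : ℤ)}.Finite := by
    refine (Finset.finite_toSet ((Finset.Icc (-(H : ℤ)) H) ×ˢ
      Fintype.piFinset fun _ : Idx n d => Finset.Icc (-(H : ℤ)) H)).subset ?_
    rintro q ⟨h1, h2⟩
    rw [Finset.mem_coe, Finset.mem_product, Fintype.mem_piFinset, Finset.mem_Icc]
    exact ⟨abs_le.1 h1, fun a => Finset.mem_Icc.2 (abs_le.1 (h2 a))⟩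
  refine Nat.cast_le.2 (Set.ncard_le_ncard ?_ (hfin.subset fun q hq => ⟨hq.1, hq.2.1⟩))
  rintro q ⟨h2, h3, h4, p, hp, hpT₀, hpT', hpq, hpR⟩
  have hpD : 16 * (d + 1) ^ 4 < p := by omega
  have hΓp : ∀ γ ∈ Γ, ∃ m : ℕ, ¬ p ∣ m ∧ IsIntegral ℤ ((m : ℂ) * γ) := by
    intro γ hγ
    obtain ⟨h5, h6⟩ := hM γ hγ
    refine ⟨M γ, fun h7 => ?_, h6⟩
    have h8 := Nat.le_of_dvd h5 h7
    have h9 : M γ ≤ ∑ γ ∈ Γ, M γ := Finset.single_le_sum (fun _ _ => Nat.zero_le _) hγ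
    omega
  obtain ⟨g1, g2, g3, g4⟩ := hGp p hp hpD q.1 q.2 h4 hpq hpR Γ hΓp
  have hle : Gp p ≤ ∑ p ∈ Finset.range (T' + 1), Gp p :=
    Finset.single_le_sum (fun _ _ => Nat.zero_le _) (Finset.mem_range.2 (by omega))
  refine ⟨h2, h3, ?_, g2, g3.trans hle, g4⟩
  intro x hx r Z hr hZ
  obtain ⟨j, l, hjl, N, hN0, hN, hI⟩ := g1 x hx r Z hr hZ
  exact ⟨j, l, hjl, N, hN0, hN.trans hle, hI⟩

end Pool.Agent.Y226.ZR
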