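import Pool.Agent.Y226.ZR.F

/-!
# The tame equation, uniformly in the curve
-/

set_option autoImplicit false
set_option linter.unusedSectionVars false

open Polynomial

namespace Pool.Agent.Y226.ZR

open Pool.Agent.Y226

variable {C : Type} [NormedField C] [IsUltrametricDist C]
variable {p : ℕ} [hpf : Fact p.Prime]

/-- the elements of the valuation ring in a subfield -/
noncomputable def FO (F : Subfield C) : Subring (OO C) := F.toSubring.comap (OO C).subtype

theorem mem_FO {F : Subfield C} {x : OO C} : x ∈ FO F ↔ (x : C) ∈ F := Iff.rfl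

theorem natDegree_sub_le_of_le' {R : Type} [Ring R] {P Q : R[X]} {m : ℕ} (hP : P.natDegree ≤ m)
    (hQ : Q.natDegree ≤ m) : (P - Q).natDegree ≤ m :=
  (natDegree_sub_le _ _).trans (max_le hP hQ)

theorem exists_tsplit_u [IsAlgClosed C] (hp0 : 0 < ‖(p : C)‖) (hp1 : ‖(p : C)‖ < 1)
    {F : Subfield C} (hFc : IsClosed (F : Set C)) {f : ℕ} (hf : 0 < f) (hF : Un p F f)
    {P : (OO C)[X]} (hP : P ∈ PR (FO F)) {m : ℕ} (hm : P.natDegree ≤ m) :
    ∃ s : TSplit (OO C) p P, s.T ∈ PR (FO F) ∧ s.T.natDegree ≤ m ∧ s.V ∈ PR (FO F) ∧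
      s.V.natDegree ≤ m := by
  classical
  have hpC : (p : C) ≠ 0 := norm_pos_iff.1 hp0
  have hpF : (p : C) ∈ F := natCast_mem F p
  have h1 : ∀ i, ∃ (τ : OO C) (v : OO C), τ ^ p ^ f = τ ∧
      P.coeff i = τ + p * v ∧ (τ : C) ∈ F ∧ (v : C) ∈ F := by
    intro i
    obtain ⟨τ, hτF, hτ, hle⟩ := teich_mem hp0 hp1 hFc hf hF (mem_FO.1 (mem_PR.1 hP i)) (P.coeff i).2
    refine ⟨⟨τ, (Nr_of_fixed hf hτ).1⟩, ⟨(((P.coeff i : OO C) : C) - τ) / p, ?_⟩,
      Subtype.ext hτ, Subtype.ext ?_, hτF, div_mem (sub_mem (mem_FO.1 (mem_PR.1 hP i)) hτF) hpF⟩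
    · rw [mem_OO, norm_div]
      exact div_le_one_of_le₀ hle (norm_nonneg _)
    · show ((P.coeff i : OO C) : C) = τ + ((p : OO C) : C) * ((((P.coeff i : OO C) : C) - τ) / p)
      have : ((p : OO C) : C) = (p : C) := by simp
      rw [this]
      field_simp
      ring
  choose τ v hτ hFe hτF hvF using h1
  have hc : ∀ (g : ℕ → OO C) (i : ℕ), (∑ i ∈ P.support, Polynomial.C (g i) * X ^ i).coeff i =
      if i ∈ P.support then g i else 0 := by
    intro g i
    rw [finsetSum_coeff]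
    simp only [coeff_C_mul, coeff_X_pow, mul_ite, mul_one, mul_zero]
    rw [Finset.sum_ite_eq]
  have hdeg : ∀ (g : ℕ → OO C), (∑ i ∈ P.support, Polynomial.C (g i) * X ^ i).natDegree ≤ m := by
    intro g
    refine natDegree_sum_le_of_forall_le _ _ fun i hi => ?_
    refine (natDegree_C_mul_X_pow_le _ _).trans ((le_natDegree_of_mem_supp i hi).trans hm)
  refine ⟨{ T := ∑ i ∈ P.support, Polynomial.C (τ i) * X ^ i
            V := ∑ i ∈ P.support, Polynomial.C (v i) * X ^ i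
            eq := ?_, teich := ?_ }, ?_, hdeg _, ?_, hdeg _⟩
  · conv_lhs => rw [P.as_sum_support_C_mul_X_pow]
    rw [Finset.mul_sum, ← Finset.sum_add_distrib]
    refine Finset.sum_congr rfl fun i _ => ?_
    rw [hFe i, C_add, C_mul]
    ring
  · intro i
    refine ⟨f, hf, ?_⟩
    rw [hc]
    split_ifs
    · exact hτ i
    · exact zero_pow (pow_pos hpf.out.pos _).ne'
  · rw [mem_PR]
    intro i
    show (∑ i ∈ P.support, Polynomial.C (τ i) * X ^ i).coeff i ∈ FO F
    rw [hc]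
    split_ifs
    · exact hτF i
    · exact zero_mem _
  · rw [mem_PR]
    intro i
    show (∑ i ∈ P.support, Polynomial.C (v i) * X ^ i).coeff i ∈ FO F
    rw [hc]
    split_ifs
    · exact hvF i
    · exact zero_mem _

theorem sharp_mem (hp0 : 0 < ‖(p : C)‖) {F : Subfield C} {T : (OO C)[X]} (hT : T ∈ PR (FO F)) :
    sharp (p := p) T ∈ PR (FO F) := by
  have hpC : (p : C) ≠ 0 := norm_pos_iff.1 hp0
  have hsig : sig p T ∈ PR (FO F) := by
    unfold sig
    refine sum_mem fun i _ => mul_mem (C_mem_PR (pow_mem (mem_PR.1 hT i) _)) (pow_mem ?_ _)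
    rw [mem_PR]
    intro m
    rw [coeff_X]
    split_ifs
    · exact one_mem _
    · exact zero_mem _
  have hexp : expand (OO C) p (sig p T) ∈ PR (FO F) := by
    rw [mem_PR]
    intro m
    rw [coeff_expand hpf.out.pos]
    split_ifs
    · exact mem_PR.1 hsig _
    · exact zero_mem _
  have h1 : Polynomial.C (p : OO C) * sharp (p := p) T ∈ PR (FO F) := by
    have h2 := sharp_spec (p := p) T
    have h3 : Polynomial.C (p : OO C) * sharp (p := p) T = T ^ p - expand (OO C) p (sig p T) := by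
      rw [h2]; ring
    rw [h3]
    exact sub_mem (pow_mem hT _) hexp
  rw [mem_PR] at h1 ⊢
  intro m
  have h2 := h1 m
  rw [coeff_C_mul, mem_FO] at h2
  rw [mem_FO]
  have h3 : ((p * (sharp (p := p) T).coeff m : OO C) : C) =
      (p : C) * ((sharp (p := p) T).coeff m : OO C) := by simp
  rw [h3] at h2
  have h4 := mul_mem (inv_mem (natCast_mem F p)) h2
  rwa [inv_mul_cancel_left₀ hpC] at h4

theorem sharp_deg (hp0 : 0 < ‖(p : C)‖) (T : (OO C)[X]) :
    (sharp (p := p) T).natDegree ≤ p * T.natDegree := by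
  have hpC : (p : C) ≠ 0 := norm_pos_iff.1 hp0
  have hpO : (p : OO C) ≠ 0 := by
    intro h
    apply hpC
    have := congrArg Subtype.val h
    simpa using this
  have h2 := sharp_spec (p := p) T
  have h3 : Polynomial.C (p : OO C) * sharp (p := p) T = T ^ p - expand (OO C) p (sig p T) := by
    rw [h2]; ring
  have h4 : (Polynomial.C (p : OO C) * sharp (p := p) T).natDegree =
      (sharp (p := p) T).natDegree := natDegree_C_mul hpO
  rw [← h4, h3]
  refine natDegree_sub_le_of_le' natDegree_pow_le ?_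
  rw [natDegree_expand, mul_comm]
  refine Nat.mul_le_mul_left _ ?_
  unfold sig
  refine natDegree_sum_le_of_forall_le _ _ fun i hi => ?_
  exact (natDegree_C_mul_X_pow_le _ _).trans (le_natDegree_of_mem_supp i hi)

section

variable {k : Type} [Field k] [CharP k p] {red : OO C →+* k}

theorem map_red_mem (hker : ∀ x : OO C, red x = 0 ↔ ‖(x : C)‖ < 1) (hp1 : ‖(p : C)‖ < 1)
    {F : Subfield C} {f : ℕ} (hF : Un p F f) {G : (OO C)[X]} (hG : G ∈ PR (FO F)) :
    G.map red ∈ PR (FK k p f) := by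
  rw [mem_PR] at hG ⊢
  intro m
  rw [coeff_map]
  exact red_FK hker hp1 hF (hG m)

end

section

variable {n d : ℕ} (𝒟 : PData C p n d)

theorem aO_mem {F : Subfield C} (hA : ∀ i m, (𝒟.A i).coeff m ∈ F) (i : Fin n) :
    𝒟.aO i ∈ PR (FO F) := by
  rw [mem_PR]
  intro m
  rw [mem_FO]
  have h := hA i m
  rw [← 𝒟.aO_map i, coeff_map] at h
  exact h

theorem bO_mem {F : Subfield C} (hB : ∀ i m, (𝒟.B i).coeff m ∈ F) (i : Fin n) :
    𝒟.bO i ∈ PR (FO F) := by
  rw [mem_PR]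
  intro m
  rw [mem_FO]
  have h := hB i m
  rw [← 𝒟.bO_map i, coeff_map] at h
  exact h

end

end Pool.Agent.Y226.ZR

namespace Pool.Agent.Y226.PData

open Pool.Agent.Y226.ZR

variable {C : Type} [NormedField C] [IsUltrametricDist C]
variable {p : ℕ} [hpf : Fact p.Prime]
variable {n d : ℕ} (𝒟 : PData C p n d)
variable {k : Type} [Field k] [CharP k p] (red : OO C →+* k)

/-- the tame equation: the residue of `t` is a root of a fixed nonzero polynomial -/
theorem tame_main_u [IsAlgClosed C] [CharZero C] (hpD : 16 * (d + 1) ^ 4 < p) (hp0 : 0 < ‖(p : C)‖)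
    (hp1 : ‖(p : C)‖ < 1) (hker : ∀ x : OO C, red x = 0 ↔ ‖(x : C)‖ < 1) {F : Subfield C}
    (hFc : IsClosed (F : Set C)) {ff : ℕ} (hff : 0 < ff) (hF : Un p F ff)
    (hA : ∀ i m, (𝒟.A i).coeff m ∈ F) (hB : ∀ i m, (𝒟.B i).coeff m ∈ F) (κ : OO C)
    (hκ : red κ ∈ FK k p ff)
    {j l j' l' : Fin n} (hjl : j ≠ l) (hjl' : j' ≠ l')
    (hne : ¬ ((j' = j ∧ l' = l) ∨ (j' = l ∧ l' = j))) :
    ∃ Pp : k[X], Pp ≠ 0 ∧ Pp ∈ PR (FK k p ff) ∧ Pp.natDegree ≤ 8 * d * p + 4 * d ∧ ∀ (t t₀ : OO C) (f : ℕ) (Y : Fin n → Cˣ) (ζ ζ' : OO C) (ζu ζu' : Cˣ)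
      (f₁ f₂ : ℕ), 0 < f → t₀ ^ p ^ f = t₀ → ‖(t : C) - t₀‖ < 1 → 𝒟.Val (t : C) Y j →
      𝒟.Val (t : C) Y l → 𝒟.Val (t : C) Y j' → 𝒟.Val (t : C) Y l' → (ζu : C) = ζ →
      (ζu' : C) = ζ' → 0 < f₁ → ζ ^ p ^ f₁ = ζ → 0 < f₂ → ζ' ^ p ^ f₂ = ζ' →
      Rel2 (p := p) κ Y j l ζu → Rel2 (p := p) κ Y j' l' ζu' → Pp.eval (red t) = 0 := by
  have hd2 : 2 * d < p := by
    have hd1 : (d + 1) ^ 1 ≤ (d + 1) ^ 4 := Nat.pow_le_pow_right (Nat.succ_pos d) (by norm_num)
    rw [pow_one] at hd1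
    omega
  have hpC : (p : C) ≠ 0 := norm_pos_iff.1 hp0
  have hcoe : ((p : OO C) : C) = (p : C) := by simp
  have hpO : (p : OO C) ≠ 0 := by
    intro h
    apply hpC
    rw [← hcoe, h]
    rfl
  have hredp : red (p : OO C) = 0 := by rw [map_natCast]; exact CharP.cast_eq_zero k p
  have hUm := fun a b : Fin n => mul_mem (bO_mem 𝒟 hB a) (aO_mem 𝒟 hA b)
  have hVm := fun a b : Fin n => mul_mem (aO_mem 𝒟 hA a) (bO_mem 𝒟 hB b)
  have hUd := fun a b : Fin n => natDegree_mul_le_of_le (𝒟.bO_deg a) (𝒟.aO_deg b)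
  have hVd := fun a b : Fin n => natDegree_mul_le_of_le (𝒟.aO_deg a) (𝒟.bO_deg b)
  obtain ⟨sU, u1, u2, u3, u4⟩ := exists_tsplit_u hp0 hp1 hFc hff hF (hUm j l) (hUd j l)
  obtain ⟨sV, v1, v2, v3, v4⟩ := exists_tsplit_u hp0 hp1 hFc hff hF (hVm j l) (hVd j l)
  obtain ⟨sU', u1', u2', u3', u4'⟩ := exists_tsplit_u hp0 hp1 hFc hff hF (hUm j' l') (hUd j' l')
  obtain ⟨sV', v1', v2', v3', v4'⟩ := exists_tsplit_u hp0 hp1 hFc hff hF (hVm j' l') (hVd j' l')
  have hmr : ∀ {G : (OO C)[X]}, G ∈ PR (FO F) → G.map red ∈ PR (FK k p ff) := fun h =>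
    map_red_mem hker hp1 hF h
  have hsh : ∀ {T : (OO C)[X]}, T ∈ PR (FO F) → (sharp (p := p) T).map red ∈ PR (FK k p ff) :=
    fun h => hmr (sharp_mem hp0 h)
  have hshd : ∀ {T : (OO C)[X]}, T.natDegree ≤ d + d →
      ((sharp (p := p) T).map red).natDegree ≤ p * (d + d) := fun {T} h =>
    natDegree_map_le.trans ((sharp_deg hp0 T).trans (Nat.mul_le_mul_left _ h))
  have hTeq : ∀ {F : (OO C)[X]} (s : TSplit (OO C) p F), s.T.map red = F.map red := by
    intro F s
    conv_rhs => rw [s.eq]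
    rw [Polynomial.map_add, Polynomial.map_mul, Polynomial.map_C, hredp, C_0, zero_mul, add_zero]
  have hWne : ∀ a b : Fin n, a ≠ b →
      derivative ((𝒟.bO a * 𝒟.aO b).map red) * (𝒟.aO a * 𝒟.bO b).map red -
        (𝒟.bO a * 𝒟.aO b).map red * derivative ((𝒟.aO a * 𝒟.bO b).map red) ≠ 0 := by
    intro a b hab
    obtain ⟨x₀, h1, -⟩ := 𝒟.exists_excl red hker a
    exact (wronskian_mult (p := p) (𝒟.UU_ne red hker hab) (𝒟.VV_ne red hker hab)
      ((𝒟.UU_deg red a b).trans_lt hd2) ((𝒟.VV_deg red a b).trans_lt hd2)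
      (h1 a b hab (Or.inl rfl))).1
  -- an index of the first pair outside the second
  obtain ⟨i, hi1, hi2, hi3⟩ : ∃ i, (i = j ∨ i = l) ∧ i ≠ j' ∧ i ≠ l' := by
    by_cases h1 : j ≠ j' ∧ j ≠ l'
    · exact ⟨j, Or.inl rfl, h1.1, h1.2⟩
    · refine ⟨l, Or.inr rfl, ?_, ?_⟩
      · intro h2
        apply hne
        right
        refine ⟨h2.symm, ?_⟩
        by_contra h3
        exact h1 ⟨fun h4 => hjl (h4.trans h2.symm), fun h4 => h3 h4.symm⟩
      · intro h2
        apply hne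
        left
        refine ⟨?_, h2.symm⟩
        by_contra h3
        exact h1 ⟨fun h4 => h3 h4.symm, fun h4 => hjl (h4.trans h2.symm)⟩
  obtain ⟨x₀, hx1, hx2⟩ := 𝒟.exists_excl red hker i
  obtain ⟨hx3, hx4⟩ := hx2 j' l' hi2 hi3
  have hne2 := tame_ne_zero (p := p) (x₀ := x₀)
    (Us₂ := (sharp (p := p) sU.T).map red) (Vs₂ := (sharp (p := p) sV.T).map red)
    (Us₃ := (sharp (p := p) sU'.T).map red) (Vs₃ := (sharp (p := p) sV'.T).map red)
    (U₂ := (𝒟.bO j * 𝒟.aO l).map red) (V₂ := (𝒟.aO j * 𝒟.bO l).map red)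
    (U₃ := (𝒟.bO j' * 𝒟.aO l').map red) (V₃ := (𝒟.aO j' * 𝒟.bO l').map red)
    (S₂ := sU.V.map red * (𝒟.aO j * 𝒟.bO l).map red - (𝒟.bO j * 𝒟.aO l).map red * sV.V.map red -
      Polynomial.C (red κ) * ((𝒟.aO j * 𝒟.bO l).map red - (𝒟.bO j * 𝒟.aO l).map red) *
        ((𝒟.bO j).map red * (𝒟.bO l).map red))
    (S₃ := sU'.V.map red * (𝒟.aO j' * 𝒟.bO l').map red -
      (𝒟.bO j' * 𝒟.aO l').map red * sV'.V.map red -
      Polynomial.C (red κ) * ((𝒟.aO j' * 𝒟.bO l').map red - (𝒟.bO j' * 𝒟.aO l').map red) *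
        ((𝒟.bO j').map red * (𝒟.bO l').map red))
    (by rw [← hTeq sU]; exact sharp_derivative red hpO sU.T)
    (by rw [← hTeq sV]; exact sharp_derivative red hpO sV.T)
    (by rw [← hTeq sU']; exact sharp_derivative red hpO sU'.T)
    (by rw [← hTeq sV']; exact sharp_derivative red hpO sV'.T)
    (𝒟.UU_ne red hker hjl) (𝒟.VV_ne red hker hjl)
    ((𝒟.UU_deg red j l).trans_lt hd2) ((𝒟.VV_deg red j l).trans_lt hd2)
    (hx1 j l hjl hi1) hx3 hx4 (hWne j' l' hjl')
  have mU := hmr (hUm j l)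
  have mV := hmr (hVm j l)
  have mU' := hmr (hUm j' l')
  have mV' := hmr (hVm j' l')
  have mb := fun a => hmr (bO_mem 𝒟 hB a)
  have dU : ((𝒟.bO j * 𝒟.aO l).map red).natDegree ≤ d + d := natDegree_map_le.trans (hUd j l)
  have dV : ((𝒟.aO j * 𝒟.bO l).map red).natDegree ≤ d + d := natDegree_map_le.trans (hVd j l)
  have dU' : ((𝒟.bO j' * 𝒟.aO l').map red).natDegree ≤ d + d := natDegree_map_le.trans (hUd j' l')
  have dV' : ((𝒟.aO j' * 𝒟.bO l').map red).natDegree ≤ d + d := natDegree_map_le.trans (hVd j' l')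
  have db : ∀ a, ((𝒟.bO a).map red).natDegree ≤ d := fun a => natDegree_map_le.trans (𝒟.bO_deg a)
  have dder : ∀ {G : k[X]} {m : ℕ}, G.natDegree ≤ m → (derivative G).natDegree ≤ m := fun h =>
    (natDegree_derivative_le _).trans ((Nat.sub_le _ _).trans h)
  have hCd : ∀ x : k, (Polynomial.C x).natDegree ≤ 0 := fun x => by rw [natDegree_C]
  refine ⟨_, mul_ne_zero (hWne j l hjl) hne2, ?_, ?_, ?_⟩
  · refine mul_mem (sub_mem (mul_mem (derivative_mem_PR mU) mV) (mul_mem mU (derivative_mem_PR mV)))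
      (sub_mem (mul_mem (pow_mem (sub_mem (mul_mem (derivative_mem_PR mU') mV')
        (mul_mem mU' (derivative_mem_PR mV'))) _) (add_mem (sub_mem (mul_mem (hsh v1) (pow_mem mU _))
        (mul_mem (hsh u1) (pow_mem mV _))) (pow_mem ?_ _)))
      (mul_mem (pow_mem (sub_mem (mul_mem (derivative_mem_PR mU) mV)
        (mul_mem mU (derivative_mem_PR mV))) _) (add_mem (sub_mem (mul_mem (hsh v1') (pow_mem mU' _))
        (mul_mem (hsh u1') (pow_mem mV' _))) (pow_mem ?_ _))))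
    · exact sub_mem (sub_mem (mul_mem (hmr u3) mV) (mul_mem mU (hmr v3)))
        (mul_mem (mul_mem (C_mem_PR hκ) (sub_mem mV mU)) (mul_mem (mb _) (mb _)))
    · exact sub_mem (sub_mem (mul_mem (hmr u3') mV') (mul_mem mU' (hmr v3')))
        (mul_mem (mul_mem (C_mem_PR hκ) (sub_mem mV' mU')) (mul_mem (mb _) (mb _)))
  · have dW : ∀ {U V : k[X]}, U.natDegree ≤ d + d → V.natDegree ≤ d + d →
        (derivative U * V - U * derivative V).natDegree ≤ (d + d) + (d + d) := fun hU hV =>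
      natDegree_sub_le_of_le' (natDegree_mul_le_of_le (dder hU) hV)
        (natDegree_mul_le_of_le hU (dder hV))
    have dS : ∀ {U V b₁ b₂ v₁ v₂ : k[X]} (x : k), U.natDegree ≤ d + d → V.natDegree ≤ d + d →
        b₁.natDegree ≤ d → b₂.natDegree ≤ d → v₁.natDegree ≤ d + d → v₂.natDegree ≤ d + d →
        (v₁ * V - U * v₂ - Polynomial.C x * (V - U) * (b₁ * b₂)).natDegree ≤
          (d + d) + (d + d) := fun x hU hV h1 h2 h3 h4 => by
      refine natDegree_sub_le_of_le' (natDegree_sub_le_of_le' (natDegree_mul_le_of_le h3 hV)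
        (natDegree_mul_le_of_le hU h4)) ?_
      refine natDegree_mul_le_of_le ?_ (natDegree_mul_le_of_le h1 h2)
      rw [← zero_add (d + d)]
      exact natDegree_mul_le_of_le (hCd x) (natDegree_sub_le_of_le' hV hU)
    have dK : ∀ {Us Vs U V S W W' : k[X]}, Us.natDegree ≤ p * (d + d) →
        Vs.natDegree ≤ p * (d + d) → U.natDegree ≤ d + d → V.natDegree ≤ d + d →
        S.natDegree ≤ (d + d) + (d + d) → W.natDegree ≤ (d + d) + (d + d) →
        (W ^ p * ((Vs * U ^ p - Us * V ^ p) + S ^ p)).natDegree ≤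
          p * ((d + d) + (d + d)) + p * ((d + d) + (d + d)) := fun h1 h2 h3 h4 h5 h6 => by
      refine natDegree_mul_le_of_le (natDegree_pow_le_of_le _ h6) ?_
      refine natDegree_add_le_of_degree_le (natDegree_sub_le_of_le' ?_ ?_)
        (natDegree_pow_le_of_le _ h5)
      · rw [mul_add p]
        exact natDegree_mul_le_of_le h2 (natDegree_pow_le_of_le _ h3)
      · rw [mul_add p]
        exact natDegree_mul_le_of_le h1 (natDegree_pow_le_of_le _ h4)
    have hfin := natDegree_mul_le_of_le (dW dU dV) (natDegree_sub_le_of_le'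
      (dK (W' := 0) (hshd u2) (hshd v2) dU dV (dS (red κ) dU dV (db j) (db l)
        ((natDegree_map_le (f := red)).trans u4) ((natDegree_map_le (f := red)).trans v4)) (dW dU' dV'))
      (dK (W' := 0) (hshd u2') (hshd v2') dU' dV' (dS (red κ) dU' dV' (db j') (db l')
        ((natDegree_map_le (f := red)).trans u4') ((natDegree_map_le (f := red)).trans v4')) (dW dU dV)))
    refine hfin.trans (le_of_eq ?_)
    ring
  intro t t₀ f Y ζ ζ' ζu ζu' f₁ f₂ hf ht₀ htt hj hl hj' hl' hζ hζ' hf₁ hfζ hf₂ hfζ' hr hr'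
  rw [eval_mul]
  by_cases hWx : (derivative ((𝒟.bO j * 𝒟.aO l).map red) * (𝒟.aO j * 𝒟.bO l).map red -
        (𝒟.bO j * 𝒟.aO l).map red * derivative ((𝒟.aO j * 𝒟.bO l).map red)).eval (red t) = 0
  · rw [hWx, zero_mul]
  obtain ⟨r, ρ, h1, h2⟩ := 𝒟.rel2_OO red hker hp0 hζ hj hl hr
  obtain ⟨r', ρ', h1', h2'⟩ := 𝒟.rel2_OO red hker hp0 hζ' hj' hl' hr'
  have hxx : red t = red t₀ := red_eq red hker htt
  -- the distance is at most `‖p‖`
  have hdist : ‖(t : C) - t₀‖ ≤ ‖(p : C)‖ := by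
    set E : (OO C)[X] := 𝒟.bO j * 𝒟.aO l - Polynomial.C ζ * (𝒟.aO j * 𝒟.bO l) with hE
    obtain ⟨c, hc⟩ := binomExpansion E t₀ (t - t₀)
    rw [add_sub_cancel] at hc
    have hEt : ‖((E.eval t : OO C) : C)‖ ≤ ‖(p : C)‖ := by
      have : E.eval t = p * (r + p * ρ) := by
        rw [hE, eval_sub, eval_mul (p := Polynomial.C ζ), eval_C, h1]; ring
      rw [this, Subring.coe_mul, hcoe]
      exact nmul_le' le_rfl (r + p * ρ).2
    have hEred : red (E.eval t) = 0 := by
      rw [hker]; exact hEt.trans_lt hp1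
    have hEt₀r : red (E.eval t₀) = 0 := by
      rw [← eval_map_apply] at hEred ⊢
      rw [← hxx]
      exact hEred
    have hENr : ((E.eval t₀ : OO C) : C) ∈ Nr C p := by
      have hmap : E.map (OO C).subtype ∈ PS (Nr C p) := by
        rw [hE, Polynomial.map_sub, Polynomial.map_mul, Polynomial.map_mul, Polynomial.map_mul,
          Polynomial.map_C, aO_map, bO_map, aO_map, bO_map]
        refine sub_mem (mul_mem (𝒟.hB j) (𝒟.hA l)) (mul_mem (C_mem_PS ?_)
          (mul_mem (𝒟.hA j) (𝒟.hB l)))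
        exact Nr_of_fixed hf₁ (congrArg Subtype.val hfζ)
      have := eval_mem hmap (Nr_of_fixed hf (congrArg Subtype.val ht₀))
      have e : ((E.eval t₀ : OO C) : C) = (E.map (OO C).subtype).eval (t₀ : C) :=
        (eval_map_apply (f := (OO C).subtype) t₀).symm
      rw [e]
      exact this
    have hEt₀ : ‖((E.eval t₀ : OO C) : C)‖ ≤ ‖(p : C)‖ := Nr_gap hENr ((hker _).1 hEt₀r)
    have hE' : ‖(((derivative E).eval t₀ : OO C) : C)‖ = 1 := by
      refine le_antisymm ((derivative E).eval t₀).2 (not_lt.1 fun h => ?_)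
      rw [← hker, ← eval_map_apply, ← hxx, ← derivative_map, hE] at h
      apply hWx
      rw [Polynomial.map_sub, Polynomial.map_mul (p := Polynomial.C ζ), Polynomial.map_C,
        derivative_sub, derivative_mul (f := Polynomial.C (red ζ)), derivative_C, zero_mul,
        zero_add, eval_sub, eval_mul, eval_C] at h
      have huv : ((𝒟.bO j * 𝒟.aO l).map red).eval (red t) =
          red ζ * ((𝒟.aO j * 𝒟.bO l).map red).eval (red t) := by
        rw [eval_map_apply, eval_map_apply, h1]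
        simp only [map_add, map_mul, map_pow, hredp]
        ring
      rw [eval_sub, eval_mul, eval_mul, huv]
      linear_combination ((𝒟.aO j * 𝒟.bO l).map red).eval (red t) * h
    by_contra hcon
    push Not at hcon
    have hcC : ((E.eval t : OO C) : C) = ((E.eval t₀ : OO C) : C) +
        (((derivative E).eval t₀ : OO C) : C) * ((t : C) - t₀) + (c : C) * ((t : C) - t₀) ^ 2 :=
      congrArg Subtype.val hc
    have h5 : ‖(((derivative E).eval t₀ : OO C) : C) * ((t : C) - t₀)‖ = ‖(t : C) - t₀‖ := by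
      rw [norm_mul, hE', one_mul]
    have h6 : (((derivative E).eval t₀ : OO C) : C) * ((t : C) - t₀) =
        (((E.eval t : OO C) : C) - ((E.eval t₀ : OO C) : C)) - (c : C) * ((t : C) - t₀) ^ 2 := by
      rw [hcC]; ring
    have h7 : ‖(((derivative E).eval t₀ : OO C) : C) * ((t : C) - t₀)‖ < ‖(t : C) - t₀‖ := by
      rw [h6]
      refine nsub_lt ((nsub_le hEt hEt₀).trans_lt hcon) ?_
      refine lt_of_le_of_lt (nmul_le c.2 le_rfl) ?_
      rw [norm_pow, sq]
      have h8 : 0 < ‖(t : C) - t₀‖ := (norm_nonneg _).trans_lt hcon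
      nlinarith
    rw [h5] at h7
    exact lt_irrefl _ h7
  obtain ⟨η, hη⟩ : ∃ η : OO C, t = t₀ + p * η := by
    refine ⟨⟨((t : C) - t₀) / p, ?_⟩, Subtype.ext ?_⟩
    · rw [mem_OO, norm_div]
      exact div_le_one_of_le₀ hdist (norm_nonneg _)
    · show (t : C) = t₀ + ((p : OO C) : C) * (((t : C) - t₀) / p)
      rw [hcoe]
      field_simp
      ring
  rw [hxx] at h2 h2' ⊢
  rw [hη] at h1 h1'
  have k1 := tame_identity red hpO sU sV hf hf₁ ht₀ hfζ h1 h2
  have k2 := tame_identity red hpO sU' sV' hf hf₂ ht₀ hfζ' h1' h2'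
  exact tame_final (p := p) _ _ _ _ _ _ _ _ k1 k2

end Pool.Agent.Y226.PData
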